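import Pool.Agent.T2h96.Inf

/-!
# helper96: the infinite volume theory, its transfer operators
-/

set_option autoImplicit false
set_option linter.unusedSectionVars false

noncomputable section

namespace Pool.Agent.T2h96

open MeasureTheory Measure Function Filter Classical
open scoped Topology

variable {d : ℕ} {G : Type} [Group G] [TopologicalSpace G] [IsTopologicalGroup G]
  [CompactSpace G] [T2Space G] [SecondCountableTopology G] [MeasurableSpace G] [BorelSpace G]

/-- a finite set of links is contained in a cube -/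
theorem finset_near (s : Finset (Link d)) : ∃ r : ℕ, ∀ b ∈ s, Near r b.1 (0 : Site d) := by
  refine ⟨∑ b ∈ s, ∑ k, (b.1 k).natAbs, fun b hb k => ?_⟩
  have h1 : (b.1 k).natAbs ≤ ∑ b ∈ s, ∑ k, (b.1 k).natAbs :=
    (Finset.single_le_sum (f := fun k => (b.1 k).natAbs) (fun _ _ => Nat.zero_le _)
      (Finset.mem_univ k)).trans
    (Finset.single_le_sum (f := fun b : Link d => ∑ k, (b.1 k).natAbs)
      (fun _ _ => Nat.zero_le _) hb)
  simp only [Pi.zero_apply, sub_zero]
  rw [Int.abs_eq_natAbs]
  exact_mod_cast h1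

/-- measures are determined by the local functions -/
theorem measure_ext_loc (ν ν' : Measure (Link d → G)) [IsProbabilityMeasure ν]
    [IsProbabilityMeasure ν'] (h : ∀ A : (Link d → G) → ℝ, IsLoc A →
      ∫ U, A U ∂ν = ∫ U, A U ∂ν') : ν = ν' := by
  refine ext_of_generate_finite _ (generateFrom_squareCylinders (α := fun _ : Link d => G)).symm
    (isPiSystem_squareCylinders (fun _ => MeasurableSpace.isPiSystem_measurableSet) (by simp))
    ?_ (by rw [measure_univ, measure_univ])
  rintro _ ⟨s, t, ht, rfl⟩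
  have ht' : ∀ b, MeasurableSet (t b) := fun b => ht b (Set.mem_univ b)
  have hS : MeasurableSet ((s : Set (Link d)).pi t) := .pi s.countable_toSet fun b _ => ht' b
  have hl : IsLoc (((s : Set (Link d)).pi t).indicator fun _ => (1 : ℝ)) := by
    obtain ⟨r, hr⟩ := finset_near s
    refine ⟨measurable_const.indicator hS, ⟨1, fun U => ?_⟩, r, 0, fun U V hUV => ?_⟩
    · by_cases hU : U ∈ (s : Set (Link d)).pi t
      · rw [Set.indicator_of_mem hU]; simp
      · rw [Set.indicator_of_notMem hU]; simp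
    · have h1 : U ∈ (s : Set (Link d)).pi t ↔ V ∈ (s : Set (Link d)).pi t := by
        simp only [Set.mem_pi, Finset.mem_coe]
        refine forall₂_congr fun b hb => ?_
        rw [hUV b (hr b hb)]
      by_cases hU : U ∈ (s : Set (Link d)).pi t
      · rw [Set.indicator_of_mem hU, Set.indicator_of_mem (h1.1 hU)]
      · rw [Set.indicator_of_notMem hU, Set.indicator_of_notMem fun hV => hU (h1.2 hV)]
  have h1 := h _ hl
  rw [integral_indicator_const _ hS, integral_indicator_const _ hS] at h1
  simp only [smul_eq_mul, mul_one] at h1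
  rw [Measure.real, Measure.real] at h1
  exact (ENNReal.toReal_eq_toReal_iff' (measure_ne_top _ _) (measure_ne_top _ _)).1 h1

/-- The lattice field theory with the probability measure `ν` on the gauge fields, the direction
`τ` being the Euclidean time, is invariant and reflection positive, and the transfer operator
has norm at most `exp (-m)` on the orthogonal complement of the vacuum: this is the content of
`gap`, as the functions `A` of the fields at nonnegative times are the vectors of a dense subspace,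
with the scalar product `⟨A, A'⟩ = ∫ A (reflC τ U) * A' U ∂ν`. -/
structure OSGap (m : ℝ) (τ : Fin d) (ν : Measure (Link d → G)) : Prop where
  shift : MeasurePreserving (shiftC τ 1) ν ν
  refl : MeasurePreserving (reflC τ) ν ν
  pos : ∀ A : (Link d → G) → ℝ, IsLoc A → DepOn (posL τ) A →
    0 ≤ ∫ U, A (reflC τ U) * A U ∂ν
  gap : ∀ A : (Link d → G) → ℝ, IsLoc A → DepOn (posL τ) A → ∀ n : ℕ,
    |∫ U, A (reflC τ U) * A (shiftC τ n U) ∂ν - (∫ U, A U ∂ν) ^ 2| ≤
      (∫ U, A (reflC τ U) * A U ∂ν - (∫ U, A U ∂ν) ^ 2) * Real.exp (-m * n)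

variable (μ : Measure G) [μ.IsHaarMeasure] [IsProbabilityMeasure μ]

theorem theory {m : ℝ} (hm : 0 < m) {C : ℕ → ℝ} {W : Plaq d → G → ℝ} (hW : WOK W)
    (hcl : ∀ P : Finset (Plaq d), Clusters m C (expect μ W P))
    (c c' : ℝ) (hc : 0 < c) (hWc : ∀ p g, c ≤ W p g ∧ W p g ≤ c') :
    ∃ ν : Measure (Link d → G), IsProbabilityMeasure ν ∧
      (∀ A : (Link d → G) → ℝ, IsLoc A →
        Tendsto (fun P => expect μ W P A) atTop (𝓝 (∫ U, A U ∂ν))) ∧
      Clusters m C (fun A => ∫ U, A U ∂ν) ∧ (Homog W → ∀ τ : Fin d, OSGap m τ ν) := by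
  obtain ⟨ω, hω, hωc⟩ := exists_state μ hm hW hcl c c' hc hWc
  obtain ⟨ν, hν, hνω⟩ := exists_measure μ hW hc hWc hω
  have hWc1 : ∀ p g, c ≤ W p g := fun p g => (hWc p g).1
  have hlim : IsLim μ W fun A => ∫ U, A U ∂ν := fun A hA => by
    show Tendsto (fun P => expect μ W P A) atTop (𝓝 (∫ U, A U ∂ν))
    rw [hνω A hA]
    exact hω A hA
  have hcl' : Clusters m C (fun A : (Link d → G) → ℝ => ∫ U, A U ∂ν) := by
    intro r x y A A' a a' hA hA' ha ha' hd hd' k
    have l1 : IsLoc A := ⟨hA, ⟨a, ha⟩, r, x, hd⟩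
    have l2 : IsLoc A' := ⟨hA', ⟨a', ha'⟩, r, y, hd'⟩
    have h := hωc r x y A A' a a' hA hA' ha ha' hd hd' k
    rw [← hνω _ (l1.mul l2), ← hνω _ l1, ← hνω _ l2] at h
    exact h
  refine ⟨ν, hν, hlim, hcl', fun hH τ => ?_⟩
  have hmp : ∀ T : (Link d → G) → Link d → G, Measurable T →
      (∀ A : (Link d → G) → ℝ, IsLoc A → ∫ U, A (T U) ∂ν = ∫ U, A U ∂ν) →
      MeasurePreserving T ν ν := by
    intro T hT h
    refine ⟨hT, ?_⟩
    haveI : IsProbabilityMeasure (ν.map T) := Measure.isProbabilityMeasure_map hT.aemeasurable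
    refine measure_ext_loc _ _ fun A hA => ?_
    rw [integral_map hT.aemeasurable hA.1.aestronglyMeasurable]
    exact h A hA
  refine ⟨hmp _ (mp_shiftC μ τ 1).measurable fun A hA => ?_,
    hmp _ (meas_reflC τ) fun A hA => ?_, fun A hA hd => ?_, fun A hA hd n => ?_⟩
  · exact ω_shift hW hlim hH τ 1 hA
  · exact ω_refl hW hlim hH τ hA
  · exact ω_rp hW hlim hH τ hA hd
  · exact ω_gap hW hc hWc1 hlim hH hm hcl' τ hA hd n

end Pool.Agent.T2h96
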