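import Pool.Agent.T2h96.Chain

/-!
# helper96: the number of connected sets of blocks
-/

set_option autoImplicit false

noncomputable section

namespace Pool.Agent.T2h96

open Classical

variable {d : ℕ}

/-- the king moves -/
def moves (d : ℕ) : Finset (Site d) := Fintype.piFinset fun _ => Finset.Icc (-1) 1

theorem card_moves : (moves d).card = 3 ^ d := by
  rw [moves, Fintype.card_piFinset]
  simp

/-- the walks with `k` steps from `o`, without the first vertex -/
def walks : ℕ → Site d → Finset (List (Site d))
  | 0, _ => {[]}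
  | k + 1, o => (moves d).biUnion fun s => (walks k (o + s)).image fun l => (o + s) :: l

theorem card_walks (k : ℕ) (o : Site d) : (walks k o).card ≤ (3 ^ d) ^ k := by
  induction k generalizing o with
  | zero => simp [walks]
  | succ k ih =>
    rw [walks]
    refine le_trans (Finset.card_biUnion_le_card_mul _ _ ((3 ^ d) ^ k) ?_) ?_
    · intro Q _
      exact le_trans Finset.card_image_le (ih _)
    · rw [card_moves, pow_succ, mul_comm]

theorem mem_walks (l : List (Site d)) (o : Site d) (h : List.IsChain (Near 1) (o :: l)) :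
    l ∈ walks l.length o := by
  induction l generalizing o with
  | nil => simp [walks]
  | cons Q l ih =>
    rw [List.length_cons, walks]
    rw [List.isChain_cons_cons] at h
    rw [Finset.mem_biUnion]
    refine ⟨Q - o, ?_, ?_⟩
    · rw [moves, Fintype.mem_piFinset]
      intro k
      have := h.1 k
      rw [abs_le] at this
      rw [Finset.mem_Icc]
      simp only [Pi.sub_apply]
      omega
    · rw [add_sub_cancel]
      exact Finset.mem_image.2 ⟨l, ih Q h.2, rfl⟩

lemma exists_step (Γ S : Finset (Site d)) (o Q : Site d) (ho : o ∈ S) (hQ : Q ∉ S)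
    (h : Conn (↑Γ : Set (Site d)) o Q) : ∃ P R, P ∈ S ∧ R ∉ S ∧ R ∈ Γ ∧ Near 1 P R := by
  induction h with
  | refl => exact absurd ho hQ
  | @tail b c _ hst ih =>
    by_cases hb : b ∈ S
    · exact ⟨b, c, hb, hQ, by exact_mod_cast hst.1, hst.2⟩
    · exact ih hb

lemma insert_chain (s t : List (Site d)) (P R : Site d)
    (h : List.IsChain (Near 1) (s ++ P :: t)) (hR : Near 1 P R) :
    List.IsChain (Near 1) (s ++ P :: R :: P :: t) := by
  rw [List.isChain_append] at h ⊢
  refine ⟨h.1, ?_, ?_⟩
  · rw [List.isChain_cons_cons, List.isChain_cons_cons]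
    exact ⟨hR, hR.symm, h.2.1⟩
  · intro x hx y hy
    exact h.2.2 x hx y (by simpa using hy)

lemma exists_walk (o : Site d) (Γ : Finset (Site d)) (ho : o ∈ Γ) (hΓ : IsConn Γ) (k : ℕ)
    (hk : k + 1 ≤ Γ.card) :
    ∃ l : List (Site d), List.IsChain (Near 1) (o :: l) ∧ (o :: l).toFinset ⊆ Γ ∧
      (o :: l).toFinset.card = k + 1 ∧ l.length = 2 * k := by
  induction k with
  | zero =>
    refine ⟨[], by simp, ?_, by simp, by simp⟩
    simpa using ho
  | succ k ih =>
    obtain ⟨l, h1, h2, h3, h4⟩ := ih (by omega)
    have hlt : (o :: l).toFinset.card < Γ.card := by omega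
    obtain ⟨Q, hQ, hQn⟩ := Finset.exists_mem_notMem_of_card_lt_card hlt
    obtain ⟨P, R, hP, hR, hRΓ, hadj⟩ :=
      exists_step Γ (o :: l).toFinset o Q (by simp) hQn (hΓ o ho Q hQ)
    rw [List.mem_toFinset] at hP
    obtain ⟨s, t, hst⟩ := List.append_of_mem hP
    have h5 := insert_chain s t P R (hst ▸ h1) hadj
    obtain ⟨l', hl'⟩ : ∃ l', s ++ P :: R :: P :: t = o :: l' := by
      cases s with
      | nil =>
        have : o = P := by simpa using (List.cons_eq_cons.1 hst).1
        exact ⟨R :: P :: t, by rw [this]; rfl⟩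
      | cons a s =>
        have : o = a := by simpa using (List.cons_eq_cons.1 hst).1
        exact ⟨s ++ P :: R :: P :: t, by rw [this]; rfl⟩
    have hset : (o :: l').toFinset = insert R (o :: l).toFinset := by
      rw [← hl', hst]
      ext x
      simp only [List.mem_toFinset, List.mem_append, List.mem_cons, Finset.mem_insert]
      tauto
    refine ⟨l', hl' ▸ h5, ?_, ?_, ?_⟩
    · rw [hset]
      exact Finset.insert_subset hRΓ h2
    · rw [hset, Finset.card_insert_of_notMem hR, h3]
    · have e1 : (s ++ P :: R :: P :: t).length = (o :: l').length := by rw [hl']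
      have e2 : (o :: l).length = (s ++ P :: t).length := by rw [hst]
      simp only [List.length_append, List.length_cons] at e1 e2
      omega

/-- a finite family which contains the connected sets with `n + 1` elements which contain `o` -/
def anims (o : Site d) (n : ℕ) : Finset (Finset (Site d)) :=
  (walks (2 * n) o).image fun l => (o :: l).toFinset

theorem card_anims (o : Site d) (n : ℕ) : (anims o n).card ≤ (9 ^ d) ^ n := by
  refine Finset.card_image_le.trans ((card_walks _ _).trans (le_of_eq ?_))
  rw [pow_mul (3 ^ d) 2 n, ← pow_mul 3 d 2, mul_comm d 2, pow_mul 3 2 d]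
  norm_num

theorem mem_anims (o : Site d) (Γ : Finset (Site d)) (ho : o ∈ Γ) (hΓ : IsConn Γ) :
    Γ ∈ anims o (Γ.card - 1) := by
  have h1 : 1 ≤ Γ.card := Finset.card_pos.2 ⟨o, ho⟩
  obtain ⟨l, h1', h2, h3, h4⟩ := exists_walk o Γ ho hΓ (Γ.card - 1) (by omega)
  rw [anims, Finset.mem_image]
  refine ⟨l, ?_, Finset.eq_of_subset_of_card_le h2 (by omega)⟩
  rw [← h4]
  exact mem_walks l o h1'

theorem anims_card_le {o : Site d} {n : ℕ} {Γ : Finset (Site d)} (h : Γ ∈ anims o n) :
    Γ.card ≤ 2 * n + 1 := by
  rw [anims, Finset.mem_image] at h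
  obtain ⟨l, hl, rfl⟩ := h
  refine (List.toFinset_card_le _).trans ?_
  have : ∀ (k : ℕ) (o : Site d) (l : List (Site d)), l ∈ walks k o → l.length = k := by
    intro k
    induction k with
    | zero => intro o l hl; simpa [walks] using hl
    | succ k ih =>
      intro o l hl
      rw [walks, Finset.mem_biUnion] at hl
      obtain ⟨s, -, hl⟩ := hl
      rw [Finset.mem_image] at hl
      obtain ⟨l', hl', rfl⟩ := hl
      rw [List.length_cons, ih _ _ hl']
  rw [List.length_cons, this _ _ _ hl]

end Pool.Agent.T2h96
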