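import Pool.Agent.T2h96.Sep

/-!
# helper96: a chain of linked clusters contains a connected set with many bad blocks
-/

set_option autoImplicit false

noncomputable section

namespace Pool.Agent.T2h96

open Classical

variable {d : ℕ}

theorem conn_between {Z : Set (Site d)} {u v : Site d} (h : Conn Z u v) (k : Fin d) (t : ℤ)
    (ht : (u k ≤ t ∧ t ≤ v k) ∨ (v k ≤ t ∧ t ≤ u k)) : ∃ w, Conn Z u w ∧ w k = t := by
  induction h with
  | refl => exact ⟨u, .refl, by omega⟩
  | @tail b c h1 h2 ih =>
    by_cases hb : (u k ≤ t ∧ t ≤ b k) ∨ (b k ≤ t ∧ t ≤ u k)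
    · exact ih hb
    · refine ⟨c, Relation.ReflTransGen.tail h1 h2, ?_⟩
      have := h2.2 k
      rw [abs_le] at this
      omega

theorem cluster_diam {Z : Set (Site d)} (C : Finset (Site d)) {u : Site d}
    (hC : ∀ v, Conn Z u v → v ∈ C) {v : Site d} (hv : Conn Z u v) (k : Fin d) :
    |v k - u k| < C.card := by
  have h1 : ∀ t ∈ Finset.Icc (min (u k) (v k)) (max (u k) (v k)), ∃ w ∈ C, w k = t := by
    intro t ht
    rw [Finset.mem_Icc] at ht
    obtain ⟨w, hw, hwt⟩ := conn_between hv k t (by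
      rcases le_total (u k) (v k) with h | h
      · rw [min_eq_left h, max_eq_right h] at ht; exact Or.inl ht
      · rw [min_eq_right h, max_eq_left h] at ht; exact Or.inr ht)
    exact ⟨w, hC w hw, hwt⟩
  have h2 : Finset.Icc (min (u k) (v k)) (max (u k) (v k)) ⊆ C.image fun w => w k := by
    intro t ht
    obtain ⟨w, hw, hwt⟩ := h1 t ht
    exact Finset.mem_image.2 ⟨w, hw, hwt⟩
  have h3 := (Finset.card_le_card h2).trans Finset.card_image_le
  rw [Int.card_Icc] at h3
  rcases le_total (u k) (v k) with h | h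
  · rw [min_eq_left h, max_eq_right h] at h3
    rw [abs_of_nonneg (by omega)]
    omega
  · rw [min_eq_right h, max_eq_left h] at h3
    rw [abs_of_nonpos (by omega)]
    omega

theorem box_near {Z : Set (Site d)} (C : Finset (Site d)) {u w : Site d}
    (hC : ∀ v, Conn Z u v → v ∈ C) (hw : Box Z u w) : Near ((C.card : ℤ) - 1) w u := by
  intro k
  obtain ⟨⟨c, hc, h1⟩, ⟨c', hc', h2⟩⟩ := hw k
  have h3 := cluster_diam C hC hc k
  have h4 := cluster_diam C hC hc' k
  rw [abs_lt] at h3 h4
  rw [abs_le]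
  omega

/-- a straight king path -/
theorem king_path (c w : Site d) (n : ℕ) (h : Near n w c) :
    ∃ T : Finset (Site d), T.card ≤ n ∧ (w = c ∨ w ∈ T) ∧
      ∀ z ∈ T, Conn (↑(insert c T) : Set (Site d)) c z := by
  set z : ℕ → Site d := fun t k => c k + max (-(t : ℤ)) (min (t : ℤ) (w k - c k)) with hz
  have h0 : z 0 = c := by
    funext k
    simp only [hz]
    push_cast
    omega
  have hn : z n = w := by
    funext k
    have := h k
    rw [abs_le] at this
    simp only [hz]
    omega
  have hstep : ∀ t, Near 1 (z t) (z (t + 1)) := by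
    intro t k
    simp only [hz]
    push_cast
    rw [abs_le]
    omega
  refine ⟨(Finset.range n).image fun t => z (t + 1), Finset.card_image_le.trans (by simp), ?_, ?_⟩
  · rcases Nat.eq_zero_or_pos n with h1 | h1
    · left
      rw [← hn, h1, h0]
    · right
      rw [Finset.mem_image]
      exact ⟨n - 1, by rw [Finset.mem_range]; omega, by rw [Nat.sub_add_cancel h1, hn]⟩
  · have hconn : ∀ t, t ≤ n → Conn
        (↑(insert c ((Finset.range n).image fun t => z (t + 1))) : Set (Site d)) c (z t) := by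
      intro t
      induction t with
      | zero => intro _; rw [h0]; exact .refl
      | succ t ih =>
        intro ht
        refine Relation.ReflTransGen.tail (ih (by omega)) ⟨?_, hstep t⟩
        rw [Finset.coe_insert]
        refine Set.mem_insert_of_mem _ ?_
        rw [Finset.mem_coe, Finset.mem_image]
        exact ⟨t, by rw [Finset.mem_range]; omega, rfl⟩
    intro y hy
    rw [Finset.mem_image] at hy
    obtain ⟨t, ht, rfl⟩ := hy
    exact hconn (t + 1) (by rw [Finset.mem_range] at ht; omega)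

/-- `Q` is connected -/
def IsConn (Q : Finset (Site d)) : Prop := ∀ u ∈ Q, ∀ v ∈ Q, Conn (↑Q : Set (Site d)) u v

theorem isConn_of {Q : Finset (Site d)} {u : Site d} (hu : u ∈ Q)
    (h : ∀ v ∈ Q, Conn (↑Q : Set (Site d)) u v) : IsConn Q := fun v hv w hw =>
  (Conn.symm (h v hv) hu).trans (h w hw)

/-- `C` is a cluster of `Z` -/
def IsCl (Z : Set (Site d)) (C : Finset (Site d)) : Prop :=
  ∃ u ∈ Z, ∀ v, v ∈ C ↔ Conn Z u v

theorem IsCl.conn {Z : Set (Site d)} {C : Finset (Site d)} (h : IsCl Z C) : IsConn C := by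
  obtain ⟨u, hu, hC⟩ := h
  refine isConn_of ((hC u).2 .refl) fun v hv => ?_
  have hv' := (hC v).1 hv
  clear hv
  induction hv' with
  | refl => exact .refl
  | @tail b c h1 h2 ih =>
    exact Relation.ReflTransGen.tail ih
      ⟨(hC c).2 (Relation.ReflTransGen.tail h1 h2), h2.2⟩

theorem IsCl.iff {Z : Set (Site d)} {C : Finset (Site d)} (h : IsCl Z C) {u : Site d}
    (hu : u ∈ C) : u ∈ Z ∧ ∀ v, v ∈ C ↔ Conn Z u v := by
  obtain ⟨u0, hu0, hC⟩ := h
  have h1 := (hC u).1 hu
  refine ⟨Conn.mem h1 hu0, fun v => (hC v).trans ⟨fun h => (Conn.symm h1 hu0).trans h,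
    fun h => h1.trans h⟩⟩

/-- the graph of clusters -/
def clGraph (Z : Set (Site d)) : SimpleGraph (Finset (Site d)) where
  Adj C D := C ≠ D ∧ IsCl Z C ∧ IsCl Z D ∧ ∃ u ∈ C, ∃ v ∈ D, Rel Z u v
  symm := ⟨fun C D ⟨h1, h2, h3, u, hu, v, hv, h4, h5, w, h6, h7⟩ =>
    ⟨h1.symm, h3, h2, v, hv, u, hu, h5, h4, w, h7, h6⟩⟩
  loopless := ⟨fun C h => h.1 rfl⟩

theorem conn_union {Q Q' : Finset (Site d)} {u v : Site d} (h : Conn (↑Q : Set (Site d)) u v)
    (hQ : Q ⊆ Q') : Conn (↑Q' : Set (Site d)) u v := Conn.mono (by exact_mod_cast hQ) h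

theorem path_set (Z : Set (Site d)) {C D : Finset (Site d)} (p : (clGraph Z).Walk C D)
    (hp : p.IsPath) (hC : IsCl Z C) :
    ∃ Q : Finset (Site d), IsConn Q ∧ (∀ E ∈ p.support, E ⊆ Q) ∧ (∀ E ∈ p.support, IsCl Z E) ∧
      Q.card + C.card ≤ 3 * ∑ E ∈ p.support.toFinset, E.card := by
  induction p with
  | @nil C =>
    refine ⟨C, hC.conn, by simp, by simpa using hC, ?_⟩
    simp
    omega
  | @cons C C' D h p ih =>
    rw [SimpleGraph.Walk.cons_isPath_iff] at hp
    obtain ⟨Q', hQ1, hQ2, hQ3, hQ4⟩ := ih hp.1 h.2.2.1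
    obtain ⟨-, -, hC', u, hu, v, hv, hu', hv', w, hw, hw'⟩ := h
    have hCu := (hC.iff hu).2
    have hCv := (hC'.iff hv).2
    have h1 : 1 ≤ C.card := Finset.card_pos.2 ⟨u, hu⟩
    have h2 : 1 ≤ C'.card := Finset.card_pos.2 ⟨v, hv⟩
    have hn1 : Near ((C.card - 1 : ℕ) : ℤ) w u := by
      rw [Nat.cast_sub h1]
      exact box_near C (fun x hx => (hCu x).2 hx) hw
    have hn2 : Near ((C'.card - 1 : ℕ) : ℤ) w v := by
      rw [Nat.cast_sub h2]
      exact box_near C' (fun x hx => (hCv x).2 hx) hw'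
    obtain ⟨T, hT1, hT2, hT3⟩ := king_path u w _ hn1
    obtain ⟨T', hT1', hT2', hT3'⟩ := king_path v w _ hn2
    have hvQ' : v ∈ Q' := hQ2 C' (SimpleGraph.Walk.start_mem_support p) hv
    set Q := C ∪ T ∪ T' ∪ Q' with hQ
    have hCQ : C ⊆ Q := fun x hx => by simp [hQ, hx]
    have hTQ : T ⊆ Q := fun x hx => by simp [hQ, hx]
    have hTQ' : T' ⊆ Q := fun x hx => by simp [hQ, hx]
    have hQQ : Q' ⊆ Q := fun x hx => by simp [hQ, hx]
    have huQ : u ∈ Q := hCQ hu
    have hi1 : insert u T ⊆ Q := Finset.insert_subset huQ hTQ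
    have hi2 : insert v T' ⊆ Q := Finset.insert_subset (hQQ hvQ') hTQ'
    have huw : Conn (↑Q : Set (Site d)) u w := by
      rcases hT2 with h | h
      · rw [h]; exact .refl
      · exact conn_union (hT3 w h) hi1
    have hvw : Conn (↑Q : Set (Site d)) v w := by
      rcases hT2' with h | h
      · rw [h]; exact .refl
      · exact conn_union (hT3' w h) hi2
    have huv : Conn (↑Q : Set (Site d)) u v :=
      huw.trans (hvw.symm (by exact_mod_cast hQQ hvQ'))
    refine ⟨Q, isConn_of huQ ?_, ?_, ?_, ?_⟩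
    · intro x hx
      simp only [hQ, Finset.mem_union] at hx
      rcases hx with ((hx | hx) | hx) | hx
      · exact conn_union (hC.conn u hu x hx) hCQ
      · exact conn_union (hT3 x hx) hi1
      · exact huv.trans (conn_union (hT3' x hx) hi2)
      · exact huv.trans (conn_union (hQ1 v hvQ' x hx) hQQ)
    · intro E hE
      rw [SimpleGraph.Walk.support_cons, List.mem_cons] at hE
      rcases hE with rfl | hE
      · exact hCQ
      · exact (hQ2 E hE).trans hQQ
    · intro E hE
      rw [SimpleGraph.Walk.support_cons, List.mem_cons] at hE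
      rcases hE with rfl | hE
      · exact hC
      · exact hQ3 E hE
    · rw [SimpleGraph.Walk.support_cons, List.toFinset_cons, Finset.sum_insert (by
        rw [List.mem_toFinset]; exact hp.2)]
      have h3 : Q.card ≤ C.card + T.card + T'.card + Q'.card := by
        refine (Finset.card_union_le _ _).trans (Nat.add_le_add_right ?_ _)
        refine (Finset.card_union_le _ _).trans (Nat.add_le_add_right ?_ _)
        exact Finset.card_union_le _ _
      omega

/-- number of sites in a ball -/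
theorem card_ball (r : ℕ) (b : Site d) (C : Finset (Site d)) (h : ∀ v ∈ C, Near r v b) :
    C.card ≤ (2 * r + 1) ^ d := by
  have hsub : C ⊆ Fintype.piFinset fun k => Finset.Icc (b k - r) (b k + r) := by
    intro v hv
    rw [Fintype.mem_piFinset]
    intro k
    have := h v hv k
    rw [abs_le] at this
    rw [Finset.mem_Icc]
    omega
  refine (Finset.card_le_card hsub).trans (le_of_eq ?_)
  rw [Fintype.card_piFinset]
  simp only [Int.card_Icc]
  have : ∀ k : Fin d, (b k + (r : ℤ) + 1 - (b k - r)).toNat = 2 * r + 1 := fun k => by omega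
  simp [this]

/-- the size of a cluster of the neighbourhood of the bad blocks -/
theorem cluster_card (r : ℕ) (Bad : Finset (Site d)) (C : Finset (Site d))
    (hC : IsCl (Nbh r (↑Bad : Set (Site d))) C) :
    C.card ≤ (2 * r + 1) ^ d * (Bad ∩ C).card := by
  have hnear : ∀ v ∈ C, ∃ b ∈ Bad ∩ C, Near r v b := by
    intro v hv
    obtain ⟨hvZ, hCv⟩ := hC.iff hv
    obtain ⟨b, hb, hvb⟩ := hvZ
    refine ⟨b, ?_, hvb⟩
    rw [Finset.mem_inter]
    refine ⟨by exact_mod_cast hb, (hCv b).2 ?_⟩
    -- go straight to `b` inside the ball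
    have key : ∀ (n : ℕ) (w : Site d), (n : ℤ) ≤ r → Near n w b →
        Conn (Nbh r (↑Bad : Set (Site d))) w b := by
      intro n
      induction n with
      | zero =>
        intro w _ hw
        have : w = b := by
          funext k
          have := hw k
          rw [Nat.cast_zero, abs_nonpos_iff, sub_eq_zero] at this
          exact this
        rw [this]
        exact .refl
      | succ n ih =>
        intro w hn hw
        set w' : Site d := fun k => w k - max (-1) (min 1 (w k - b k)) with hw'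
        have h1 : Near 1 w w' := by
          intro k
          simp only [hw']
          rw [abs_le]
          omega
        have h2 : Near n w' b := by
          intro k
          have := hw k
          rw [abs_le] at this
          push_cast at this
          simp only [hw']
          rw [abs_le]
          omega
        refine Relation.ReflTransGen.head ⟨⟨b, hb, h2.mono (by push_cast at hn; omega)⟩, h1⟩ ?_
        exact ih w' (by push_cast at hn; omega) h2
    exact key r v le_rfl hvb
  have hsub : C ⊆ (Bad ∩ C).biUnion fun b => C.filter fun v => Near r v b := by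
    intro v hv
    obtain ⟨b, hb, hvb⟩ := hnear v hv
    rw [Finset.mem_biUnion]
    exact ⟨b, hb, Finset.mem_filter.2 ⟨hv, hvb⟩⟩
  refine (Finset.card_le_card hsub).trans ?_
  rw [mul_comm]
  refine Finset.card_biUnion_le_card_mul _ _ _ fun b _ => ?_
  exact card_ball r b _ fun v hv => (Finset.mem_filter.1 hv).2

/-- A chain of linked clusters contains a connected set with a positive density of bad blocks. -/
theorem linked_set (r : ℕ) (Bad : Finset (Site d)) {u v : Site d}
    (hu : u ∈ Nbh r (↑Bad : Set (Site d)))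
    (h : Lk (Nbh r (↑Bad : Set (Site d))) u v) :
    ∃ Q : Finset (Site d), IsConn Q ∧ u ∈ Q ∧ v ∈ Q ∧
      Q.card ≤ 3 * (2 * r + 1) ^ d * (Bad ∩ Q).card := by
  set Z := Nbh r (↑Bad : Set (Site d)) with hZ
  -- the neighbourhood is finite
  have hfin : Z.Finite := by
    refine ((Bad.biUnion fun b => Fintype.piFinset fun k =>
      Finset.Icc (b k - (r : ℤ)) (b k + r)).finite_toSet).subset ?_
    rintro w ⟨b, hb, hwb⟩
    rw [Finset.mem_coe, Finset.mem_biUnion]
    refine ⟨b, by exact_mod_cast hb, ?_⟩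
    rw [Fintype.mem_piFinset]
    intro k
    have := hwb k
    rw [abs_le] at this
    rw [Finset.mem_Icc]
    omega
  set cl : Site d → Finset (Site d) := fun w => hfin.toFinset.filter fun z => Conn Z w z with hcl
  have hclmem : ∀ w ∈ Z, ∀ z, z ∈ cl w ↔ Conn Z w z := by
    intro w hw z
    simp only [hcl, Finset.mem_filter, Set.Finite.mem_toFinset]
    exact ⟨fun h => h.2, fun h => ⟨Conn.mem h hw, h⟩⟩
  have hcl1 : ∀ w ∈ Z, IsCl Z (cl w) := fun w hw => ⟨w, hw, hclmem w hw⟩
  have hreach : (clGraph Z).Reachable (cl u) (cl v) ∧ v ∈ Z := by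
    induction h with
    | refl => exact ⟨SimpleGraph.Reachable.refl _, hu⟩
    | @tail b c h1 h2 ih =>
      refine ⟨ih.1.trans ?_, h2.2.1⟩
      by_cases heq : cl b = cl c
      · rw [heq]
      · exact SimpleGraph.Adj.reachable ⟨heq, hcl1 b h2.1, hcl1 c h2.2.1, b,
          (hclmem b h2.1 b).2 .refl, c, (hclmem c h2.2.1 c).2 .refl, h2⟩
  obtain ⟨⟨p⟩, hvZ⟩ := hreach
  obtain ⟨Q, hQ1, hQ2, hQ3, hQ4⟩ := path_set Z (p.toPath : (clGraph Z).Walk (cl u) (cl v))
    p.toPath.2 (hcl1 u hu)
  set P : Finset (Finset (Site d)) :=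
    (p.toPath : (clGraph Z).Walk (cl u) (cl v)).support.toFinset with hP
  refine ⟨Q, hQ1, hQ2 (cl u) (SimpleGraph.Walk.start_mem_support _) ((hclmem u hu u).2 .refl),
    hQ2 (cl v) (SimpleGraph.Walk.end_mem_support _) ((hclmem v hvZ v).2 .refl), ?_⟩
  have hdisj : Set.PairwiseDisjoint (↑P : Set (Finset (Site d))) fun E => Bad ∩ E := by
    intro E hE E' hE' hne
    rw [Function.onFun, Finset.disjoint_left]
    intro x hx hx'
    rw [Finset.mem_inter] at hx hx'
    rw [hP, List.coe_toFinset] at hE hE'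
    apply hne
    ext y
    rw [((hQ3 E hE).iff hx.2).2, ((hQ3 E' hE').iff hx'.2).2]
  have hsum : ∑ E ∈ P, (Bad ∩ E).card ≤ (Bad ∩ Q).card := by
    rw [← Finset.card_biUnion fun E hE E' hE' hne => hdisj (by exact_mod_cast hE)
      (by exact_mod_cast hE') hne]
    refine Finset.card_le_card fun x hx => ?_
    rw [Finset.mem_biUnion] at hx
    obtain ⟨E, hE, hx⟩ := hx
    rw [Finset.mem_inter] at hx ⊢
    exact ⟨hx.1, hQ2 E (by rwa [hP, List.mem_toFinset] at hE) hx.2⟩
  calc Q.card ≤ 3 * ∑ E ∈ P, E.card := by omega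
    _ ≤ 3 * ∑ E ∈ P, (2 * r + 1) ^ d * (Bad ∩ E).card := by
        refine Nat.mul_le_mul_left _ (Finset.sum_le_sum fun E hE => ?_)
        exact cluster_card r Bad E (hQ3 E (by rwa [hP, List.mem_toFinset] at hE))
    _ = 3 * (2 * r + 1) ^ d * ∑ E ∈ P, (Bad ∩ E).card := by
        rw [← Finset.mul_sum, mul_assoc]
    _ ≤ _ := Nat.mul_le_mul_left _ hsum

end Pool.Agent.T2h96
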