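import Pool.Agent.T2h96.Meas

/-!
# helper96: elementary collapses

A face which has a link that belongs neither to the marked links nor to another remaining face can
be integrated out.  The faces which remain when no such collapse is possible form a core.
-/

set_option autoImplicit false

noncomputable section

namespace Pool.Agent.T2h96

open MeasureTheory Measure

/-- A system of faces: the links of each face, its weight and the constant `κ`. -/
structure FaceSys (L Ω : Type) [MeasurableSpace Ω] (ν : Measure Ω) (Q : Type) where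
  /-- the links of a face -/
  bd : Q → Set L
  /-- the weight of a face -/
  g : Q → (L → Ω) → ℝ
  /-- the marginal of the weight -/
  κ : Q → ℝ
  bm : ∀ q, BM (g q)
  dep : ∀ q, DepOn (bd q) (g q)
  marg : ∀ (q : Q) [DecidableEq L] (e : L), e ∈ bd q → ∀ U : L → Ω,
    ∫ v, g q (Function.update U e v) ∂ν = κ q

variable {L Ω Q : Type} [MeasurableSpace Ω] {ν : Measure Ω} [IsProbabilityMeasure ν]

/-- no face of `R` can be collapsed relative to the marked links `S` -/
def IsCore (bd : Q → Set L) (S : Set L) (R : Finset Q) : Prop :=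
  ∀ q ∈ R, ∀ e ∈ bd q, e ∈ S ∨ ∃ q' ∈ R, q' ≠ q ∧ e ∈ bd q'

theorem collapse_one [DecidableEq Q] (A : FaceSys L Ω ν Q) (S : Set L) (R : Finset Q) (q : Q)
    (hq : q ∈ R) (e : L) (he : e ∈ A.bd q) (heS : e ∉ S)
    (hR : ∀ q' ∈ R, q' ≠ q → e ∉ A.bd q') {F : (L → Ω) → ℝ} (hF : BM F) (hFS : DepOn S F) :
    ∫ U, F U * ∏ q' ∈ R, A.g q' U ∂(infinitePi fun _ : L => ν) =
      A.κ q * ∫ U, F U * ∏ q' ∈ R.erase q, A.g q' U ∂(infinitePi fun _ : L => ν) := by
  classical
  have hbm : BM fun U => F U * ∏ q' ∈ R, A.g q' U := hF.mul (BM.prod R fun q' _ => A.bm q')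
  rw [integral_update ν e hbm, ← integral_const_mul]
  refine integral_congr_ae (.of_forall fun U => ?_)
  show ∫ v, F (Function.update U e v) * ∏ q' ∈ R, A.g q' (Function.update U e v) ∂ν =
    A.κ q * (F U * ∏ q' ∈ R.erase q, A.g q' U)
  have h1 : ∀ v, F (Function.update U e v) * ∏ q' ∈ R, A.g q' (Function.update U e v) =
      (F U * ∏ q' ∈ R.erase q, A.g q' U) * A.g q (Function.update U e v) := by
    intro v
    rw [hFS.update heS, ← Finset.mul_prod_erase R _ hq]
    have h2 : ∏ q' ∈ R.erase q, A.g q' (Function.update U e v) =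
        ∏ q' ∈ R.erase q, A.g q' U :=
      Finset.prod_congr rfl fun q' hq' => (A.dep q').update
        (hR q' (Finset.mem_of_mem_erase hq') (Finset.ne_of_mem_erase hq')) U v
    rw [h2]
    ring
  simp only [h1]
  rw [integral_const_mul, A.marg q e he]
  ring

/-- every finite set of faces collapses to a core -/
theorem exists_core [DecidableEq Q] (A : FaceSys L Ω ν Q) (S : Set L) (R0 : Finset Q) :
    ∃ R ⊆ R0, IsCore A.bd S R ∧ ∃ k : ℝ, ∀ F : (L → Ω) → ℝ, BM F → DepOn S F →
      ∫ U, F U * ∏ q ∈ R0, A.g q U ∂(infinitePi fun _ : L => ν) =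
        k * ∫ U, F U * ∏ q ∈ R, A.g q U ∂(infinitePi fun _ : L => ν) := by
  induction R0 using Finset.strongInduction with
  | H R0 ih =>
    by_cases hc : IsCore A.bd S R0
    · exact ⟨R0, subset_rfl, hc, 1, fun F _ _ => (one_mul _).symm⟩
    · unfold IsCore at hc
      push Not at hc
      obtain ⟨q, hq, e, he, heS, hR⟩ := hc
      obtain ⟨R, hRs, hcore, k, hk⟩ := ih (R0.erase q) (Finset.erase_ssubset hq)
      refine ⟨R, hRs.trans (Finset.erase_subset _ _), hcore, A.κ q * k, fun F hF hFS => ?_⟩
      rw [collapse_one A S R0 q hq e he heS (fun q' h1 h2 => hR q' h1 h2) hF hFS, hk F hF hFS,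
        mul_assoc]

end Pool.Agent.T2h96
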