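import Pool.Agent.T2h96.Vanish

/-!
# helper96: the covariance bound
-/

set_option autoImplicit false
set_option linter.unusedSectionVars false

noncomputable section

namespace Pool.Agent.T2h96

open MeasureTheory Measure Function Classical

variable {d : ℕ} {G : Type} [Group G] [TopologicalSpace G] [IsTopologicalGroup G]
  [CompactSpace G] [T2Space G] [SecondCountableTopology G] [MeasurableSpace G] [BorelSpace G]
  (μ : Measure G) [μ.IsHaarMeasure] [IsProbabilityMeasure μ]

/-- the expectation in the lattice gauge field with plaquettes `P` and weights `W` -/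
def expect (W : Plaq d → G → ℝ) (P : Finset (Plaq d)) (A : (Link d → G) → ℝ) : ℝ :=
  (∫ U, A U * ∏ p ∈ P, W p (hol U p) ∂(infinitePi fun _ : Link d => μ)) /
    ∫ U, ∏ p ∈ P, W p (hol U p) ∂(infinitePi fun _ : Link d => μ)

theorem expand {W : Plaq d → G → ℝ} (hW : WOK W) (a a' : Plaq d → ℝ)
    (PM PX : Finset (Plaq d)) (hdisj : Disjoint PM PX) {F : (Link d → G × G) → ℝ} (hF : BM F) :
    ∫ U, F U * ((∏ p ∈ PM, gg W a p U) * ∏ p ∈ PX, (gg W a p U + a' p))
      ∂(infinitePi fun _ : Link d => μ.prod μ) =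
    ∑ Y ∈ PX.powerset, (∏ p ∈ PX \ Y, a' p) *
      ∫ U, F U * ∏ p ∈ PM ∪ Y, gg W a p U ∂(infinitePi fun _ : Link d => μ.prod μ) := by
  have hbm : ∀ s : Finset (Plaq d), BM fun U => ∏ p ∈ s, gg W a p U := fun s =>
    BM.prod s fun p _ => gg_bm hW a p
  have h1 : ∀ U, F U * ((∏ p ∈ PM, gg W a p U) * ∏ p ∈ PX, (gg W a p U + a' p)) =
      ∑ Y ∈ PX.powerset, (∏ p ∈ PX \ Y, a' p) * (F U * ∏ p ∈ PM ∪ Y, gg W a p U) := by
    intro U
    rw [Finset.prod_add, Finset.mul_sum, Finset.mul_sum]
    refine Finset.sum_congr rfl fun Y hY => ?_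
    rw [Finset.prod_union (hdisj.mono_right (Finset.mem_powerset.1 hY))]
    ring
  simp only [h1]
  rw [integral_finsetSum]
  · exact Finset.sum_congr rfl fun Y _ => integral_const_mul _ _
  · exact fun Y _ => ((hF.mul (hbm _)).integrable (μ.prod μ)).const_mul _

theorem star {W : Plaq d → G → ℝ} (hW : WOK W) (a ρ : Plaq d → ℝ)
    (ha0 : ∀ p, 0 ≤ a p) (ha : ∀ p g g', a p ≤ W p g * W p g')
    (hρ : ∀ p g g', W p g * W p g' - a p ≤ ρ p * (W p g * W p g')) 
    (PM PX C : Finset (Plaq d)) (hdisj : Disjoint PM PX) (haM : ∀ p ∈ PM, a p = 0)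
    (hC : C ⊆ PX) :
    ∑ Y ∈ PX.powerset.filter (fun Y => C ⊆ Y), (∏ p ∈ PX \ Y, a p) *
      ∫ U, ∏ p ∈ PM ∪ Y, gg W a p U ∂(infinitePi fun _ : Link d => μ.prod μ) ≤
    (∏ p ∈ C, ρ p) * ∫ U, ∏ p ∈ PM ∪ PX, w2 W p U
      ∂(infinitePi fun _ : Link d => μ.prod μ) := by
  set a' : Plaq d → ℝ := fun p => if p ∈ C then 0 else a p with ha'
  have h1 : ∑ Y ∈ PX.powerset.filter (fun Y => C ⊆ Y), (∏ p ∈ PX \ Y, a p) *
      ∫ U, ∏ p ∈ PM ∪ Y, gg W a p U ∂(infinitePi fun _ : Link d => μ.prod μ) =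
      ∑ Y ∈ PX.powerset, (∏ p ∈ PX \ Y, a' p) *
      ∫ U, 1 * ∏ p ∈ PM ∪ Y, gg W a p U ∂(infinitePi fun _ : Link d => μ.prod μ) := by
    rw [Finset.sum_filter]
    refine Finset.sum_congr rfl fun Y hY => ?_
    simp only [one_mul]
    split_ifs with h
    · congr 1
      refine Finset.prod_congr rfl fun p hp => ?_
      rw [Finset.mem_sdiff] at hp
      simp only [ha', if_neg fun hpC => hp.2 (h hpC)]
    · rw [Finset.not_subset] at h
      obtain ⟨p, hpC, hpY⟩ := h
      rw [Finset.prod_eq_zero (Finset.mem_sdiff.2 ⟨hC hpC, hpY⟩)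
        (show a' p = 0 by simp only [ha', if_pos hpC]), zero_mul]
  rw [h1, ← expand μ hW a a' PM PX hdisj (BM.const 1), ← integral_const_mul]
  have hbm2 : ∀ s : Finset (Plaq d), BM fun U => ∏ p ∈ s, w2 W p U := fun s =>
    BM.prod s fun p _ => w2_bm hW p
  refine integral_mono ?_ (((hbm2 _).integrable (μ.prod μ)).const_mul _) fun U => ?_
  · refine BM.integrable (μ.prod μ) ((BM.const 1).mul ((BM.prod PM fun p _ => gg_bm hW a p).mul
      (BM.prod PX fun p _ => ?_)))
    have h := (gg_bm hW a p).sub (BM.const (-a' p))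
    simpa only [sub_neg_eq_add] using h
  · simp only [one_mul]
    have hw0 : ∀ p, 0 ≤ w2 W p U := fun p => mul_nonneg (hW.nn p _) (hW.nn p _)
    have hg0 : ∀ p, 0 ≤ gg W a p U := fun p => sub_nonneg.2 (ha p _ _)
    have ha'0 : ∀ p, 0 ≤ a' p := fun p => by
      simp only [ha']
      split_ifs
      exacts [le_rfl, ha0 p]
    have h2 : ∏ p ∈ PM, gg W a p U = ∏ p ∈ PM, w2 W p U :=
      Finset.prod_congr rfl fun p hp => by rw [gg, haM p hp, sub_zero]
    have h3 : ∏ p ∈ PX, (gg W a p U + a' p) ≤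
        ∏ p ∈ PX, ((if p ∈ C then ρ p else 1) * w2 W p U) := by
      refine Finset.prod_le_prod (fun p _ => add_nonneg (hg0 p) (ha'0 p)) fun p _ => ?_
      simp only [ha']
      split_ifs with h
      · rw [add_zero]
        exact hρ p _ _
      · rw [one_mul, gg, sub_add_cancel]
    have h4 : ∏ p ∈ PX, ((if p ∈ C then ρ p else 1) * w2 W p U) =
        (∏ p ∈ C, ρ p) * ∏ p ∈ PX, w2 W p U := by
      rw [Finset.prod_mul_distrib]
      congr 1
      rw [← Finset.prod_filter]
      congr 1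
      ext p
      rw [Finset.mem_filter]
      exact ⟨fun h => h.2, fun h => ⟨hC h, h⟩⟩
    rw [h2, Finset.prod_union hdisj]
    calc _ ≤ (∏ p ∈ PM, w2 W p U) * ((∏ p ∈ C, ρ p) * ∏ p ∈ PX, w2 W p U) :=
          mul_le_mul_of_nonneg_left (h3.trans h4.le) (Finset.prod_nonneg fun p _ => hw0 p)
      _ = _ := by ring

theorem cov_bound (D : Dir d) {l : ℕ} (hl : 0 < l) {W : Plaq d → G → ℝ} (hW : WOK W)
    (a ρ : Plaq d → ℝ) (ha0 : ∀ p, 0 ≤ a p) (ha : ∀ p g g', a p ≤ W p g * W p g')
    (hρ : ∀ p g g', W p g * W p g' - a p ≤ ρ p * (W p g * W p g'))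
    (hρ0 : ∀ p, 0 ≤ ρ p) (haM : ∀ p, D.MP p.i p.j → a p = 0)
    (θ : ℝ) (hθ : 0 < θ) (hθ1 : θ * (4 * 9 ^ d) ≤ 1) (P : Finset (Plaq d))
    (hcause : ∀ b, ∑ C ∈ causes D l (P.filter fun p => ¬ D.MP p.i p.j) b, ∏ p ∈ C, ρ p ≤
      θ ^ K0 d)
    (r : ℕ) (u v : Site d) (k : Fin d) {A B : (Link d → G) → ℝ} (hA : Measurable A)
    (hB : Measurable B) (NA NB : ℝ) (hNA : ∀ U, |A U| ≤ NA) (hNB : ∀ U, |B U| ≤ NB)
    (hAd : DepOn {y | Near r (bl l y.1) u} A) (hBd : DepOn {y | Near r (bl l y.1) v} B) :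
    |expect μ W P (fun U => A U * B U) - expect μ W P A * expect μ W P B| ≤
      2 * NA * NB * ((1 / 2) ^ (|v k - u k|).toNat * (θ ^ (K0 d * (2 * (2 * r + 1) ^ d)))⁻¹) := by
  have hNA0 : 0 ≤ NA := (abs_nonneg _).trans (hNA fun _ => 1)
  have hNB0 : 0 ≤ NB := (abs_nonneg _).trans (hNB fun _ => 1)
  set PM := P.filter fun p => D.MP p.i p.j with hPM
  set PX := P.filter fun p => ¬ D.MP p.i p.j with hPX
  have hdisj : Disjoint PM PX := Finset.disjoint_filter_filter_not _ _ _
  have hun : PM ∪ PX = P := Finset.filter_union_filter_not_eq _ _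
  have haM' : ∀ p ∈ PM, a p = 0 := fun p hp => haM p (Finset.mem_filter.1 hp).2
  have hbm : ∀ s : Finset (Plaq d), BM fun U => ∏ p ∈ s, gg W a p U := fun s =>
    BM.prod s fun p _ => gg_bm hW a p
  have hbm2 : ∀ s : Finset (Plaq d), BM fun U => ∏ p ∈ s, w2 W p U := fun s =>
    BM.prod s fun p _ => w2_bm hW p
  set ω : (Link d → G) → ℝ := fun U => ∏ p ∈ P, W p (hol U p) with hω
  have hωm : Measurable ω := by
    refine Finset.measurable_prod _ fun p _ => (hW.meas p).comp (meas_hol p)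
  have hωbm : BM ω := by
    refine BM.prod P fun p _ => ?_
    obtain ⟨C, hC⟩ := hW.bdd p
    exact ⟨(hW.meas p).comp (meas_hol p), C, fun U => by
      rw [abs_of_nonneg (hW.nn p _)]; exact hC _⟩
  have hABM : BM A := ⟨hA, NA, hNA⟩
  have hBBM : BM B := ⟨hB, NB, hNB⟩
  set Z := ∫ U, ω U ∂(infinitePi fun _ : Link d => μ) with hZ
  set M := ∫ U, ∏ p ∈ PM ∪ PX, w2 W p U ∂(infinitePi fun _ : Link d => μ.prod μ) with hM
  set NAB := ∫ U, A U * B U * ω U ∂(infinitePi fun _ : Link d => μ) with hNAB'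
  set NA' := ∫ U, A U * ω U ∂(infinitePi fun _ : Link d => μ) with hNA'
  set NB' := ∫ U, B U * ω U ∂(infinitePi fun _ : Link d => μ) with hNB'
  have hw2 : ∀ U : Link d → G × G, ∏ p ∈ PM ∪ PX, w2 W p U =
      ω (fun l => (U l).1) * ω (fun l => (U l).2) := by
    intro U
    rw [hun]
    simp only [w2, hω]
    rw [Finset.prod_mul_distrib]
  have hMZ : M = Z * Z := by
    rw [hM]
    simp only [hw2]
    exact integral_pair μ hωm hωm
  have hM0 : 0 ≤ M := by rw [hMZ]; exact mul_self_nonneg _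
  -- the observables of the two replicas
  set DA : (Link d → G × G) → ℝ := fun U => A (fun l => (U l).1) - A (fun l => (U l).2) with hDA
  set DB : (Link d → G × G) → ℝ := fun U => B (fun l => (U l).1) - B (fun l => (U l).2) with hDB
  have hcomp : ∀ {F : (Link d → G) → ℝ}, BM F → BM fun U : Link d → G × G =>
      F (fun l => (U l).1) - F (fun l => (U l).2) := by
    rintro F ⟨hm, C, hC⟩
    exact BM.sub ⟨hm.comp fst_meas, C, fun U => hC _⟩ ⟨hm.comp snd_meas, C, fun U => hC _⟩
  have hDAbm : BM DA := hcomp hABM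
  have hDBbm : BM DB := hcomp hBBM
  have hDAs : ∀ U, DA (fun l => (U l).swap) = - DA U := fun U => by
    simp only [hDA, Prod.fst_swap, Prod.snd_swap]
    ring
  have hdep : ∀ {F : (Link d → G) → ℝ} {s : Set (Link d)}, DepOn s F →
      DepOn s fun U : Link d → G × G => F (fun l => (U l).1) - F (fun l => (U l).2) := by
    intro F s hF U V h
    show _ - _ = _ - _
    rw [hF (fun l => (U l).1) (fun l => (V l).1) fun l hl => by rw [h l hl],
      hF (fun l => (U l).2) (fun l => (V l).2) fun l hl => by rw [h l hl]]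
  -- the two-replica representation of the covariance
  have hrep : ∫ U, DA U * DB U * ∏ p ∈ PM ∪ PX, w2 W p U
      ∂(infinitePi fun _ : Link d => μ.prod μ) = 2 * (NAB * Z - NA' * NB') := by
    have h1 : ∀ U : Link d → G × G, DA U * DB U * ∏ p ∈ PM ∪ PX, w2 W p U =
        ((A (fun l => (U l).1) * B (fun l => (U l).1) * ω (fun l => (U l).1)) *
          ω (fun l => (U l).2) - (A (fun l => (U l).1) * ω (fun l => (U l).1)) *
          (B (fun l => (U l).2) * ω (fun l => (U l).2))) -
        ((B (fun l => (U l).1) * ω (fun l => (U l).1)) *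
          (A (fun l => (U l).2) * ω (fun l => (U l).2)) - ω (fun l => (U l).1) *
          (A (fun l => (U l).2) * B (fun l => (U l).2) * ω (fun l => (U l).2))) := by
      intro U
      rw [hw2]
      simp only [hDA, hDB]
      ring
    simp only [h1]
    have hfs : ∀ {Φ Ψ : (Link d → G) → ℝ}, BM Φ → BM Ψ → Integrable
        (fun U : Link d → G × G => Φ (fun l => (U l).1) * Ψ (fun l => (U l).2))
        (infinitePi fun _ : Link d => μ.prod μ) := by
      rintro Φ Ψ ⟨h1, C, hC⟩ ⟨h2, C', hC'⟩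
      exact BM.integrable (μ.prod μ) (BM.mul ⟨h1.comp fst_meas, C, fun U => hC _⟩
        ⟨h2.comp snd_meas, C', fun U => hC' _⟩)
    have hABω : BM fun U => A U * B U * ω U := (hABM.mul hBBM).mul hωbm
    have hAω : BM fun U => A U * ω U := hABM.mul hωbm
    have hBω : BM fun U => B U * ω U := hBBM.mul hωbm
    have i1 : Integrable (fun U : Link d → G × G => A (fun l => (U l).1) * B (fun l => (U l).1) *
        ω (fun l => (U l).1) * ω (fun l => (U l).2)) (infinitePi fun _ : Link d => μ.prod μ) :=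
      hfs hABω hωbm
    have i2 : Integrable (fun U : Link d → G × G => A (fun l => (U l).1) * ω (fun l => (U l).1) *
        (B (fun l => (U l).2) * ω (fun l => (U l).2)))
        (infinitePi fun _ : Link d => μ.prod μ) := hfs hAω hBω
    have i3 : Integrable (fun U : Link d → G × G => B (fun l => (U l).1) * ω (fun l => (U l).1) *
        (A (fun l => (U l).2) * ω (fun l => (U l).2)))
        (infinitePi fun _ : Link d => μ.prod μ) := hfs hBω hAω
    have i4 : Integrable (fun U : Link d → G × G => ω (fun l => (U l).1) *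
        (A (fun l => (U l).2) * B (fun l => (U l).2) * ω (fun l => (U l).2)))
        (infinitePi fun _ : Link d => μ.prod μ) := hfs hωbm hABω
    have e1 : ∫ U : Link d → G × G, A (fun l => (U l).1) * B (fun l => (U l).1) *
        ω (fun l => (U l).1) * ω (fun l => (U l).2) ∂(infinitePi fun _ : Link d => μ.prod μ) =
        NAB * Z := integral_pair μ hABω.meas hωm
    have e2 : ∫ U : Link d → G × G, A (fun l => (U l).1) * ω (fun l => (U l).1) *
        (B (fun l => (U l).2) * ω (fun l => (U l).2))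
        ∂(infinitePi fun _ : Link d => μ.prod μ) = NA' * NB' :=
      integral_pair μ hAω.meas hBω.meas
    have e3 : ∫ U : Link d → G × G, B (fun l => (U l).1) * ω (fun l => (U l).1) *
        (A (fun l => (U l).2) * ω (fun l => (U l).2))
        ∂(infinitePi fun _ : Link d => μ.prod μ) = NB' * NA' :=
      integral_pair μ hBω.meas hAω.meas
    have e4 : ∫ U : Link d → G × G, ω (fun l => (U l).1) *
        (A (fun l => (U l).2) * B (fun l => (U l).2) * ω (fun l => (U l).2))
        ∂(infinitePi fun _ : Link d => μ.prod μ) = Z * NAB :=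
      integral_pair μ hωm hABω.meas
    have i12 := i1.sub i2
    have i34 := i3.sub i4
    have e5 := integral_sub i12 i34
    have e6 := integral_sub i1 i2
    have e7 := integral_sub i3 i4
    simp only [Pi.sub_apply] at e5
    rw [e5, e6, e7, e1, e2, e3, e4]
    ring
  set m : Finset (Plaq d) → ℝ := fun Y => (∏ p ∈ PX \ Y, a p) *
      ∫ U, ∏ p ∈ PM ∪ Y, gg W a p U ∂(infinitePi fun _ : Link d => μ.prod μ) with hm
  have hg0 : ∀ p U, 0 ≤ gg W a p U := fun p U => sub_nonneg.2 (ha p _ _)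
  have hm0 : ∀ Y ∈ PX.powerset, 0 ≤ m Y := fun Y _ => mul_nonneg
    (Finset.prod_nonneg fun p _ => ha0 p)
    (integral_nonneg fun U => Finset.prod_nonneg fun p _ => hg0 p U)
  have hstar : ∀ C ⊆ PX, ∑ Y ∈ PX.powerset.filter (fun Y => C ⊆ Y), m Y ≤
      (∏ p ∈ C, ρ p) * M := fun C hC =>
    star μ hW a ρ ha0 ha hρ PM PX C hdisj haM' hC
  have hlink := link_bound D hl PX ρ θ hρ0 hθ hθ1 hcause m hm0 M hM0 hstar r u v k
  have hexp : ∫ U, DA U * DB U * ∏ p ∈ PM ∪ PX, w2 W p U
      ∂(infinitePi fun _ : Link d => μ.prod μ) =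
      ∑ Y ∈ PX.powerset.filter (fun Y => Linked D l r u v Y), (∏ p ∈ PX \ Y, a p) *
        ∫ U, DA U * DB U * ∏ p ∈ PM ∪ Y, gg W a p U
          ∂(infinitePi fun _ : Link d => μ.prod μ) := by
    have h1 : ∀ U : Link d → G × G, ∏ p ∈ PM ∪ PX, w2 W p U =
        (∏ p ∈ PM, gg W a p U) * ∏ p ∈ PX, (gg W a p U + a p) := by
      intro U
      rw [Finset.prod_union hdisj]
      congr 1
      · exact Finset.prod_congr rfl fun p hp => by rw [gg, haM' p hp, sub_zero]
      · exact Finset.prod_congr rfl fun p hp => by rw [gg, sub_add_cancel]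
    simp only [h1]
    rw [expand μ hW a a PM PX hdisj (hDAbm.mul hDBbm), Finset.sum_filter]
    refine Finset.sum_congr rfl fun Y hY => ?_
    split_ifs with h
    · rfl
    · rw [vanish μ D hl hW a PM PX Y (fun p hp => (Finset.mem_filter.1 hp).2)
        (fun p hp => (Finset.mem_filter.1 hp).2) (Finset.mem_powerset.1 hY) r u v hDAbm hDBbm
        hDAs (hdep hAd) (hdep hBd) h, mul_zero]
  have habs : |∫ U, DA U * DB U * ∏ p ∈ PM ∪ PX, w2 W p U
      ∂(infinitePi fun _ : Link d => μ.prod μ)| ≤ 4 * NA * NB *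
      ((1 / 2) ^ (|v k - u k|).toNat * (θ ^ (K0 d * (2 * (2 * r + 1) ^ d)))⁻¹ * M) := by
    rw [hexp]
    refine (Finset.abs_sum_le_sum_abs _ _).trans ?_
    calc _ ≤ ∑ Y ∈ PX.powerset.filter (fun Y => Linked D l r u v Y), 4 * NA * NB * m Y := by
          refine Finset.sum_le_sum fun Y _ => ?_
          rw [abs_mul, abs_of_nonneg (Finset.prod_nonneg fun p _ => ha0 p)]
          have h1 : |∫ U, DA U * DB U * ∏ p ∈ PM ∪ Y, gg W a p U
              ∂(infinitePi fun _ : Link d => μ.prod μ)| ≤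
              4 * NA * NB * ∫ U, ∏ p ∈ PM ∪ Y, gg W a p U
                ∂(infinitePi fun _ : Link d => μ.prod μ) := by
            rw [← integral_const_mul]
            refine abs_integral_le_integral_abs.trans (integral_mono_of_nonneg
              (.of_forall fun U => abs_nonneg _) (((hbm _).integrable (μ.prod μ)).const_mul _)
              (.of_forall fun U => ?_))
            show |DA U * DB U * ∏ p ∈ PM ∪ Y, gg W a p U| ≤
              4 * NA * NB * ∏ p ∈ PM ∪ Y, gg W a p U
            rw [abs_mul, abs_of_nonneg (Finset.prod_nonneg fun p _ => hg0 p U)]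
            refine mul_le_mul_of_nonneg_right ?_ (Finset.prod_nonneg fun p _ => hg0 p U)
            rw [abs_mul]
            have h2 : |DA U| ≤ 2 * NA := (abs_sub _ _).trans (by
              have := hNA fun l => (U l).1
              have := hNA fun l => (U l).2
              linarith)
            have h3 : |DB U| ≤ 2 * NB := (abs_sub _ _).trans (by
              have := hNB fun l => (U l).1
              have := hNB fun l => (U l).2
              linarith)
            calc |DA U| * |DB U| ≤ (2 * NA) * (2 * NB) :=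
                  mul_le_mul h2 h3 (abs_nonneg _) (by positivity)
              _ = 4 * NA * NB := by ring
          calc _ ≤ (∏ p ∈ PX \ Y, a p) * (4 * NA * NB * ∫ U, ∏ p ∈ PM ∪ Y, gg W a p U
                ∂(infinitePi fun _ : Link d => μ.prod μ)) :=
                mul_le_mul_of_nonneg_left h1 (Finset.prod_nonneg fun p _ => ha0 p)
            _ = 4 * NA * NB * m Y := by
                simp only [hm]
                ring
      _ = 4 * NA * NB * ∑ Y ∈ PX.powerset.filter (fun Y => Linked D l r u v Y), m Y := by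
          rw [Finset.mul_sum]
      _ ≤ _ := mul_le_mul_of_nonneg_left hlink (by positivity)
  -- conclusion
  have hE1 : expect μ W P (fun U => A U * B U) = NAB / Z := rfl
  have hE2 : expect μ W P A = NA' / Z := rfl
  have hE3 : expect μ W P B = NB' / Z := rfl
  rw [hE1, hE2, hE3]
  by_cases hZ0 : Z = 0
  · rw [hZ0]
    simp only [div_zero, mul_zero, sub_zero, abs_zero]
    positivity
  · have hMpos : 0 < M := by rw [hMZ]; exact mul_self_pos.2 hZ0
    have h1 : NAB / Z - NA' / Z * (NB' / Z) = (2 * (NAB * Z - NA' * NB')) / (2 * M) := by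
      rw [hMZ]
      field_simp
    rw [h1, ← hrep, abs_div, abs_of_pos (by positivity : (0 : ℝ) < 2 * M),
      div_le_iff₀ (by positivity)]
    refine habs.trans (le_of_eq ?_)
    ring

end Pool.Agent.T2h96
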