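import Pool.Agent.T2h96.Pair

/-!
# helper96: the two-replica expansion
-/

set_option autoImplicit false
set_option linter.unusedSectionVars false

noncomputable section

namespace Pool.Agent.T2h96

open MeasureTheory Measure Function

variable {d : ℕ} {G : Type} [Group G] [TopologicalSpace G] [IsTopologicalGroup G]
  [CompactSpace G] [T2Space G] [SecondCountableTopology G] [MeasurableSpace G] [BorelSpace G]

theorem meas_hol (p : Plaq d) : Measurable fun U : Link d → G => hol U p := by
  unfold hol
  fun_prop

/-- the weight of a plaquette in the two replicas -/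
def w2 (W : Plaq d → G → ℝ) (p : Plaq d) (U : Link d → G × G) : ℝ :=
  W p (hol (fun l => (U l).1) p) * W p (hol (fun l => (U l).2) p)

/-- the weight without its minimum -/
def gg (W : Plaq d → G → ℝ) (a : Plaq d → ℝ) (p : Plaq d) (U : Link d → G × G) : ℝ :=
  w2 W p U - a p

/-- a bounded measurable family of weights -/
structure WOK (W : Plaq d → G → ℝ) : Prop where
  meas : ∀ p, Measurable (W p)
  nn : ∀ p g, 0 ≤ W p g
  bdd : ∀ p, ∃ C : ℝ, ∀ g, W p g ≤ C

theorem fst_meas : Measurable fun U : Link d → G × G => fun l => (U l).1 :=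
  measurable_pi_iff.2 fun l => measurable_fst.comp (measurable_pi_apply l)

theorem snd_meas : Measurable fun U : Link d → G × G => fun l => (U l).2 :=
  measurable_pi_iff.2 fun l => measurable_snd.comp (measurable_pi_apply l)

theorem w2_bm {W : Plaq d → G → ℝ} (hW : WOK W) (p : Plaq d) : BM (w2 W p) := by
  obtain ⟨C, hC⟩ := hW.bdd p
  have h1 : BM fun U : Link d → G × G => W p (hol (fun l => (U l).1) p) :=
    ⟨(hW.meas p).comp ((meas_hol p).comp fst_meas), C, fun U => by
      rw [abs_of_nonneg (hW.nn p _)]; exact hC _⟩
  have h2 : BM fun U : Link d → G × G => W p (hol (fun l => (U l).2) p) :=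
    ⟨(hW.meas p).comp ((meas_hol p).comp snd_meas), C, fun U => by
      rw [abs_of_nonneg (hW.nn p _)]; exact hC _⟩
  exact h1.mul h2

theorem gg_bm {W : Plaq d → G → ℝ} (hW : WOK W) (a : Plaq d → ℝ) (p : Plaq d) :
    BM (gg W a p) := (w2_bm hW p).sub (BM.const _)

theorem gg_dep (W : Plaq d → G → ℝ) (a : Plaq d → ℝ) (p : Plaq d) :
    DepOn (bd p) (gg W a p) := by
  intro U V h
  unfold gg w2
  rw [hol_dep p (U := fun l => (U l).1) (V := fun l => (V l).1) fun l hl => by rw [h l hl],
    hol_dep p (U := fun l => (U l).2) (V := fun l => (V l).2) fun l hl => by rw [h l hl]]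

theorem gg_swap (W : Plaq d → G → ℝ) (a : Plaq d → ℝ) (p : Plaq d) (U : Link d → G × G) :
    gg W a p (fun l => (U l).swap) = gg W a p U := by
  unfold gg w2
  simp only [Prod.fst_swap, Prod.snd_swap]
  ring

variable (μ : Measure G) [μ.IsHaarMeasure] [IsProbabilityMeasure μ]

/-- the faces of the two-replica expansion -/
def faces {W : Plaq d → G → ℝ} (hW : WOK W) (a : Plaq d → ℝ) :
    FaceSys (Link d) (G × G) (μ.prod μ) (Plaq d) where
  bd := bd
  g := gg W a
  κ p := (∫ g, W p g ∂μ) * (∫ g, W p g ∂μ) - a p
  bm := gg_bm hW a
  dep := gg_dep W a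
  marg := by
    intro p hdec l hl U
    obtain ⟨C, hC⟩ := hW.bdd p
    have h1 : ∀ v : G × G, gg W a p (update U l v) =
        W p (hol (update (fun l => (U l).1) l v.1) p) *
          W p (hol (update (fun l => (U l).2) l v.2) p) - a p := by
      intro v
      unfold gg w2
      congr 2
      · congr 2
        funext l'
        by_cases h : l' = l
        · subst h; simp
        · rw [update_of_ne h, update_of_ne h]
      · congr 2
        funext l'
        by_cases h : l' = l
        · subst h; simp
        · rw [update_of_ne h, update_of_ne h]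
    simp only [h1]
    rw [integral_sub, integral_const, integral_prod_mul
      (f := fun v => W p (hol (update (fun l => (U l).1) l v) p))
      (g := fun v => W p (hol (update (fun l => (U l).2) l v) p)),
      marg_hol μ (W p) p _ l hl, marg_hol μ (W p) p _ l hl]
    · simp
    · have hm : ∀ V : Link d → G, Measurable fun v : G => W p (hol (update V l v) p) := fun V =>
        (hW.meas p).comp ((meas_hol p).comp (measurable_update V))
      refine Integrable.of_bound (((hm _).comp measurable_fst).mul
        ((hm _).comp measurable_snd)).aestronglyMeasurable (C * C) (.of_forall fun v => ?_)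
      rw [Real.norm_eq_abs, abs_mul, abs_of_nonneg (hW.nn p _), abs_of_nonneg (hW.nn p _)]
      exact mul_le_mul (hC _) (hC _) (hW.nn p _) ((hW.nn p 1).trans (hC 1))
    · exact integrable_const _

end Pool.Agent.T2h96
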