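import Pool.Agent.T2h96.Cov

/-!
# helper96: a forest on the directions gives the data of `Dir`
-/

set_option autoImplicit false

noncomputable section

namespace Pool.Agent.T2h96

open Classical

variable {d : ℕ}

/-- a rooting of a forest -/
theorem exists_rooting (F : SimpleGraph (Fin d)) (hF : F.IsAcyclic) :
    ∃ (par : Fin d → Fin d) (rank : Fin d → ℕ), (∀ a b, F.Adj a b → b = par a ∨ a = par b) ∧
      (∀ a, F.Adj a (par a) → rank a < rank (par a)) ∧ ∀ a, rank a < d := by
  -- the root of the component
  set ρ : Fin d → Fin d := fun a => Quot.out (F.connectedComponentMk a) with hρ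
  have hreach : ∀ a, F.Reachable (ρ a) a := by
    intro a
    rw [← SimpleGraph.ConnectedComponent.eq]
    exact Quot.out_eq (F.connectedComponentMk a)
  have hρadj : ∀ a b, F.Adj a b → ρ a = ρ b := by
    intro a b h
    simp only [hρ]
    rw [SimpleGraph.ConnectedComponent.eq.2 h.reachable]
  have hpath : ∀ a, ∃ p : F.Walk (ρ a) a, p.IsPath := by
    intro a
    obtain ⟨p⟩ := hreach a
    exact ⟨p.toPath.1, p.toPath.2⟩
  choose p hp using hpath
  have huniq : ∀ (u a : Fin d) (p q : F.Walk u a), p.IsPath → q.IsPath → p = q := by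
    intro u a p q hp hq
    exact congrArg Subtype.val (hF.path_unique ⟨p, hp⟩ ⟨q, hq⟩)
  have key : ∀ a (q : F.Walk (ρ a) a), q.IsPath → q.penultimate = (p a).penultimate ∧
      q.length = (p a).length := by
    intro a q hq
    rw [huniq _ _ q (p a) hq (hp a)]
    exact ⟨rfl, rfl⟩
  have key' : ∀ a b, ρ a = ρ b → ∀ q : F.Walk (ρ a) b, q.IsPath →
      q.penultimate = (p b).penultimate ∧ q.length = (p b).length := by
    intro a b h
    rw [h]
    exact key b
  have hlen : ∀ a, (p a).length < d := by
    intro a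
    have := (hp a).length_lt
    rwa [Fintype.card_fin] at this
  refine ⟨fun a => (p a).penultimate, fun a => d - 1 - (p a).length, ?_, ?_, ?_⟩
  · intro a b hab
    have hρab := hρadj a b hab
    obtain ⟨q, hq⟩ : ∃ q : F.Walk (ρ a) b, q.IsPath := by
      rw [hρab]
      exact ⟨p b, hp b⟩
    by_cases hb : b ∈ (p a).support
    · exact Or.inl (hF.eq_penultimate_of_adj_end (hp a) hab hb)
    · right
      have h1 : a ∈ q.support :=
        hF.mem_support_of_ne_mem_support_of_adj_of_isPath hq (hp a) hab.symm hb
      rw [hF.eq_penultimate_of_adj_end hq hab.symm h1]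
      exact (key' a b hρab q hq).1
  · intro a ha
    replace ha : F.Adj a (p a).penultimate := ha
    have hnil : ¬ (p a).Nil := by
      intro h
      have h1 : (p a).penultimate = a := by
        rw [SimpleGraph.Walk.penultimate, SimpleGraph.Walk.nil_iff_length_eq.1 h]
        have h2 := SimpleGraph.Walk.Nil.eq h
        rw [SimpleGraph.Walk.getVert_zero]
        exact h2
      rw [h1] at ha
      exact F.loopless.irrefl a ha
    have hpos : 0 < (p a).length := by
      rw [Nat.pos_iff_ne_zero]
      intro h
      exact hnil (SimpleGraph.Walk.nil_iff_length_eq.2 h)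
    have h1 := (key' a (p a).penultimate (hρadj _ _ ha) (p a).dropLast (hp a).dropLast).2
    have h2 : (p a).dropLast.length + 1 = (p a).length := by
      have h3 := congrArg SimpleGraph.Walk.length (SimpleGraph.Walk.concat_dropLast ha.symm)
      rw [SimpleGraph.Walk.length_concat] at h3
      exact h3
    have h4 := hlen a
    show d - 1 - (p a).length < d - 1 - (p (p a).penultimate).length
    omega
  · intro a
    have := hlen a
    show d - 1 - (p a).length < d
    omega

/-- the edge `{a, b}` of the forest meets no other edge -/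
def Iso (F : SimpleGraph (Fin d)) (a b : Fin d) : Prop :=
  F.Adj a b ∧ (∀ k, F.Adj a k → k = b) ∧ ∀ k, F.Adj b k → k = a

theorem Iso.symm {F : SimpleGraph (Fin d)} {a b : Fin d} (h : Iso F a b) : Iso F b a :=
  ⟨h.1.symm, h.2.2, h.2.1⟩

/-- the data of a forest -/
theorem exists_dir (F : SimpleGraph (Fin d)) (hF : F.IsAcyclic) :
    ∃ D : Dir d, (∀ a b, D.FP a b ↔ F.Adj a b ∧ ¬ Iso F a b) ∧ ∀ a b, D.MP a b ↔ Iso F a b := by
  obtain ⟨par, rank, h1, h2, h3⟩ := exists_rooting F hF
  refine ⟨⟨fun a b => F.Adj a b ∧ ¬ Iso F a b, fun a b => Iso F a b, par, rank, ?_, ?_, ?_, ?_,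
    fun a b h => h1 a b h.1, fun a h => h2 a h.1, h3⟩, fun a b => Iff.rfl, fun a b => Iff.rfl⟩
  · rintro a b b' ⟨hab, hn⟩ hM
    have := hM.2.1 b hab
    subst this
    exact hn hM
  · rintro a b ⟨hab, hn⟩
    exact ⟨hab.symm, fun h => hn h.symm⟩
  · intro a b h
    exact h.symm
  · intro a b b' h h'
    exact h'.2.1 b h.1

end Pool.Agent.T2h96
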