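import Pool.Agent.T2h96.Perc

/-!
# helper96: lattice gauge fields, holonomies, two replicas
-/

set_option autoImplicit false
set_option linter.unusedSectionVars false

noncomputable section

namespace Pool.Agent.T2h96

open MeasureTheory Measure Function

variable {d : ℕ}

/-- the holonomy of the gauge field `U` around the plaquette `p` -/
def hol {G : Type} [Group G] (U : Link d → G) (p : Plaq d) : G :=
  U (p.x, p.i) * U (p.x + e p.i, p.j) * (U (p.x + e p.j, p.i))⁻¹ * (U (p.x, p.j))⁻¹

theorem e_ne (x : Site d) (i : Fin d) : x ≠ x + e i := fun h => by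
  have := congrFun h i
  simp [e] at this

theorem hol_dep {G : Type} [Group G] (p : Plaq d) {U V : Link d → G}
    (h : ∀ l ∈ bd p, U l = V l) : hol U p = hol V p := by
  unfold hol
  rw [h _ (by simp [bd]), h _ (by simp [bd]), h _ (by simp [bd]), h _ (by simp [bd])]

theorem hol_update {G : Type} [Group G] [DecidableEq (Link d)] (p : Plaq d) (U : Link d → G)
    (l : Link d) (hl : l ∈ bd p) : ∃ a b : G, (∀ v, hol (update U l v) p = a * v * b) ∨
      ∀ v, hol (update U l v) p = a * v⁻¹ * b := by
  have hij : p.i ≠ p.j := p.lt.ne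
  have hx1 := e_ne p.x p.i
  have hx2 := e_ne p.x p.j
  have hn : ∀ {y z : Site d} {a b : Fin d}, (a ≠ b ∨ y ≠ z) → ((y, a) : Link d) ≠ (z, b) := by
    intro y z a b h h'
    rw [Prod.mk.injEq] at h'
    rcases h with h | h
    · exact h h'.2
    · exact h h'.1
  simp only [bd, Set.mem_insert_iff, Set.mem_singleton_iff] at hl
  rcases hl with rfl | rfl | rfl | rfl
  · refine ⟨1, U (p.x + e p.i, p.j) * (U (p.x + e p.j, p.i))⁻¹ * (U (p.x, p.j))⁻¹,
      Or.inl fun v => ?_⟩
    unfold hol
    rw [update_self, update_of_ne (hn (Or.inl hij.symm)), update_of_ne (hn (Or.inr hx2.symm)),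
      update_of_ne (hn (Or.inl hij.symm))]
    group
  · refine ⟨U (p.x, p.i) * U (p.x + e p.i, p.j), (U (p.x, p.j))⁻¹, Or.inr fun v => ?_⟩
    unfold hol
    rw [update_self, update_of_ne (hn (Or.inr hx2)), update_of_ne (hn (Or.inl hij.symm)),
      update_of_ne (hn (Or.inl hij.symm))]
  · refine ⟨U (p.x, p.i) * U (p.x + e p.i, p.j) * (U (p.x + e p.j, p.i))⁻¹, 1,
      Or.inr fun v => ?_⟩
    unfold hol
    rw [update_self, update_of_ne (hn (Or.inl hij)), update_of_ne (hn (Or.inr hx1.symm)),
      update_of_ne (hn (Or.inl hij))]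
    group
  · refine ⟨U (p.x, p.i), (U (p.x + e p.j, p.i))⁻¹ * (U (p.x, p.j))⁻¹, Or.inl fun v => ?_⟩
    unfold hol
    rw [update_self, update_of_ne (hn (Or.inl hij)), update_of_ne (hn (Or.inl hij)),
      update_of_ne (hn (Or.inr hx1))]
    group

section haar

variable {G : Type} [Group G] [TopologicalSpace G] [IsTopologicalGroup G] [CompactSpace G]
  [T2Space G] [MeasurableSpace G] [BorelSpace G] (μ : Measure G) [μ.IsHaarMeasure]
  [IsProbabilityMeasure μ]

theorem right_inv : μ.IsMulRightInvariant := by
  refine ⟨fun g => ?_⟩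
  have hp : IsProbabilityMeasure (Measure.map (· * g) μ) :=
    Measure.isProbabilityMeasure_map (measurable_mul_const g).aemeasurable
  have h3 : (Measure.map (· * g) μ).IsHaarMeasure := by
    have h1 : (μ.map (fun x => x * g)).IsMulLeftInvariant := by
      constructor
      intro a
      rw [Measure.map_map (by fun_prop) (by fun_prop)]
      have : (fun x : G => a * x) ∘ (fun x => x * g) = (fun x => x * g) ∘ (fun x => a * x) := by
        funext x; simp [mul_assoc]
      rw [this, ← Measure.map_map (by fun_prop) (by fun_prop), map_mul_left_eq_self]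
    refine Measure.isHaarMeasure_of_isCompact_nonempty_interior _ Set.univ isCompact_univ
      (by simp) ?_ ?_
    · simp
    · simp
  exact Measure.isHaarMeasure_eq_of_isProbabilityMeasure _ _

theorem inv_inv' : μ.IsInvInvariant := by
  have hr := right_inv μ
  have h1 : (μ.map (fun x => x⁻¹)).IsMulLeftInvariant := by
    constructor
    intro a
    rw [Measure.map_map (by fun_prop) (by fun_prop)]
    have : (fun x : G => a * x) ∘ (fun x => x⁻¹) = (fun x => x⁻¹) ∘ (fun x => x * a⁻¹) := by
      funext x; simp
    rw [this, ← Measure.map_map (by fun_prop) (by fun_prop), map_mul_right_eq_self]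
  have h2 : IsProbabilityMeasure (μ.map (fun x => x⁻¹)) :=
    Measure.isProbabilityMeasure_map (by fun_prop)
  have h3 : (μ.map (fun x => x⁻¹)).IsHaarMeasure := by
    refine Measure.isHaarMeasure_of_isCompact_nonempty_interior _ Set.univ isCompact_univ
      (by simp) ?_ ?_
    · simp
    · simp
  have h4 : μ.map (fun x => x⁻¹) = μ := Measure.isHaarMeasure_eq_of_isProbabilityMeasure _ _
  exact ⟨h4⟩

theorem marg_hol (W : G → ℝ) (p : Plaq d) [DecidableEq (Link d)] (U : Link d → G) (l : Link d)
    (hl : l ∈ bd p) : ∫ v, W (hol (update U l v) p) ∂μ = ∫ g, W g ∂μ := by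
  have hr := right_inv μ
  have hi := inv_inv' μ
  obtain ⟨a, b, h | h⟩ := hol_update p U l hl
  · simp only [h]
    rw [integral_mul_left_eq_self (fun v => W (v * b)) a, integral_mul_right_eq_self W b]
  · simp only [h]
    rw [integral_inv_eq_self (fun v => W (a * v * b)) μ,
      integral_mul_left_eq_self (fun v => W (v * b)) a, integral_mul_right_eq_self W b]

end haar

end Pool.Agent.T2h96
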