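import Pool.Agent.T2h96.Core

/-!
# helper96: plaquettes of `ℤ^d`, blocks, and the core of a forest of planes
-/

set_option autoImplicit false

noncomputable section

namespace Pool.Agent.T2h96

/-- sites of `ℤ^d` -/
abbrev Site (d : ℕ) : Type := Fin d → ℤ

/-- links: `(x, i)` is the link from `x` to `x + e i` -/
abbrev Link (d : ℕ) : Type := Site d × Fin d

/-- plaquettes: `(x, i, j)`, `i < j`, is the unit square with corners
`x, x + e i, x + e i + e j, x + e j` -/
@[ext] structure Plaq (d : ℕ) where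
  /-- the lower left corner -/
  x : Site d
  /-- first direction -/
  i : Fin d
  /-- second direction -/
  j : Fin d
  lt : i < j

variable {d : ℕ}

/-- unit vector -/
def e (i : Fin d) : Site d := Pi.single i 1

/-- the links of a plaquette -/
def bd (p : Plaq d) : Set (Link d) :=
  {(p.x, p.i), (p.x + e p.j, p.i), (p.x, p.j), (p.x + e p.i, p.j)}

/-- `p` lies in a plane parallel to `{a, b}` -/
def Pl (a b : Fin d) (p : Plaq d) : Prop := (p.i = a ∧ p.j = b) ∨ (p.i = b ∧ p.j = a)

theorem Pl.symm {a b : Fin d} {p : Plaq d} (h : Pl a b p) : Pl b a p := Or.symm h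

theorem Pl.ext {a b : Fin d} {p q : Plaq d} (hp : Pl a b p) (hq : Pl a b q) (h : p.x = q.x) :
    p = q := by
  rcases hp with ⟨h1, h2⟩ | ⟨h1, h2⟩ <;> rcases hq with ⟨h3, h4⟩ | ⟨h3, h4⟩
  · exact Plaq.ext h (h1.trans h3.symm) (h2.trans h4.symm)
  · exact absurd p.lt (by rw [h1, h2, ← h3, ← h4]; exact q.lt.le.not_gt)
  · exact absurd p.lt (by rw [h1, h2, ← h3, ← h4]; exact q.lt.le.not_gt)
  · exact Plaq.ext h (h1.trans h3.symm) (h2.trans h4.symm)

theorem mem_bd {p : Plaq d} {y : Site d} {c : Fin d} (h : (y, c) ∈ bd p) :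
    ∃ b, Pl c b p ∧ (y = p.x ∨ y = p.x + e b) := by
  simp only [bd, Set.mem_insert_iff, Set.mem_singleton_iff, Prod.mk.injEq] at h
  rcases h with ⟨h1, h2⟩ | ⟨h1, h2⟩ | ⟨h1, h2⟩ | ⟨h1, h2⟩
  · exact ⟨p.j, Or.inl ⟨h2.symm, rfl⟩, Or.inl h1⟩
  · exact ⟨p.j, Or.inl ⟨h2.symm, rfl⟩, Or.inr h1⟩
  · exact ⟨p.i, Or.inr ⟨rfl, h2.symm⟩, Or.inl h1⟩
  · exact ⟨p.i, Or.inr ⟨rfl, h2.symm⟩, Or.inr h1⟩

theorem bd_left {p : Plaq d} {c b : Fin d} (h : Pl c b p) : (p.x, c) ∈ bd p := by
  rcases h with ⟨h1, h2⟩ | ⟨h1, h2⟩ <;> simp [bd, ← h1, ← h2]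

theorem bd_right {p : Plaq d} {c b : Fin d} (h : Pl c b p) : (p.x + e b, c) ∈ bd p := by
  rcases h with ⟨h1, h2⟩ | ⟨h1, h2⟩ <;> simp [bd, ← h1, ← h2]

/-- sup distance at most `r` -/
def Near (r : ℤ) (u v : Site d) : Prop := ∀ k, |u k - v k| ≤ r

theorem Near.symm {r : ℤ} {u v : Site d} (h : Near r u v) : Near r v u := fun k => by
  rw [abs_sub_comm]; exact h k

theorem Near.trans {r s : ℤ} {u v w : Site d} (h : Near r u v) (h' : Near s v w) :
    Near (r + s) u w := fun k => by
  have := h k
  have := h' k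
  rw [abs_le] at *
  omega

theorem Near.mono {r s : ℤ} {u v : Site d} (h : Near r u v) (hrs : r ≤ s) : Near s u v :=
  fun k => (h k).trans hrs

theorem near_self {r : ℤ} (hr : 0 ≤ r) (u : Site d) : Near r u u := fun k => by simpa using hr

theorem near_e (x : Site d) (i : Fin d) : Near 1 (x + e i) x := fun k => by
  simp only [e, Pi.add_apply, add_sub_cancel_left, Pi.single_apply]
  split_ifs <;> simp

/-- the block of a site -/
def bl (l : ℤ) (x : Site d) : Site d := fun k => x k / l

theorem div_close {l : ℤ} (hl : 0 < l) {a b : ℤ} (h : |a - b| ≤ 1) : |a / l - b / l| ≤ 1 := by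
  rw [abs_le] at *
  have h1 : a / l ≤ (b + l) / l := Int.ediv_le_ediv hl (by omega)
  have h2 : b / l ≤ (a + l) / l := Int.ediv_le_ediv hl (by omega)
  rw [Int.add_ediv_of_dvd_right (dvd_refl l), Int.ediv_self hl.ne'] at h1 h2
  omega

theorem near_bl {l : ℤ} (hl : 0 < l) {x y : Site d} (h : Near 1 x y) :
    Near 1 (bl l x) (bl l y) := fun k => div_close hl (h k)

/-- The links of the faces are close to the bad blocks, for the planes of a rooted forest. -/
theorem core_forest (l : ℤ) (hl : 0 < l) (FP MP : Fin d → Fin d → Prop) (par : Fin d → Fin d)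
    (rank : Fin d → ℕ) (hFM : ∀ a b b', FP a b → ¬ MP a b')
    (hFs : ∀ a b, FP a b → FP b a) (hMs : ∀ a b, MP a b → MP b a)
    (hpar : ∀ a b, FP a b → b = par a ∨ a = par b)
    (hrank : ∀ a, FP a (par a) → rank a < rank (par a))
    (S : Set (Link d)) (R : Finset (Plaq d)) (hcore : IsCore bd S R)
    (hR : ∀ p ∈ R, FP p.i p.j ∨ MP p.i p.j) (Bad : Set (Site d))
    (hB1 : ∀ y ∈ S, ∃ b ∈ Bad, Near 1 (bl l y.1) b)
    (hB2 : ∀ x, bl l x ∉ Bad → ∀ c, FP c (par c) → ∃ y, bl l y = bl l x ∧
      (∀ k, k ≠ par c → y k = x k) ∧ ∀ p ∈ R, p.x = y → ¬ Pl c (par c) p) :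
    ∀ (n : ℕ) (p : Plaq d) (c : Fin d), rank c = n → p ∈ R → FP c (par c) → Pl c (par c) p →
      ∃ b ∈ Bad, Near (n + 1) (bl l p.x) b := by
  intro n
  induction n using Nat.strong_induction_on with
  | _ n ih =>
  intro p c hc hp hFc hpl
  by_cases hbad : bl l p.x ∈ Bad
  · exact ⟨_, hbad, near_self (by positivity) _⟩
  obtain ⟨y, hy1, hy2, hy3⟩ := hB2 p.x hbad c hFc
  set π := par c with hπ
  have hne : c ≠ π := by
    rintro h
    have := hrank c hFc
    rw [← hπ, ← h] at this
    exact lt_irrefl _ this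
  -- the treatment of the end of the run
  have key : ∀ (z : Site d) (q1 : Plaq d), q1 ∈ R → Pl c π q1 → (z, c) ∈ bd q1 →
      bl l z = bl l p.x → (∀ q' ∈ R, Pl c π q' → (z = q'.x ∨ z = q'.x + e π) → q' = q1) →
      ∃ b ∈ Bad, Near (n + 1) (bl l p.x) b := by
    intro z q1 hq1 hq1p hz hblz huniq
    rcases hcore q1 hq1 (z, c) hz with hS | ⟨q', hq', hne', hzq'⟩
    · obtain ⟨b, hb, hnear⟩ := hB1 _ hS
      refine ⟨b, hb, ?_⟩
      rw [← hblz]
      exact hnear.mono (by have : (0 : ℤ) ≤ n := by positivity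
                           omega)
    · obtain ⟨b, hb, hzb⟩ := mem_bd hzq'
      have hFcb : FP c b := by
        have h1 := hR q' hq'
        rcases hb with ⟨h2, h3⟩ | ⟨h2, h3⟩
        · rw [h2, h3] at h1
          exact h1.resolve_right (hFM c π b hFc)
        · rw [h2, h3] at h1
          rcases h1 with h1 | h1
          · exact hFs _ _ h1
          · exact absurd (hMs _ _ h1) (hFM c π b hFc)
      rcases hpar c b hFcb with h1 | h1
      · rw [h1] at hb hzb
        exact absurd (huniq q' hq' hb hzb) hne'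
      · have hFb : FP b (par b) := by rw [← h1]; exact hFs _ _ hFcb
        have hlt : rank b < n := by
          rw [← hc]
          have := hrank b hFb
          rwa [← h1] at this
        obtain ⟨b', hb', hnear⟩ := ih (rank b) hlt q' b rfl hq' hFb (by rw [← h1]; exact hb.symm)
        refine ⟨b', hb', ?_⟩
        have h2 : Near 1 z q'.x := by
          rcases hzb with h | h
          · rw [h]; exact near_self (by norm_num) _
          · rw [h]; exact near_e _ _
        rw [← hblz]
        refine ((near_bl hl h2).trans hnear).mono ?_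
        have : (rank b : ℤ) + 1 ≤ n := by exact_mod_cast hlt
        omega
  -- the block of a site of the line between `p.x` and `y`
  have hblk : ∀ t : ℤ, (min (p.x π) (y π) ≤ p.x π + t) → (p.x π + t ≤ max (p.x π) (y π)) →
      bl l (p.x + Pi.single π t) = bl l p.x := by
    intro t h1 h2
    funext k
    by_cases hk : k = π
    · rw [hk]
      show (p.x π + (Pi.single π t : Site d) π) / l = p.x π / l
      rw [Pi.single_eq_same]
      have hyk : y π / l = p.x π / l := congrFun hy1 π
      have h3 : min (p.x π) (y π) / l = p.x π / l := by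
        rcases min_choice (p.x π) (y π) with h | h <;> rw [h]
        exact hyk
      have h4 : max (p.x π) (y π) / l = p.x π / l := by
        rcases max_choice (p.x π) (y π) with h | h <;> rw [h]
        exact hyk
      have h5 := Int.ediv_le_ediv hl h1
      have h6 := Int.ediv_le_ediv hl h2
      omega
    · show (p.x k + (Pi.single π t : Site d) k) / l = p.x k / l
      rw [Pi.single_eq_of_ne hk, add_zero]
  have hyeq : ∀ t : ℤ, t = y π - p.x π → p.x + Pi.single π t = y := by
    intro t ht
    funext k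
    by_cases hk : k = π
    · rw [hk, ht]; simp
    · simp [Pi.single_eq_of_ne hk, hy2 k hk]
  have htne : y π ≠ p.x π := by
    intro h
    have := hyeq 0 (by omega)
    rw [Pi.single_zero, add_zero] at this
    exact hy3 p hp this hpl
  classical
  rcases lt_or_gt_of_ne htne with hlt | hgt
  · -- the line to the left
    have hex : ∃ s : ℕ, ∀ q ∈ R, q.x = p.x + Pi.single π (-(s : ℤ)) → ¬ Pl c π q := by
      refine ⟨(p.x π - y π).toNat, fun q hq hqx => hy3 q hq ?_⟩
      rw [hqx]
      exact hyeq _ (by omega)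
    set s := Nat.find hex with hs
    have hs0 : s ≠ 0 := by
      intro h0
      have := Nat.find_spec hex
      rw [← hs, h0] at this
      exact this p hp (by simp) hpl
    have hsle : (s : ℤ) ≤ p.x π - y π := by
      have : s ≤ (p.x π - y π).toNat := Nat.find_le fun q hq hqx => hy3 q hq (by
        rw [hqx]
        exact hyeq _ (by omega))
      omega
    have hprev : ¬ ∀ q ∈ R, q.x = p.x + Pi.single π (-((s - 1 : ℕ) : ℤ)) → ¬ Pl c π q :=
      Nat.find_min hex (by omega)
    push Not at hprev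
    obtain ⟨q1, hq1, hq1x, hq1p⟩ := hprev
    have hcast : ((s - 1 : ℕ) : ℤ) = s - 1 := by omega
    rw [hcast] at hq1x
    refine key (p.x + Pi.single π (-((s : ℤ) - 1))) q1 hq1 hq1p ?_ ?_ ?_
    · rw [← hq1x]; exact bd_left hq1p
    · exact hblk _ (by rw [min_eq_right hlt.le]; omega) (by rw [max_eq_left hlt.le]; omega)
    · intro q' hq' hq'p hz
      rcases hz with hz | hz
      · exact hq'p.ext hq1p (hz.symm.trans hq1x.symm)
      · exfalso
        refine Nat.find_spec hex q' hq' ?_ hq'p
        rw [← hs]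
        have : q'.x = p.x + Pi.single π (-((s : ℤ) - 1)) - e π := by rw [hz]; abel
        rw [this, e, add_sub_assoc, ← Pi.single_sub]
        congr 2
        omega
  · -- the line to the right
    have hex : ∃ s : ℕ, ∀ q ∈ R, q.x = p.x + Pi.single π (s : ℤ) → ¬ Pl c π q := by
      refine ⟨(y π - p.x π).toNat, fun q hq hqx => hy3 q hq ?_⟩
      rw [hqx]
      exact hyeq _ (by omega)
    set s := Nat.find hex with hs
    have hs0 : s ≠ 0 := by
      intro h0
      have := Nat.find_spec hex
      rw [← hs, h0] at this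
      exact this p hp (by simp) hpl
    have hsle : (s : ℤ) ≤ y π - p.x π := by
      have : s ≤ (y π - p.x π).toNat := Nat.find_le fun q hq hqx => hy3 q hq (by
        rw [hqx]
        exact hyeq _ (by omega))
      omega
    have hprev : ¬ ∀ q ∈ R, q.x = p.x + Pi.single π ((s - 1 : ℕ) : ℤ) → ¬ Pl c π q :=
      Nat.find_min hex (by omega)
    push Not at hprev
    obtain ⟨q1, hq1, hq1x, hq1p⟩ := hprev
    have hcast : ((s - 1 : ℕ) : ℤ) = s - 1 := by omega
    rw [hcast] at hq1x
    have hstep : q1.x + e π = p.x + Pi.single π (s : ℤ) := by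
      rw [hq1x, e, add_assoc, ← Pi.single_add]
      congr 2
      omega
    refine key (p.x + Pi.single π (s : ℤ)) q1 hq1 hq1p ?_ ?_ ?_
    · rw [← hstep]; exact bd_right hq1p
    · exact hblk _ (by rw [min_eq_left hgt.le]; omega) (by rw [max_eq_right hgt.le]; omega)
    · intro q' hq' hq'p hz
      rcases hz with hz | hz
      · exfalso
        refine Nat.find_spec hex q' hq' ?_ hq'p
        rw [← hs]
        exact hz.symm
      · refine hq'p.ext hq1p ?_
        have : q'.x + e π = q1.x + e π := hz.symm.trans hstep.symm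
        exact add_right_cancel this

end Pool.Agent.T2h96
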