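import Pool.Agent.T2h96.OS

/-!
# helper96: the infinite volume measure
-/

set_option autoImplicit false
set_option linter.unusedSectionVars false

noncomputable section

namespace Pool.Agent.T2h96

open MeasureTheory Measure Function Filter Classical BoundedContinuousFunction
open scoped Topology NNReal ENNReal

/-- comparison of two measures through continuous functions -/
theorem measure_le_of_lintegral {X : Type} [TopologicalSpace X] [MeasurableSpace X]
    [BorelSpace X] [HasOuterApproxClosed X] (ν lam : Measure X) [IsFiniteMeasure ν]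
    [IsFiniteMeasure lam] [ν.WeaklyRegular] (K : ℝ≥0)
    (h : ∀ f : X →ᵇ ℝ≥0, ∫⁻ x, f x ∂ν ≤ K * ∫⁻ x, f x ∂lam) : ν ≤ K • lam := by
  have hcl : ∀ F : Set X, IsClosed F → ν F ≤ K * lam F := by
    intro F hF
    have h1 := HasOuterApproxClosed.tendsto_lintegral_apprSeq hF ν
    have h2 := HasOuterApproxClosed.tendsto_lintegral_apprSeq hF lam
    exact le_of_tendsto_of_tendsto' h1
      (ENNReal.Tendsto.const_mul h2 (Or.inr ENNReal.coe_ne_top)) fun n => h _
  rw [Measure.le_iff]
  intro S hS
  rw [hS.measure_eq_iSup_isClosed_of_ne_top (measure_ne_top ν S)]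
  refine iSup₂_le fun F hFS => iSup_le fun hF => (hcl F hF).trans ?_
  show K * lam F ≤ (K • lam) S
  rw [Measure.smul_apply]
  exact mul_le_mul_right (measure_mono hFS) _

variable {d : ℕ} {G : Type} [Group G] [TopologicalSpace G] [IsTopologicalGroup G]
  [CompactSpace G] [T2Space G] [SecondCountableTopology G] [MeasurableSpace G] [BorelSpace G]
  (μ : Measure G) [μ.IsHaarMeasure] [IsProbabilityMeasure μ]

theorem W_bm {W : Plaq d → G → ℝ} (hW : WOK W) (p : Plaq d) :
    BM fun U : Link d → G => W p (hol U p) := by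
  obtain ⟨C, hC⟩ := hW.bdd p
  exact ⟨(hW.meas p).comp (meas_hol p), C, fun U => by
    rw [abs_of_nonneg (hW.nn p _)]; exact hC _⟩

/-- the partition function -/
def ZP (W : Plaq d → G → ℝ) (P : Finset (Plaq d)) : ℝ :=
  ∫ U : Link d → G, ∏ p ∈ P, W p (hol U p) ∂(infinitePi fun _ : Link d => μ)

theorem ZP_pos {W : Plaq d → G → ℝ} (hW : WOK W) {c : ℝ} (hc : 0 < c)
    (hWc : ∀ p g, c ≤ W p g) (P : Finset (Plaq d)) : 0 < ZP μ W P := by
  have hbm : BM fun U : Link d → G => ∏ p ∈ P, W p (hol U p) := BM.prod P fun p _ => W_bm hW p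
  have h1 : (∫ _U : Link d → G, c ^ P.card ∂(infinitePi fun _ : Link d => μ)) ≤
      ∫ U : Link d → G, ∏ p ∈ P, W p (hol U p) ∂(infinitePi fun _ : Link d => μ) := by
    refine integral_mono (integrable_const _) (hbm.integrable μ) fun U => ?_
    rw [← Finset.prod_const]
    exact Finset.prod_le_prod (fun _ _ => hc.le) fun p _ => hWc p _
  rw [integral_const] at h1
  simp only [probReal_univ, one_smul] at h1
  exact (pow_pos hc _).trans_le h1

/-- the Gibbs measure in the finite volume `P` -/
def gibbs (W : Plaq d → G → ℝ) (P : Finset (Plaq d)) : Measure (Link d → G) :=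
  (infinitePi fun _ : Link d => μ).withDensity fun U =>
    ENNReal.ofReal ((∏ p ∈ P, W p (hol U p)) / ZP μ W P)

theorem integral_gibbs {W : Plaq d → G → ℝ} (hW : WOK W) {c : ℝ} (hc : 0 < c)
    (hWc : ∀ p g, c ≤ W p g) (P : Finset (Plaq d)) (A : (Link d → G) → ℝ) :
    ∫ U, A U ∂(gibbs μ W P) = expect μ W P A := by
  have hm : Measurable fun U : Link d → G => (∏ p ∈ P, W p (hol U p)) / ZP μ W P :=
    (BM.prod P fun p _ => W_bm hW p).meas.div_const _
  rw [gibbs, integral_withDensity_eq_integral_toReal_smul hm.ennreal_ofReal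
    (.of_forall fun U => ENNReal.ofReal_lt_top)]
  unfold expect
  rw [← integral_div]
  refine integral_congr_ae (.of_forall fun U => ?_)
  have h0 : 0 ≤ (∏ p ∈ P, W p (hol U p)) / ZP μ W P :=
    div_nonneg (Finset.prod_nonneg fun p _ => hW.nn p _) (ZP_pos μ hW hc hWc P).le
  simp only [smul_eq_mul, ENNReal.toReal_ofReal h0]
  rw [mul_comm (A U), div_mul_eq_mul_div]
  rfl

theorem gibbs_prob {W : Plaq d → G → ℝ} (hW : WOK W) {c : ℝ} (hc : 0 < c)
    (hWc : ∀ p g, c ≤ W p g) (P : Finset (Plaq d)) : IsProbabilityMeasure (gibbs μ W P) := by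
  have hbm : BM fun U : Link d → G => ∏ p ∈ P, W p (hol U p) := BM.prod P fun p _ => W_bm hW p
  have hZ := ZP_pos μ hW hc hWc P
  refine ⟨?_⟩
  rw [gibbs, withDensity_apply _ MeasurableSet.univ, Measure.restrict_univ,
    ← ofReal_integral_eq_lintegral_ofReal ((hbm.integrable μ).div_const _)
      (.of_forall fun U => div_nonneg (Finset.prod_nonneg fun p _ => hW.nn p _) hZ.le),
    integral_div]
  show ENNReal.ofReal (ZP μ W P / ZP μ W P) = 1
  rw [div_self hZ.ne', ENNReal.ofReal_one]

/-- the number of plaquettes which touch a cube is bounded -/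
theorem touch_card (r : ℕ) (x : Site d) (P : Finset (Plaq d)) :
    (P.filter fun p => ¬ bd p ⊆ {b : Link d | Near r b.1 x}ᶜ).card ≤
      (2 * (r + 1) + 1) ^ d * (d * d) := by
  have hcard : (P.filter fun p => ¬ bd p ⊆ {b : Link d | Near r b.1 x}ᶜ).card ≤
      (ball (r + 1) x ×ˢ (Finset.univ : Finset (Fin d × Fin d))).card := by
    refine Finset.card_le_card_of_injOn (fun p => (p.x, (p.i, p.j))) ?_ ?_
    · intro p hp
      rw [Finset.mem_coe, Finset.mem_filter] at hp
      rw [Finset.mem_coe, Finset.mem_product]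
      refine ⟨?_, Finset.mem_univ _⟩
      rw [mem_ball]
      obtain ⟨b, hb, hb'⟩ := Set.not_subset.1 hp.2
      have h1 : Near r b.1 x := by
        by_contra h
        exact hb' h
      have h2 : Near 1 b.1 p.x := by
        rcases bd_base (Or.inl ⟨rfl, rfl⟩ : Pl p.i p.j p) hb with h | h | h <;> rw [h]
        · exact near_self (by norm_num) _
        · exact near_e _ _
        · exact near_e _ _
      exact (h2.symm.trans h1).mono (by push_cast; omega)
    · intro p _ q _ h
      simp only [Prod.mk.injEq] at h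
      exact Plaq.ext h.1 h.2.1 h.2.2
  refine hcard.trans ?_
  rw [Finset.card_product, Finset.card_univ, Fintype.card_prod, Fintype.card_fin]
  exact Nat.mul_le_mul_right _ (card_ball_le _ _)

/-- bound of the local densities -/
theorem expect_le {W : Plaq d → G → ℝ} (hW : WOK W) {c c' : ℝ} (hc : 0 < c)
    (hWc : ∀ p g, c ≤ W p g ∧ W p g ≤ c') (r : ℕ) (x : Site d) (P : Finset (Plaq d))
    {A : (Link d → G) → ℝ} (hA : BM A) (hA0 : ∀ U, 0 ≤ A U)
    (hAd : DepOn {b | Near r b.1 x} A) :
    expect μ W P A ≤ (max (c' / c) 1) ^ ((2 * (r + 1) + 1) ^ d * (d * d)) *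
      ∫ U, A U ∂(infinitePi fun _ : Link d => μ) := by
  set S : Set (Link d) := {b | Near r b.1 x} with hS
  set Q := P.filter fun p => ¬ bd p ⊆ Sᶜ with hQ
  set Q' := P.filter fun p => bd p ⊆ Sᶜ with hQ'
  have hbm : ∀ s : Finset (Plaq d), BM fun U : Link d → G => ∏ p ∈ s, W p (hol U p) := fun s =>
    BM.prod s fun p _ => W_bm hW p
  have hsplit : ∀ U : Link d → G, ∏ p ∈ P, W p (hol U p) =
      (∏ p ∈ Q', W p (hol U p)) * ∏ p ∈ Q, W p (hol U p) := fun U =>
    (Finset.prod_filter_mul_prod_filter_not P (fun p => bd p ⊆ Sᶜ) _).symm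
  have hZ := ZP_pos μ hW hc (fun p g => (hWc p g).1) P
  have hZ' := ZP_pos μ hW hc (fun p g => (hWc p g).1) Q'
  have hc'0 : 0 ≤ c' ^ Q.card := by
    rcases Finset.eq_empty_or_nonempty Q with h | ⟨p, -⟩
    · rw [h]; simp
    · exact pow_nonneg (hc.le.trans ((hWc p 1).1.trans (hWc p 1).2)) _
  have hI0 : 0 ≤ ∫ U, A U ∂(infinitePi fun _ : Link d => μ) := integral_nonneg hA0
  have h1 : ∫ U, A U * ∏ p ∈ P, W p (hol U p) ∂(infinitePi fun _ : Link d => μ) ≤
      c' ^ Q.card * ((∫ U, A U ∂(infinitePi fun _ : Link d => μ)) * ZP μ W Q') := by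
    have hdep : DepOn Sᶜ fun U : Link d → G => ∏ p ∈ Q', W p (hol U p) := by
      refine DepOn.prod _ fun p hp => ?_
      rw [hQ', Finset.mem_filter] at hp
      intro U V h
      show W p (hol U p) = W p (hol V p)
      rw [hol_dep p fun b hb => h b (hp.2 hb)]
    have e1 := integral_factor μ S hA (hbm Q') hAd hdep
    rw [ZP, ← e1, ← integral_const_mul]
    refine integral_mono ((hA.mul (hbm P)).integrable μ)
      (((hA.mul (hbm Q')).integrable μ).const_mul _) fun U => ?_
    show A U * ∏ p ∈ P, W p (hol U p) ≤ c' ^ Q.card * (A U * ∏ p ∈ Q', W p (hol U p))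
    rw [hsplit U]
    have h2 : ∏ p ∈ Q, W p (hol U p) ≤ c' ^ Q.card := by
      rw [← Finset.prod_const]
      exact Finset.prod_le_prod (fun p _ => hW.nn p _) fun p _ => (hWc p _).2
    have h3 : 0 ≤ A U * ∏ p ∈ Q', W p (hol U p) :=
      mul_nonneg (hA0 U) (Finset.prod_nonneg fun p _ => hW.nn p _)
    calc A U * ((∏ p ∈ Q', W p (hol U p)) * ∏ p ∈ Q, W p (hol U p)) =
          (A U * ∏ p ∈ Q', W p (hol U p)) * ∏ p ∈ Q, W p (hol U p) := by ring
      _ ≤ (A U * ∏ p ∈ Q', W p (hol U p)) * c' ^ Q.card := mul_le_mul_of_nonneg_left h2 h3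
      _ = _ := by ring
  have h2 : c ^ Q.card * ZP μ W Q' ≤ ZP μ W P := by
    rw [ZP, ZP, ← integral_const_mul]
    refine integral_mono (((hbm Q').integrable μ).const_mul _) ((hbm P).integrable μ)
      fun U => ?_
    show c ^ Q.card * ∏ p ∈ Q', W p (hol U p) ≤ ∏ p ∈ P, W p (hol U p)
    rw [hsplit U, mul_comm]
    refine mul_le_mul_of_nonneg_left ?_ (Finset.prod_nonneg fun p _ => hW.nn p _)
    rw [← Finset.prod_const]
    exact Finset.prod_le_prod (fun p _ => hc.le) fun p _ => (hWc p _).1
  have hcn : 0 < c ^ Q.card := pow_pos hc _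
  have h3 : expect μ W P A ≤ (c' / c) ^ Q.card * ∫ U, A U ∂(infinitePi fun _ : Link d => μ) := by
    show (∫ U, A U * ∏ p ∈ P, W p (hol U p) ∂(infinitePi fun _ : Link d => μ)) / ZP μ W P ≤ _
    rw [div_le_iff₀ hZ]
    refine h1.trans ?_
    have e1 : (c' / c) ^ Q.card * (∫ U, A U ∂(infinitePi fun _ : Link d => μ)) * ZP μ W P =
        c' ^ Q.card * ((∫ U, A U ∂(infinitePi fun _ : Link d => μ)) *
          (ZP μ W P / c ^ Q.card)) := by
      rw [div_pow]
      field_simp
    rw [e1]
    refine mul_le_mul_of_nonneg_left (mul_le_mul_of_nonneg_left ?_ hI0) hc'0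
    rw [le_div_iff₀ hcn]
    linarith
  refine h3.trans (mul_le_mul_of_nonneg_right ?_ hI0)
  rcases Finset.eq_empty_or_nonempty Q with h | ⟨p, -⟩
  · rw [h]
    simp only [Finset.card_empty, pow_zero]
    exact one_le_pow₀ (le_max_right _ _)
  · have h4 : 0 ≤ c' / c := div_nonneg (hc.le.trans ((hWc p 1).1.trans (hWc p 1).2)) hc.le
    calc (c' / c) ^ Q.card ≤ (max (c' / c) 1) ^ Q.card :=
          pow_le_pow_left₀ h4 (le_max_left _ _) _
      _ ≤ _ := pow_le_pow_right₀ (le_max_right _ _) (touch_card r x P)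

/-- the infinite volume measure -/
theorem exists_measure {W : Plaq d → G → ℝ} (hW : WOK W) {c c' : ℝ} (hc : 0 < c)
    (hWc : ∀ p g, c ≤ W p g ∧ W p g ≤ c') {ω : ((Link d → G) → ℝ) → ℝ} (hω : IsLim μ W ω) :
    ∃ ν : Measure (Link d → G), IsProbabilityMeasure ν ∧
      ∀ A : (Link d → G) → ℝ, IsLoc A → ∫ U, A U ∂ν = ω A := by
  have hWc1 : ∀ p g, c ≤ W p g := fun p g => (hWc p g).1
  set ρ : Finset (Plaq d) → ProbabilityMeasure (Link d → G) := fun P =>
    ⟨gibbs μ W P, gibbs_prob μ hW hc hWc1 P⟩ with hρ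
  obtain ⟨ν, hν⟩ := exists_clusterPt_of_compactSpace (map ρ atTop)
  -- continuous local functions
  have hcont : ∀ f : (Link d → G) →ᵇ ℝ, IsLoc (fun U => f U) →
      ∫ U, f U ∂(ν : Measure (Link d → G)) = ω fun U => f U := by
    intro f hf
    have h1 : Continuous fun κ : ProbabilityMeasure (Link d → G) =>
        ∫ U, f U ∂(κ : Measure (Link d → G)) :=
      continuous_iff_continuousAt.2 fun κ =>
        ProbabilityMeasure.tendsto_iff_forall_integral_tendsto.1 tendsto_id f
    have h2 : ClusterPt (∫ U, f U ∂(ν : Measure (Link d → G)))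
        (map (fun κ : ProbabilityMeasure (Link d → G) =>
          ∫ U, f U ∂(κ : Measure (Link d → G))) (map ρ atTop)) :=
      hν.map h1.continuousAt tendsto_map
    rw [Filter.map_map] at h2
    have h3 : Tendsto ((fun κ : ProbabilityMeasure (Link d → G) =>
        ∫ U, f U ∂(κ : Measure (Link d → G))) ∘ ρ) atTop (𝓝 (ω fun U => f U)) :=
      (hω _ hf).congr fun P => (integral_gibbs μ hW hc hWc1 P _).symm
    have h4 : (𝓝 (∫ U, f U ∂(ν : Measure (Link d → G))) ⊓ 𝓝 (ω fun U => f U)).NeBot :=
      h2.neBot.mono (inf_le_inf_left _ h3)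
    exact eq_of_nhds_neBot h4
  refine ⟨ν, inferInstance, fun A hA => ?_⟩
  obtain ⟨hAm, ⟨a, ha⟩, r, x, hAd⟩ := hA
  have hA' : IsLoc A := ⟨hAm, ⟨a, ha⟩, r, x, hAd⟩
  set S : Set (Link d) := {b | Near r b.1 x} with hS
  set K : ℝ := (max (c' / c) 1) ^ ((2 * (r + 1) + 1) ^ d * (d * d)) with hK
  have hK0 : 0 ≤ K := pow_nonneg (zero_le_one.trans (le_max_right _ _)) _
  set P0 : Measure (Link d → G) := infinitePi fun _ : Link d => μ with hP0
  -- the projection to the links in `S`
  set q : (Link d → G) → Link d → G := fun U b => if b ∈ S then U b else 1 with hq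
  have hqc : Continuous q := by
    refine continuous_pi fun b => ?_
    simp only [hq]
    split_ifs
    · exact continuous_apply b
    · exact continuous_const
  have hqm : Measurable q := hqc.measurable
  have hqd : ∀ F : (Link d → G) → ℝ, DepOn S fun U => F (q U) := by
    intro F U V h
    show F (q U) = F (q V)
    congr 1
    funext b
    simp only [hq]
    split_ifs with hb
    · exact h b hb
    · rfl
  have hAq : ∀ U, A (q U) = A U := fun U => hAd _ _ fun b hb => if_pos hb
  set ν' : Measure (Link d → G) := (ν : Measure (Link d → G)).map q with hν'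
  set lam : Measure (Link d → G) := P0.map q with hlam
  have hν'p : IsProbabilityMeasure ν' := Measure.isProbabilityMeasure_map hqm.aemeasurable
  have hlamp : IsProbabilityMeasure lam := Measure.isProbabilityMeasure_map hqm.aemeasurable
  have hle : ν' ≤ K.toNNReal • lam := by
    refine measure_le_of_lintegral ν' lam _ fun f => ?_
    set g : (Link d → G) →ᵇ ℝ := BoundedContinuousFunction.mkOfCompact
      ⟨fun U => (f (q U) : ℝ), NNReal.continuous_coe.comp (f.continuous.comp hqc)⟩ with hg
    have hgl : IsLoc fun U => g U := by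
      refine ⟨g.continuous.measurable, ⟨‖g‖, fun U => g.norm_coe_le_norm U⟩, r, x, ?_⟩
      exact hqd fun U => (f U : ℝ)
    have hg0 : ∀ U, 0 ≤ g U := fun U => NNReal.coe_nonneg _
    have h1 : ∫ U, g U ∂(ν : Measure (Link d → G)) ≤ K * ∫ U, g U ∂P0 := by
      rw [hcont g hgl]
      refine le_of_tendsto (hω _ hgl) (.of_forall fun P => ?_)
      exact expect_le μ hW hc hWc r x P hgl.bm hg0 (hqd fun U => (f U : ℝ))
    have h2 : ∫⁻ x, f x ∂ν' = ENNReal.ofReal (∫ U, g U ∂(ν : Measure (Link d → G))) := by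
      rw [hν', lintegral_map f.continuous.measurable.coe_nnreal_ennreal hqm,
        ofReal_integral_eq_lintegral_ofReal (g.integrable _) (.of_forall hg0)]
      refine lintegral_congr fun U => ?_
      show (f (q U) : ℝ≥0∞) = ENNReal.ofReal (f (q U) : ℝ)
      rw [ENNReal.ofReal_coe_nnreal]
    have h3 : ∫⁻ x, f x ∂lam = ENNReal.ofReal (∫ U, g U ∂P0) := by
      rw [hlam, lintegral_map f.continuous.measurable.coe_nnreal_ennreal hqm,
        ofReal_integral_eq_lintegral_ofReal (g.integrable _) (.of_forall hg0)]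
      refine lintegral_congr fun U => ?_
      show (f (q U) : ℝ≥0∞) = ENNReal.ofReal (f (q U) : ℝ)
      rw [ENNReal.ofReal_coe_nnreal]
    rw [h2, h3]
    refine (ENNReal.ofReal_le_ofReal h1).trans (le_of_eq ?_)
    rw [ENNReal.ofReal_mul hK0]
    rfl
  -- approximation
  have hAint : ∀ (κ : Measure (Link d → G)) [IsProbabilityMeasure κ], Integrable A κ := by
    intro κ _
    exact Integrable.of_bound hAm.aestronglyMeasurable a (.of_forall ha)
  have hKK : (K.toNNReal : ℝ) = K := Real.coe_toNNReal K hK0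
  refine eq_of_forall_dist_le fun ε hε => ?_
  obtain ⟨f, hf, -⟩ := (hAint lam).exists_boundedContinuous_integral_sub_le
    (ε := ε / (2 * (K + 1))) (by positivity)
  set g : (Link d → G) →ᵇ ℝ := BoundedContinuousFunction.mkOfCompact
    ⟨fun U => f (q U), f.continuous.comp hqc⟩ with hg
  have hgl : IsLoc fun U => g U := by
    refine ⟨g.continuous.measurable, ⟨‖g‖, fun U => g.norm_coe_le_norm U⟩, r, x, hqd f⟩
  have hgA : IsLoc fun U => |A U - g U| := by
    refine ⟨(hAm.sub g.continuous.measurable).abs, ⟨a + ‖g‖, fun U => ?_⟩, r, x, ?_⟩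
    · rw [abs_abs]
      exact (abs_sub _ _).trans (add_le_add (ha U) (g.norm_coe_le_norm U))
    · intro U V h
      have e1 : g U = g V := hqd f U V h
      show |A U - g U| = |A V - g V|
      rw [hAd U V h, e1]
  have hP0int : ∫ U, |A U - g U| ∂P0 ≤ ε / (2 * (K + 1)) := by
    refine le_trans (le_of_eq ?_) hf
    rw [hlam, integral_map hqm.aemeasurable]
    · refine integral_congr_ae (.of_forall fun U => ?_)
      show |A U - f (q U)| = ‖A (q U) - f (q U)‖
      rw [hAq, Real.norm_eq_abs]
    · exact ((hAm.sub f.continuous.measurable).norm).aestronglyMeasurable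
  have hKε : K * (ε / (2 * (K + 1))) ≤ ε / 2 := by
    have e1 : K * (ε / (2 * (K + 1))) = (ε / 2) * (K / (K + 1)) := by
      field_simp
    rw [e1]
    refine mul_le_of_le_one_right (by positivity) ?_
    rw [div_le_one (by positivity)]
    linarith
  -- the measure
  have h1 : |∫ U, A U ∂(ν : Measure (Link d → G)) - ∫ U, g U ∂(ν : Measure (Link d → G))| ≤
      ε / 2 := by
    rw [← integral_sub (hAint _) (g.integrable _)]
    refine abs_integral_le_integral_abs.trans ?_
    have e1 : ∫ U, |A U - g U| ∂(ν : Measure (Link d → G)) = ∫ U, |A U - f U| ∂ν' := by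
      rw [hν', integral_map hqm.aemeasurable]
      · refine integral_congr_ae (.of_forall fun U => ?_)
        show |A U - f (q U)| = |A (q U) - f (q U)|
        rw [hAq]
      · exact ((hAm.sub f.continuous.measurable).abs).aestronglyMeasurable
    have e2 : ∫ U, |A U - f U| ∂ν' ≤ ∫ U, |A U - f U| ∂(K.toNNReal • lam) := by
      refine integral_mono_measure hle (.of_forall fun U => abs_nonneg _) ?_
      have h5 : Integrable (fun U => |A U - f U|) lam :=
        ((hAint lam).sub (f.integrable lam)).abs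
      exact h5.smul_measure_nnreal
    have e3 : ∫ U, |A U - f U| ∂(K.toNNReal • lam) = K * ∫ U, |A U - f U| ∂lam := by
      rw [integral_smul_nnreal_measure]
      show (K.toNNReal : ℝ) * _ = _
      rw [hKK]
    rw [e1]
    refine e2.trans (e3.le.trans (le_trans ?_ hKε))
    exact mul_le_mul_of_nonneg_left hf hK0
  -- the functional
  have h2 : |ω A - ω fun U => g U| ≤ ε / 2 := by
    have e1 : ω A = ω fun U => g U + (A U + (-1) * g U) := by
      congr 1
      funext U
      ring
    have l1 : IsLoc fun U => (-1 : ℝ) * g U := (IsLoc.const (-1)).mul hgl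
    have l2 : IsLoc fun U => A U + (-1) * g U := hA'.add l1
    rw [e1, ω_add hW hω hgl l2, add_sub_cancel_left]
    refine le_of_tendsto (hω _ l2).abs (.of_forall fun P => ?_)
    have h3 : |expect μ W P fun U => A U + (-1) * g U| ≤ expect μ W P fun U => |A U - g U| := by
      have hZ := ZP_pos μ hW hc hWc1 P
      show |(∫ U, (A U + (-1) * g U) * ∏ p ∈ P, W p (hol U p) ∂P0) / ZP μ W P| ≤
        (∫ U, |A U - g U| * ∏ p ∈ P, W p (hol U p) ∂P0) / ZP μ W P
      rw [abs_div, abs_of_pos hZ]
      refine div_le_div_of_nonneg_right ?_ hZ.le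
      refine abs_integral_le_integral_abs.trans (le_of_eq ?_)
      refine integral_congr_ae (.of_forall fun U => ?_)
      show |(A U + (-1) * g U) * ∏ p ∈ P, W p (hol U p)| = |A U - g U| * ∏ p ∈ P, W p (hol U p)
      rw [abs_mul, abs_of_nonneg (Finset.prod_nonneg fun p _ => hW.nn p _)]
      congr 2
      ring
    refine h3.trans ((expect_le μ hW hc hWc r x P hgA.bm (fun U => abs_nonneg _) ?_).trans ?_)
    · intro U V h
      have e1 : g U = g V := hqd f U V h
      show |A U - g U| = |A V - g V|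
      rw [hAd U V h, e1]
    · exact (mul_le_mul_of_nonneg_left hP0int hK0).trans hKε
  rw [hcont g hgl] at h1
  rw [Real.dist_eq]
  rw [abs_le] at *
  constructor <;> linarith

end Pool.Agent.T2h96
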