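import Pool.Agent.T2h96.Main

/-!
# helper96: the infinite volume limit
-/

set_option autoImplicit false
set_option linter.unusedSectionVars false

noncomputable section

namespace Pool.Agent.T2h96

open MeasureTheory Measure Function Filter Classical
open scoped Topology

variable {d : ℕ}

/-- a function of finite sets whose increments are summable converges -/
theorem net_tendsto {ι : Type} (φ : Finset ι → ℝ) (f : ι → ℝ) (hf : Summable f)
    (h : ∀ (P : Finset ι) (q : ι), q ∉ P → |φ (insert q P) - φ P| ≤ f q) :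
    ∃ L : ℝ, Tendsto φ atTop (𝓝 L) := by
  have key : ∀ (s t : Finset ι), Disjoint t s → |φ (s ∪ t) - φ s| ≤ ∑ q ∈ t, f q := by
    intro s t
    induction t using Finset.induction_on with
    | empty => intro _; simp
    | insert q t hq ih =>
      intro hd
      rw [Finset.disjoint_insert_left] at hd
      have h1 := ih hd.2
      have h2 := h (s ∪ t) q (by rw [Finset.mem_union]; exact fun h => h.elim hd.1 hq)
      rw [Finset.union_insert, Finset.sum_insert hq]
      calc |φ (insert q (s ∪ t)) - φ s| =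
            |(φ (insert q (s ∪ t)) - φ (s ∪ t)) + (φ (s ∪ t) - φ s)| := by ring_nf
        _ ≤ _ := (abs_add_le _ _).trans (add_le_add h2 h1)
  refine cauchySeq_tendsto_of_complete (Metric.cauchySeq_iff.2 fun ε hε => ?_)
  obtain ⟨s, hs⟩ := summable_iff_vanishing_norm.1 hf (ε / 2) (half_pos hε)
  have h1 : ∀ P, s ≤ P → |φ P - φ s| < ε / 2 := by
    intro P hP
    have h2 : s ∪ (P \ s) = P := Finset.union_sdiff_of_subset hP
    have h3 := key s (P \ s) Finset.sdiff_disjoint
    rw [h2] at h3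
    have h4 := hs (P \ s) Finset.sdiff_disjoint
    rw [Real.norm_eq_abs] at h4
    exact h3.trans_lt ((le_abs_self _).trans_lt h4)
  refine ⟨s, fun P hP Q hQ => ?_⟩
  rw [Real.dist_eq]
  have h2 := h1 P hP
  have h3 := h1 Q hQ
  rw [abs_lt] at *
  constructor <;> linarith

/-- exponential functions on the lattice are summable -/
theorem summable_plaq (c : ℝ) (hc : 0 < c) (x : Site d) :
    Summable fun q : Plaq d => ∏ k, Real.exp (-c * |(x k : ℝ) - q.x k|) := by
  have hZ : ∀ a : ℤ, Summable fun t : ℤ => Real.exp (-c * |(a : ℝ) - t|) := by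
    intro a
    have h1 : Summable fun t : ℤ => Real.exp (-c * |(t : ℝ)|) := by
      have h2 : Summable fun n : ℕ => Real.exp (-c * (n : ℝ)) := by
        have h3 := summable_geometric_of_lt_one (Real.exp_pos (-c)).le
          (by rw [Real.exp_lt_one_iff]; linarith : Real.exp (-c) < 1)
        refine h3.congr fun n => ?_
        rw [← Real.exp_nat_mul]
        ring_nf
      refine Summable.of_nat_of_neg ?_ ?_
      · simpa using h2
      · simpa using h2
    have h2 := h1.comp_injective (i := fun t : ℤ => a - t) (fun s t hst => by simpa using hst)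
    refine h2.congr fun t => ?_
    simp
  set S : ℝ := ∏ k, ∑' t : ℤ, Real.exp (-c * |(x k : ℝ) - t|) with hS
  refine summable_of_sum_le (c := ((d : ℝ) ^ 2) * S) (fun q => Finset.prod_nonneg fun k _ =>
    (Real.exp_pos _).le) fun u => ?_
  -- the sites of `u`
  have h1 : ∑ q ∈ u, ∏ k, Real.exp (-c * |(x k : ℝ) - q.x k|) =
      ∑ z ∈ u.image (fun q => ((q.i, q.j), q.x)), ∏ k, Real.exp (-c * |(x k : ℝ) - z.2 k|) := by
    rw [Finset.sum_image]
    intro p _ q _ h
    simp only [Prod.mk.injEq] at h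
    exact Plaq.ext h.2 h.1.1 h.1.2
  rw [h1]
  set T : Fin d → Finset ℤ := fun k => u.image fun q => q.x k with hT
  have h2 : u.image (fun q => ((q.i, q.j), q.x)) ⊆
      (Finset.univ : Finset (Fin d × Fin d)) ×ˢ Fintype.piFinset T := by
    intro z hz
    rw [Finset.mem_image] at hz
    obtain ⟨q, hq, rfl⟩ := hz
    rw [Finset.mem_product]
    refine ⟨Finset.mem_univ _, ?_⟩
    rw [Fintype.mem_piFinset]
    exact fun k => Finset.mem_image_of_mem _ hq
  refine (Finset.sum_le_sum_of_subset_of_nonneg h2 fun z _ _ => Finset.prod_nonneg fun k _ =>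
    (Real.exp_pos _).le).trans ?_
  rw [Finset.sum_product]
  simp only [Finset.sum_const, Finset.card_univ, Fintype.card_prod, Fintype.card_fin, nsmul_eq_mul]
  have h3 : ∑ z ∈ Fintype.piFinset T, ∏ k, Real.exp (-c * |(x k : ℝ) - z k|) ≤ S := by
    rw [← Finset.prod_univ_sum T fun k (t : ℤ) => Real.exp (-c * |(x k : ℝ) - t|)]
    refine Finset.prod_le_prod (fun k _ => Finset.sum_nonneg fun t _ => (Real.exp_pos _).le)
      fun k _ => ?_
    exact (hZ (x k)).sum_le_tsum _ fun t _ => (Real.exp_pos _).le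
  have h4 := mul_le_mul_of_nonneg_left h3 (by positivity : (0 : ℝ) ≤ (d : ℝ) ^ 2)
  refine le_trans (le_of_eq ?_) h4
  push_cast
  ring

variable {G : Type} [Group G] [TopologicalSpace G] [IsTopologicalGroup G]
  [CompactSpace G] [T2Space G] [SecondCountableTopology G] [MeasurableSpace G] [BorelSpace G]
  (μ : Measure G) [μ.IsHaarMeasure] [IsProbabilityMeasure μ]

/-- the effect of one more plaquette -/
theorem expect_insert {W : Plaq d → G → ℝ} (hW : WOK W) (c : ℝ) (hc : 0 < c)
    (hWc : ∀ p g, c ≤ W p g) (P : Finset (Plaq d)) (q : Plaq d) (hq : q ∉ P)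
    {A : (Link d → G) → ℝ} (hA : BM A) :
    |expect μ W (insert q P) A - expect μ W P A| ≤
      c⁻¹ * |expect μ W P (fun U => A U * W q (hol U q)) -
        expect μ W P A * expect μ W P (fun U => W q (hol U q))| := by
  set ω : (Link d → G) → ℝ := fun U => ∏ p ∈ P, W p (hol U p) with hω
  have hWbm : ∀ p, BM fun U : Link d → G => W p (hol U p) := by
    intro p
    obtain ⟨C, hC⟩ := hW.bdd p
    exact ⟨(hW.meas p).comp (meas_hol p), C, fun U => by
      rw [abs_of_nonneg (hW.nn p _)]; exact hC _⟩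
  have hωbm : BM ω := BM.prod P fun p _ => hWbm p
  set Z := ∫ U, ω U ∂(infinitePi fun _ : Link d => μ) with hZ
  set NA := ∫ U, A U * ω U ∂(infinitePi fun _ : Link d => μ) with hNA
  set NW := ∫ U, W q (hol U q) * ω U ∂(infinitePi fun _ : Link d => μ) with hNW
  set NAW := ∫ U, A U * W q (hol U q) * ω U ∂(infinitePi fun _ : Link d => μ) with hNAW
  have hZpos : 0 < Z := by
    have h1 : (∫ _U : Link d → G, c ^ P.card ∂(infinitePi fun _ : Link d => μ)) ≤ Z := by
      refine integral_mono (integrable_const _) (hωbm.integrable μ) fun U => ?_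
      rw [← Finset.prod_const]
      exact Finset.prod_le_prod (fun _ _ => hc.le) fun p _ => hWc p _
    rw [integral_const] at h1
    simp only [probReal_univ, one_smul] at h1
    exact (pow_pos hc _).trans_le h1
  have hω0 : ∀ U, 0 ≤ ω U := fun U => Finset.prod_nonneg fun p _ => hW.nn p _
  have hNWge : c * Z ≤ NW := by
    rw [hZ, ← integral_const_mul]
    refine integral_mono ((hωbm.integrable μ).const_mul _) (((hWbm q).mul hωbm).integrable μ)
      fun U => ?_
    exact mul_le_mul_of_nonneg_right (hWc q _) (hω0 U)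
  have hNWpos : 0 < NW := (mul_pos hc hZpos).trans_le hNWge
  have hE1 : expect μ W (insert q P) A = NAW / NW := by
    unfold expect
    simp only [Finset.prod_insert hq]
    rw [hNAW, hNW]
    congr 1
    refine integral_congr_ae (.of_forall fun U => ?_)
    show A U * (W q (hol U q) * ω U) = A U * W q (hol U q) * ω U
    ring
  have hE2 : expect μ W P A = NA / Z := rfl
  have hE3 : expect μ W P (fun U => A U * W q (hol U q)) = NAW / Z := rfl
  have hE4 : expect μ W P (fun U => W q (hol U q)) = NW / Z := rfl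
  rw [hE1, hE2, hE3, hE4]
  have h1 : NAW / NW - NA / Z = (Z / NW) * (NAW / Z - NA / Z * (NW / Z)) := by
    field_simp
  rw [h1, abs_mul, abs_of_pos (div_pos hZpos hNWpos)]
  refine mul_le_mul_of_nonneg_right ?_ (abs_nonneg _)
  rw [div_le_iff₀ hNWpos, inv_mul_eq_div, le_div_iff₀ hc]
  linarith

/-- Exponential decay of the correlations of the expectation functional `ω` at the rate `m`, in the
distance `|x k - y k|` in every direction `k`, with the constant `C r` for observables which depend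
on the links based in cubes of half side `r` around `x` and `y`. -/
def Clusters (m : ℝ) (C : ℕ → ℝ) (ω : ((Link d → G) → ℝ) → ℝ) : Prop :=
  ∀ (r : ℕ) (x y : Site d) (A A' : (Link d → G) → ℝ) (a a' : ℝ), Measurable A → Measurable A' →
    (∀ U, |A U| ≤ a) → (∀ U, |A' U| ≤ a') → DepOn {b | Near r b.1 x} A →
    DepOn {b | Near r b.1 y} A' → ∀ k : Fin d,
    |ω (fun U => A U * A' U) - ω A * ω A'| ≤
      C r * a * a' * Real.exp (-m * |(x k : ℝ) - y k|)

/-- bounded measurable functions of finitely many links -/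
def IsLoc (A : (Link d → G) → ℝ) : Prop :=
  Measurable A ∧ (∃ a : ℝ, ∀ U, |A U| ≤ a) ∧
    ∃ (r : ℕ) (x : Site d), DepOn {b | Near r b.1 x} A

theorem IsLoc.mul {A A' : (Link d → G) → ℝ} (hA : IsLoc A) (hA' : IsLoc A') :
    IsLoc fun U => A U * A' U := by
  obtain ⟨hm, ⟨a, ha⟩, r, x, hd⟩ := hA
  obtain ⟨hm', ⟨a', ha'⟩, r', x', hd'⟩ := hA'
  have h := BM.mul ⟨hm, a, ha⟩ ⟨hm', a', ha'⟩
  refine ⟨h.meas, h.bdd, ?_⟩
  set T : ℕ := ∑ k, (x k - x' k).natAbs with hT
  have hxx : ∀ k, |x k - x' k| ≤ T := by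
    intro k
    rw [Int.abs_eq_natAbs]
    exact_mod_cast Finset.single_le_sum (f := fun k => (x k - x' k).natAbs)
      (fun _ _ => Nat.zero_le _) (Finset.mem_univ k)
  refine ⟨r + r' + T, x, DepOn.mul (hd.mono fun b hb => ?_) (hd'.mono fun b hb => ?_)⟩
  · have h1 : Near r b.1 x := hb
    refine h1.mono ?_
    push_cast
    omega
  · have h1 : Near r' b.1 x' := hb
    have h2 : Near (T : ℤ) x' x := fun k => by
      rw [abs_sub_comm]; exact hxx k
    refine (h1.trans h2).mono ?_
    push_cast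
    omega

theorem exists_limit {m : ℝ} (hm : 0 < m) {C : ℕ → ℝ} {W : Plaq d → G → ℝ} (hW : WOK W)
    (hcl : ∀ P : Finset (Plaq d), Clusters m C (expect μ W P))
    (c c' : ℝ) (hc : 0 < c) (hWc : ∀ p g, c ≤ W p g ∧ W p g ≤ c')
    {A : (Link d → G) → ℝ} (hA : IsLoc A) :
    ∃ L : ℝ, Tendsto (fun P => expect μ W P A) atTop (𝓝 L) := by
  obtain ⟨hAm, ⟨a, ha⟩, r, x, hAd⟩ := hA
  rcases Nat.eq_zero_or_pos d with hd | hd
  · subst hd
    exact net_tendsto _ (fun _ => 0) summable_zero fun P q _ => q.i.elim0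
  have hd' : (0 : ℝ) < d := by exact_mod_cast hd
  set r' : ℕ := max r 1 with hr'
  have hrr' : (r : ℤ) ≤ r' := by exact_mod_cast le_max_left r 1
  have h1r' : (1 : ℤ) ≤ r' := by exact_mod_cast le_max_right r 1
  refine net_tendsto _ (fun q => c⁻¹ * (C r' * a * c') *
    ∏ k, Real.exp (-(m / d) * |(x k : ℝ) - q.x k|))
    ((summable_plaq (m / d) (div_pos hm hd') x).mul_left _) fun P q hq => ?_
  refine (expect_insert μ hW c hc (fun p g => (hWc p g).1) P q hq ⟨hAm, a, ha⟩).trans ?_
  have hWq : Measurable fun U : Link d → G => W q (hol U q) := (hW.meas q).comp (meas_hol q)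
  have hWqb : ∀ U : Link d → G, |W q (hol U q)| ≤ c' := fun U => by
    rw [abs_of_nonneg (hW.nn q _)]; exact (hWc q _).2
  have hWqd : DepOn {b : Link d | Near r' b.1 q.x} fun U : Link d → G => W q (hol U q) := by
    intro U V h
    show W q (hol U q) = W q (hol V q)
    rw [hol_dep q fun b hb => h b ?_]
    have h1 : Near 1 b.1 q.x := by
      rcases bd_base (Or.inl ⟨rfl, rfl⟩ : Pl q.i q.j q) hb with h | h | h <;> rw [h]
      · exact near_self (by norm_num) _
      · exact near_e _ _
      · exact near_e _ _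
    exact h1.mono h1r'
  have hAd' : DepOn {b : Link d | Near r' b.1 x} A := hAd.mono fun b hb => by
    have h1 : Near r b.1 x := hb
    exact h1.mono hrr'
  have hcov := hcl P r' x q.x A (fun U => W q (hol U q)) a c' hAm hWq ha hWqb hAd' hWqd
  have hK : 0 ≤ C r' * a * c' := by
    have h1 := (abs_nonneg _).trans (hcov ⟨0, hd⟩)
    exact nonneg_of_mul_nonneg_left h1 (Real.exp_pos _)
  rw [mul_assoc]
  refine mul_le_mul_of_nonneg_left ?_ (inv_nonneg.2 hc.le)
  -- the direction of the largest distance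
  haveI : Nonempty (Fin d) := ⟨⟨0, hd⟩⟩
  obtain ⟨k, hk⟩ := Finite.exists_max fun k : Fin d => |(x k : ℝ) - q.x k|
  refine (hcov k).trans (mul_le_mul_of_nonneg_left ?_ hK)
  rw [← Real.exp_sum]
  refine Real.exp_le_exp.2 ?_
  rw [← Finset.mul_sum]
  have h1 : ∑ j : Fin d, |(x j : ℝ) - q.x j| ≤ d * |(x k : ℝ) - q.x k| := by
    refine (Finset.sum_le_card_nsmul _ _ _ fun j _ => hk j).trans (le_of_eq ?_)
    rw [Finset.card_univ, Fintype.card_fin, nsmul_eq_mul]
  have h2 : m / d * ∑ j : Fin d, |(x j : ℝ) - q.x j| ≤ m * |(x k : ℝ) - q.x k| := by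
    calc _ ≤ m / d * (d * |(x k : ℝ) - q.x k|) :=
          mul_le_mul_of_nonneg_left h1 (div_pos hm hd').le
      _ = _ := by field_simp
  linarith

/-- the infinite volume expectations -/
theorem exists_state {m : ℝ} (hm : 0 < m) {C : ℕ → ℝ} {W : Plaq d → G → ℝ} (hW : WOK W)
    (hcl : ∀ P : Finset (Plaq d), Clusters m C (expect μ W P))
    (c c' : ℝ) (hc : 0 < c) (hWc : ∀ p g, c ≤ W p g ∧ W p g ≤ c') :
    ∃ ω : ((Link d → G) → ℝ) → ℝ, (∀ A, IsLoc A →
      Tendsto (fun P => expect μ W P A) atTop (𝓝 (ω A))) ∧ Clusters m C ω := by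
  have h : ∀ A : (Link d → G) → ℝ, ∃ L : ℝ, IsLoc A →
      Tendsto (fun P => expect μ W P A) atTop (𝓝 L) := by
    intro A
    by_cases hA : IsLoc A
    · obtain ⟨L, hL⟩ := exists_limit μ hm hW hcl c c' hc hWc hA
      exact ⟨L, fun _ => hL⟩
    · exact ⟨0, fun h => absurd h hA⟩
  choose ω hω using h
  refine ⟨ω, hω, ?_⟩
  intro r x y A A' a a' hA hA' ha ha' hd hd' k
  have hl : IsLoc A := ⟨hA, ⟨a, ha⟩, r, x, hd⟩
  have hl' : IsLoc A' := ⟨hA', ⟨a', ha'⟩, r, y, hd'⟩
  have h1 := hω _ (hl.mul hl')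
  have h2 := hω _ hl
  have h3 := hω _ hl'
  refine le_of_tendsto (h1.sub (h2.mul h3)).abs (.of_forall fun P => ?_)
  exact hcl P r x y A A' a a' hA hA' ha ha' hd hd' k

end Pool.Agent.T2h96
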