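import Pool.Agent.T2h96.Forest

/-!
# helper96: choice of the constants, mass gap for the forest couplings
-/

set_option autoImplicit false
set_option linter.unusedSectionVars false

noncomputable section

namespace Pool.Agent.T2h96

open MeasureTheory Measure Function Classical

variable {d : ℕ}

/-- Admissible plaquette weights: no bound for the planes of the isolated edges of `F`, the bound
`exp (-B) ≤ W ≤ exp B` for the planes of the other edges of `F`, and `exp (-ε) ≤ W ≤ exp ε` for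
all other planes. -/
structure Adm {G : Type} [MeasurableSpace G] (F : SimpleGraph (Fin d)) (B ε : ℝ)
    (W : Plaq d → G → ℝ) : Prop where
  meas : ∀ p, Measurable (W p)
  nonneg : ∀ p g, 0 ≤ W p g
  bdd : ∀ p, ∃ C : ℝ, ∀ g, W p g ≤ C
  strong : ∀ p, F.Adj p.i p.j → ¬ Iso F p.i p.j → ∀ g,
    Real.exp (-B) ≤ W p g ∧ W p g ≤ Real.exp B
  weak : ∀ p, ¬ F.Adj p.i p.j → ∀ g, Real.exp (-ε) ≤ W p g ∧ W p g ≤ Real.exp ε

/-- the small parameter of the percolation estimate -/
def th (d : ℕ) : ℝ := (4 * 9 ^ d)⁻¹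

theorem th_pos (d : ℕ) : 0 < th d := by unfold th; positivity

theorem exists_consts (d : ℕ) (b : ℝ) (hb : 0 ≤ b) : ∃ l : ℕ, 0 < l ∧ ∃ ε : ℝ, 0 < ε ∧
    (d ^ 2 * l ^ d : ℝ) * (1 - Real.exp (-(4 * ε))) +
      (d * l ^ d : ℝ) * (1 - Real.exp (-(4 * b))) ^ l ≤ th d ^ K0 d := by
  have hη : 0 < th d ^ K0 d := pow_pos (th_pos d) _
  set η := th d ^ K0 d with hηdef
  have h0 : (0 : ℝ) ≤ 1 - Real.exp (-(4 * b)) := by
    have : Real.exp (-(4 * b)) ≤ 1 := Real.exp_le_one_iff.2 (by linarith)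
    linarith
  have h1 : 1 - Real.exp (-(4 * b)) < 1 := by
    have := Real.exp_pos (-(4 * b))
    linarith
  have hlim := (tendsto_pow_const_mul_const_pow_of_lt_one d h0 h1).const_mul (d : ℝ)
  rw [mul_zero] at hlim
  obtain ⟨l, hl1, hl2⟩ := ((hlim.eventually (gt_mem_nhds (half_pos hη))).and
    (Filter.eventually_gt_atTop 0)).exists
  refine ⟨l, hl2, η / (8 * (d ^ 2 * l ^ d + 1)), by positivity, ?_⟩
  set c : ℝ := d ^ 2 * l ^ d with hc
  have hc0 : 0 ≤ c := by positivity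
  have h2 : 1 - Real.exp (-(4 * (η / (8 * (c + 1))))) ≤ 4 * (η / (8 * (c + 1))) := by
    have := Real.add_one_le_exp (-(4 * (η / (8 * (c + 1)))))
    linarith
  have h3 : c * (1 - Real.exp (-(4 * (η / (8 * (c + 1)))))) ≤ η / 2 := by
    refine (mul_le_mul_of_nonneg_left h2 hc0).trans ?_
    have h4 : c * (4 * (η / (8 * (c + 1)))) = (η / 2) * (c / (c + 1)) := by
      field_simp
      ring
    rw [h4]
    refine mul_le_of_le_one_right (by positivity) ?_
    rw [div_le_one (by positivity)]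
    linarith
  have h5 : (d * l ^ d : ℝ) * (1 - Real.exp (-(4 * b))) ^ l =
      d * ((l : ℝ) ^ d * (1 - Real.exp (-(4 * b))) ^ l) := by ring
  linarith

theorem near_bl_of {l : ℕ} (hl : 0 < l) {r : ℕ} {x y : Site d} (h : Near r x y) :
    Near r (bl l x) (bl l y) := by
  intro k
  have hl' : (0 : ℤ) < l := by exact_mod_cast hl
  have h1 := h k
  rw [abs_le] at h1
  have key : ∀ a b : ℤ, a ≤ b + r → a / l ≤ b / l + r := by
    intro a b hab
    have h2 : a / l ≤ (b + r * l) / l := Int.ediv_le_ediv hl' (by nlinarith)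
    rwa [Int.add_mul_ediv_right _ _ hl'.ne'] at h2
  have h3 := key (x k) (y k) (by omega)
  have h4 := key (y k) (x k) (by omega)
  show |x k / l - y k / l| ≤ r
  rw [abs_le]
  omega

theorem bl_dist {l : ℕ} (hl : 0 < l) (x y : Site d) (k : Fin d) :
    |x k - y k| ≤ l * |bl l y k - bl l x k| + l := by
  have hl' : (0 : ℤ) < l := by exact_mod_cast hl
  show |x k - y k| ≤ l * |y k / l - x k / l| + l
  have h1 := Int.mul_ediv_add_emod (x k) l
  have h2 := Int.mul_ediv_add_emod (y k) l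
  have h3 := Int.emod_nonneg (x k) hl'.ne'
  have h4 := Int.emod_nonneg (y k) hl'.ne'
  have h5 := Int.emod_lt_of_pos (x k) hl'
  have h6 := Int.emod_lt_of_pos (y k) hl'
  have h7 : x k - y k = l * (x k / l - y k / l) + (x k % l - y k % l) := by
    linear_combination h2 - h1
  rw [h7, abs_sub_comm (y k / l : ℤ)]
  refine (abs_add_le _ _).trans (add_le_add (le_of_eq ?_) ?_)
  · rw [abs_mul, abs_of_pos hl']
  · rw [abs_le]
    omega

theorem forest_gap (d : ℕ) (B : ℝ) : ∃ ε : ℝ, 0 < ε ∧ ∃ m : ℝ, 0 < m ∧ ∀ r : ℕ, ∃ C : ℝ,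
    0 ≤ C ∧ ∀ F : SimpleGraph (Fin d), F.IsAcyclic →
    ∀ (G : Type) [Group G] [TopologicalSpace G] [IsTopologicalGroup G] [CompactSpace G]
      [T2Space G] [SecondCountableTopology G] [MeasurableSpace G] [BorelSpace G]
      (μ : Measure G) [μ.IsHaarMeasure] [IsProbabilityMeasure μ] (W : Plaq d → G → ℝ),
      Adm F B ε W → ∀ (P : Finset (Plaq d)) (x y : Site d) (A A' : (Link d → G) → ℝ),
      Measurable A → Measurable A' → ∀ a a' : ℝ, (∀ U, |A U| ≤ a) → (∀ U, |A' U| ≤ a') →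
      DepOn {b | Near r b.1 x} A → DepOn {b | Near r b.1 y} A' → ∀ k : Fin d,
      |expect μ W P (fun U => A U * A' U) - expect μ W P A * expect μ W P A'| ≤
        C * a * a' * Real.exp (-m * |(x k : ℝ) - y k|) := by
  set b := max B 0 with hb
  have hb0 : 0 ≤ b := le_max_right _ _
  have hBb : B ≤ b := le_max_left _ _
  obtain ⟨l, hl, ε, hε, hcst⟩ := exists_consts d b hb0
  have hl' : (0 : ℝ) < l := by exact_mod_cast hl
  refine ⟨ε, hε, Real.log 2 / l, div_pos (Real.log_pos (by norm_num)) hl', fun r => ?_⟩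
  set K : ℝ := (th d ^ (K0 d * (2 * (2 * r + 1) ^ d)))⁻¹ with hK
  have hK0 : 0 ≤ K := inv_nonneg.2 (pow_nonneg (th_pos d).le _)
  refine ⟨4 * K, by positivity, ?_⟩
  intro F hF G _ _ _ _ _ _ _ _ μ _ _ W hW P x y A A' hA hA' na na' hna hna' hAd hAd' k
  obtain ⟨D, hDF, hDM⟩ := exists_dir F hF
  have hWOK : WOK W := ⟨hW.meas, hW.nonneg, hW.bdd⟩
  -- the bounds of the weights
  have hstrong : ∀ p, D.FP p.i p.j → ∀ g, Real.exp (-b) ≤ W p g ∧ W p g ≤ Real.exp b := by
    intro p hp g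
    rw [hDF] at hp
    obtain ⟨h1, h2⟩ := hW.strong p hp.1 hp.2 g
    exact ⟨(Real.exp_le_exp.2 (by linarith)).trans h1, h2.trans (Real.exp_le_exp.2 hBb)⟩
  have hweak : ∀ p, ¬ D.MP p.i p.j → ¬ D.FP p.i p.j → ∀ g,
      Real.exp (-ε) ≤ W p g ∧ W p g ≤ Real.exp ε := by
    intro p hM hFP g
    rw [hDF] at hFP
    rw [hDM] at hM
    refine hW.weak p (fun h => ?_) g
    exact hFP ⟨h, hM⟩
  set ρ1 : ℝ := 1 - Real.exp (-(4 * ε)) with hρ1
  set ρ2 : ℝ := 1 - Real.exp (-(4 * b)) with hρ2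
  have hρ10 : 0 ≤ ρ1 := by
    have : Real.exp (-(4 * ε)) ≤ 1 := Real.exp_le_one_iff.2 (by linarith)
    linarith
  have hρ20 : 0 ≤ ρ2 := by
    have : Real.exp (-(4 * b)) ≤ 1 := Real.exp_le_one_iff.2 (by linarith)
    linarith
  have hρ21 : ρ2 ≤ 1 := by
    have := Real.exp_pos (-(4 * b))
    linarith
  set a : Plaq d → ℝ := fun p => if D.MP p.i p.j then 0 else
    if D.FP p.i p.j then Real.exp (-(2 * b)) else Real.exp (-(2 * ε)) with ha
  set ρ : Plaq d → ℝ := fun p => if D.MP p.i p.j then 1 else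
    if D.FP p.i p.j then ρ2 else ρ1 with hρ
  have hlow : ∀ (c : ℝ) (s t : ℝ), Real.exp (-c) ≤ s → Real.exp (-c) ≤ t →
      Real.exp (-(2 * c)) ≤ s * t := by
    intro c s t hs ht
    have h1 : Real.exp (-(2 * c)) = Real.exp (-c) * Real.exp (-c) := by
      rw [← Real.exp_add]
      congr 1
      ring
    rw [h1]
    exact mul_le_mul hs ht (Real.exp_pos _).le ((Real.exp_pos _).le.trans hs)
  have hupp : ∀ (c : ℝ) (s t : ℝ), 0 ≤ s → 0 ≤ t → s ≤ Real.exp c → t ≤ Real.exp c →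
      s * t - Real.exp (-(2 * c)) ≤ (1 - Real.exp (-(4 * c))) * (s * t) := by
    intro c s t hs0 ht0 hs ht
    have h1 : Real.exp (-(2 * c)) = Real.exp (-(4 * c)) * (Real.exp c * Real.exp c) := by
      rw [← Real.exp_add, ← Real.exp_add]
      congr 1
      ring
    have h2 : s * t ≤ Real.exp c * Real.exp c := mul_le_mul hs ht ht0 (Real.exp_pos _).le
    have h3 := mul_le_mul_of_nonneg_left h2 (Real.exp_pos (-(4 * c))).le
    rw [h1]
    linarith
  have ha0 : ∀ p, 0 ≤ a p := by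
    intro p
    simp only [ha]
    split_ifs
    exacts [le_rfl, (Real.exp_pos _).le, (Real.exp_pos _).le]
  have hale : ∀ p g g', a p ≤ W p g * W p g' := by
    intro p g g'
    simp only [ha]
    split_ifs with h1 h2
    · exact mul_nonneg (hW.nonneg _ _) (hW.nonneg _ _)
    · exact hlow b _ _ (hstrong p h2 g).1 (hstrong p h2 g').1
    · exact hlow ε _ _ (hweak p h1 h2 g).1 (hweak p h1 h2 g').1
  have hρle : ∀ p g g', W p g * W p g' - a p ≤ ρ p * (W p g * W p g') := by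
    intro p g g'
    simp only [ha, hρ]
    split_ifs with h1 h2
    · linarith
    · exact hupp b _ _ (hW.nonneg _ _) (hW.nonneg _ _) (hstrong p h2 g).2 (hstrong p h2 g').2
    · exact hupp ε _ _ (hW.nonneg _ _) (hW.nonneg _ _) (hweak p h1 h2 g).2 (hweak p h1 h2 g').2
  have hρ0 : ∀ p, 0 ≤ ρ p := by
    intro p
    simp only [hρ]
    split_ifs
    exacts [zero_le_one, hρ20, hρ10]
  have haM : ∀ p : Plaq d, D.MP p.i p.j → a p = 0 := fun p hp => by
    simp only [ha, if_pos hp]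
  have hθ1 : th d * (4 * 9 ^ d) ≤ 1 := by
    unfold th
    rw [inv_mul_cancel₀ (by positivity)]
  have hcause : ∀ c, ∑ C ∈ causes D l (P.filter fun p => ¬ D.MP p.i p.j) c, ∏ p ∈ C, ρ p ≤
      th d ^ K0 d := by
    intro c
    refine (sum_causes D hl _ c ρ ρ1 ρ2 hρ0 ?_ ?_ hρ10 hρ20 hρ21).trans hcst
    · intro p hp hF'
      rw [Finset.mem_filter] at hp
      simp only [hρ, if_neg hp.2, if_neg hF']
      exact le_rfl
    · intro p hp hF'
      rw [Finset.mem_filter] at hp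
      simp only [hρ, if_neg hp.2, if_pos hF']
      exact le_rfl
  have hmain := cov_bound μ D hl hWOK a ρ ha0 hale hρle hρ0 haM (th d) (th_pos d) hθ1 P hcause
    r (bl l x) (bl l y) k hA hA' na na' hna hna'
    (hAd.mono fun c hc => near_bl_of hl hc) (hAd'.mono fun c hc => near_bl_of hl hc)
  have hna0 : 0 ≤ na := (abs_nonneg _).trans (hna fun _ => 1)
  have hna'0 : 0 ≤ na' := (abs_nonneg _).trans (hna' fun _ => 1)
  refine hmain.trans ?_
  -- the distance
  set N := |bl l y k - bl l x k| with hN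
  have hNn : ((N.toNat : ℕ) : ℝ) = (N : ℝ) := by
    have : ((N.toNat : ℕ) : ℤ) = N := Int.toNat_of_nonneg (abs_nonneg _)
    exact_mod_cast this
  have hd1 : |(x k : ℝ) - y k| ≤ l * (N : ℝ) + l := by
    have := bl_dist hl x y k
    exact_mod_cast this
  have hlog : 0 < Real.log 2 := Real.log_pos (by norm_num)
  have hpow : (1 / 2 : ℝ) ^ N.toNat ≤ 2 * Real.exp (-(Real.log 2 / l) * |(x k : ℝ) - y k|) := by
    have h1 : (1 / 2 : ℝ) ^ N.toNat = Real.exp (-(Real.log 2 * N)) := by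
      rw [one_div, inv_pow, Real.exp_neg, ← hNn, mul_comm, Real.exp_nat_mul,
        Real.exp_log (by norm_num)]
    have h2 : (2 : ℝ) * Real.exp (-(Real.log 2 / l) * |(x k : ℝ) - y k|) =
        Real.exp (Real.log 2 + -(Real.log 2 / l) * |(x k : ℝ) - y k|) := by
      rw [Real.exp_add, Real.exp_log (by norm_num)]
    rw [h1, h2]
    refine Real.exp_le_exp.2 ?_
    have h3 : Real.log 2 / l * |(x k : ℝ) - y k| ≤ Real.log 2 * (N + 1) := by
      rw [div_mul_eq_mul_div, div_le_iff₀ hl']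
      nlinarith [mul_le_mul_of_nonneg_left hd1 hlog.le]
    linarith
  calc 2 * na * na' * ((1 / 2) ^ N.toNat * K) ≤
        2 * na * na' * ((2 * Real.exp (-(Real.log 2 / l) * |(x k : ℝ) - y k|)) * K) := by
        refine mul_le_mul_of_nonneg_left (mul_le_mul_of_nonneg_right hpow hK0) (by positivity)
    _ = _ := by ring

end Pool.Agent.T2h96
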