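import Mathlib

/-!
# helper96: integration over products of copies of a probability space

Resampling of one coordinate, factorisation over disjoint sets of coordinates, exchange of two
replicas.
-/

set_option autoImplicit false
set_option linter.unusedSectionVars false

noncomputable section

namespace Pool.Agent.T2h96

open MeasureTheory Measure ProbabilityTheory

variable {L Ω : Type} [MeasurableSpace Ω]

/-- `F` depends only on the coordinates in `S`. -/
def DepOn (S : Set L) (F : (L → Ω) → ℝ) : Prop :=
  ∀ U V : L → Ω, (∀ l ∈ S, U l = V l) → F U = F V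

theorem DepOn.mono {S T : Set L} {F : (L → Ω) → ℝ} (h : DepOn S F) (hST : S ⊆ T) :
    DepOn T F := fun U V hUV => h U V fun l hl => hUV l (hST hl)

theorem DepOn.mul {S : Set L} {F G : (L → Ω) → ℝ} (hF : DepOn S F) (hG : DepOn S G) :
    DepOn S (fun U => F U * G U) := fun U V hUV => by
  show F U * G U = F V * G V
  rw [hF U V hUV, hG U V hUV]

theorem DepOn.prod {S : Set L} {ι : Type} (s : Finset ι) {F : ι → (L → Ω) → ℝ}
    (hF : ∀ i ∈ s, DepOn S (F i)) : DepOn S (fun U => ∏ i ∈ s, F i U) := fun U V hUV =>
  Finset.prod_congr rfl fun i hi => hF i hi U V hUV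

theorem DepOn.update [DecidableEq L] {S : Set L} {F : (L → Ω) → ℝ} (hF : DepOn S F) {e : L}
    (he : e ∉ S) (U : L → Ω) (v : Ω) : F (Function.update U e v) = F U :=
  hF _ _ fun l hl => Function.update_of_ne (by rintro rfl; exact he hl) _ _

/-- bounded measurable functions -/
structure BM (F : (L → Ω) → ℝ) : Prop where
  meas : Measurable F
  bdd : ∃ C : ℝ, ∀ U, |F U| ≤ C

theorem BM.mul {F G : (L → Ω) → ℝ} (hF : BM F) (hG : BM G) : BM fun U => F U * G U := by
  obtain ⟨C, hC⟩ := hF.bdd
  obtain ⟨D, hD⟩ := hG.bdd
  refine ⟨hF.meas.mul hG.meas, C * D, fun U => ?_⟩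
  rw [abs_mul]
  exact mul_le_mul (hC U) (hD U) (abs_nonneg _) ((abs_nonneg _).trans (hC U))

theorem BM.const (c : ℝ) : BM fun _ : L → Ω => c := ⟨measurable_const, |c|, fun _ => le_rfl⟩

theorem BM.sub {F G : (L → Ω) → ℝ} (hF : BM F) (hG : BM G) : BM fun U => F U - G U := by
  obtain ⟨C, hC⟩ := hF.bdd
  obtain ⟨D, hD⟩ := hG.bdd
  exact ⟨hF.meas.sub hG.meas, C + D, fun U => (abs_sub _ _).trans (add_le_add (hC U) (hD U))⟩

theorem BM.prod {ι : Type} (s : Finset ι) {F : ι → (L → Ω) → ℝ} (hF : ∀ i ∈ s, BM (F i)) :
    BM fun U => ∏ i ∈ s, F i U := by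
  classical
  induction s using Finset.induction_on with
  | empty => simpa using BM.const (L := L) (Ω := Ω) 1
  | insert a s ha ih =>
    simp only [Finset.prod_insert ha]
    exact (hF a (Finset.mem_insert_self a s)).mul
      (ih fun i hi => hF i (Finset.mem_insert_of_mem hi))

variable (ν : Measure Ω) [IsProbabilityMeasure ν]

theorem BM.integrable {F : (L → Ω) → ℝ} (hF : BM F) :
    Integrable F (infinitePi fun _ : L => ν) := by
  obtain ⟨C, hC⟩ := hF.bdd
  exact Integrable.of_bound hF.meas.aestronglyMeasurable C (.of_forall hC)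

/-- resampling one coordinate preserves the product measure -/
theorem mp_update [DecidableEq L] (e : L) :
    MeasurePreserving (fun p : (L → Ω) × Ω => Function.update p.1 e p.2)
      ((infinitePi fun _ : L => ν).prod ν) (infinitePi fun _ : L => ν) := by
  have hm : Measurable fun p : (L → Ω) × Ω => Function.update p.1 e p.2 := by
    refine measurable_pi_iff.2 fun l => ?_
    by_cases h : l = e
    · subst h
      simpa using measurable_snd
    · simp only [Function.update_of_ne h]
      exact (measurable_pi_apply l).comp measurable_fst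
  refine ⟨hm, eq_infinitePi _ fun s t ht => ?_⟩
  rw [map_apply hm (.pi s.countable_toSet fun _ _ => ht _)]
  by_cases he : e ∈ s
  · have hset : (fun p : (L → Ω) × Ω => Function.update p.1 e p.2) ⁻¹' ((s : Set L).pi t) =
        ((s.erase e : Finset L) : Set L).pi t ×ˢ t e := by
      ext p
      simp only [Set.mem_preimage, Set.mem_pi, Finset.mem_coe, Set.mem_prod, Finset.mem_erase]
      constructor
      · intro h
        refine ⟨fun l hl => ?_, ?_⟩
        · have := h l hl.2
          rwa [Function.update_of_ne hl.1] at this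
        · have := h e he
          rwa [Function.update_self] at this
      · rintro ⟨h1, h2⟩ l hl
        by_cases hle : l = e
        · subst hle
          rwa [Function.update_self]
        · rw [Function.update_of_ne hle]
          exact h1 l ⟨hle, hl⟩
    rw [hset, prod_prod, infinitePi_pi _ (fun i _ => ht i), mul_comm,
      Finset.mul_prod_erase s (fun i => ν (t i)) he]
  · have hset : (fun p : (L → Ω) × Ω => Function.update p.1 e p.2) ⁻¹' ((s : Set L).pi t) =
        (s : Set L).pi t ×ˢ Set.univ := by
      ext p
      simp only [Set.mem_preimage, Set.mem_pi, Finset.mem_coe, Set.mem_prod, Set.mem_univ,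
        and_true]
      refine forall₂_congr fun l hl => ?_
      rw [Function.update_of_ne (by rintro rfl; exact he hl)]
    rw [hset, prod_prod, infinitePi_pi _ (fun i _ => ht i), measure_univ, mul_one]

theorem integral_update [DecidableEq L] (e : L) {F : (L → Ω) → ℝ} (hF : BM F) :
    ∫ U, F U ∂(infinitePi fun _ : L => ν) =
      ∫ U, ∫ v, F (Function.update U e v) ∂ν ∂(infinitePi fun _ : L => ν) := by
  have h := mp_update (L := L) ν e
  have h1 : ∫ U, F U ∂(infinitePi fun _ : L => ν) =
      ∫ p : (L → Ω) × Ω, F (Function.update p.1 e p.2) ∂((infinitePi fun _ : L => ν).prod ν) := by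
    conv_lhs => rw [← h.map_eq]
    rw [integral_map h.measurable.aemeasurable]
    exact hF.meas.aestronglyMeasurable
  rw [h1, integral_prod]
  obtain ⟨C, hC⟩ := hF.bdd
  exact Integrable.of_bound (hF.meas.comp h.measurable).aestronglyMeasurable C
    (.of_forall fun p => hC _)

open Classical in
/-- glueing two independent configurations -/
theorem mp_glue (S : Set L) :
    MeasurePreserving (fun p : (L → Ω) × (L → Ω) => fun l => if l ∈ S then p.1 l else p.2 l)
      ((infinitePi fun _ : L => ν).prod (infinitePi fun _ : L => ν))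
      (infinitePi fun _ : L => ν) := by
  have hm : Measurable
      fun p : (L → Ω) × (L → Ω) => fun l => if l ∈ S then p.1 l else p.2 l := by
    refine measurable_pi_iff.2 fun l => ?_
    by_cases h : l ∈ S
    · simp only [if_pos h]
      exact (measurable_pi_apply l).comp measurable_fst
    · simp only [if_neg h]
      exact (measurable_pi_apply l).comp measurable_snd
  refine ⟨hm, eq_infinitePi _ fun s t ht => ?_⟩
  rw [map_apply hm (.pi s.countable_toSet fun _ _ => ht _)]
  have hset : (fun p : (L → Ω) × (L → Ω) => fun l => if l ∈ S then p.1 l else p.2 l) ⁻¹'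
      ((s : Set L).pi t) =
      ((s.filter (· ∈ S) : Finset L) : Set L).pi t ×ˢ
        ((s.filter (· ∉ S) : Finset L) : Set L).pi t := by
    ext p
    simp only [Set.mem_preimage, Set.mem_pi, Finset.mem_coe, Set.mem_prod, Finset.mem_filter]
    constructor
    · intro h
      refine ⟨fun l hl => ?_, fun l hl => ?_⟩
      · have := h l hl.1
        rwa [if_pos hl.2] at this
      · have := h l hl.1
        rwa [if_neg hl.2] at this
    · rintro ⟨h1, h2⟩ l hl
      by_cases hlS : l ∈ S
      · rw [if_pos hlS]
        exact h1 l ⟨hl, hlS⟩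
      · rw [if_neg hlS]
        exact h2 l ⟨hl, hlS⟩
  rw [hset, prod_prod, infinitePi_pi _ (fun i _ => ht i), infinitePi_pi _ (fun i _ => ht i),
    Finset.prod_filter_mul_prod_filter_not]

/-- factorisation over disjoint sets of coordinates -/
theorem integral_factor (S : Set L) {F G : (L → Ω) → ℝ} (hF : BM F) (hG : BM G)
    (hFS : DepOn S F) (hGS : DepOn Sᶜ G) :
    ∫ U, F U * G U ∂(infinitePi fun _ : L => ν) =
      (∫ U, F U ∂(infinitePi fun _ : L => ν)) * ∫ U, G U ∂(infinitePi fun _ : L => ν) := by
  classical
  have h := mp_glue (L := L) ν S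
  have h1 : ∫ U, F U * G U ∂(infinitePi fun _ : L => ν) =
      ∫ p : (L → Ω) × (L → Ω), F (fun l => if l ∈ S then p.1 l else p.2 l) *
        G (fun l => if l ∈ S then p.1 l else p.2 l)
        ∂((infinitePi fun _ : L => ν).prod (infinitePi fun _ : L => ν)) := by
    conv_lhs => rw [← h.map_eq]
    rw [integral_map h.measurable.aemeasurable]
    exact (hF.mul hG).meas.aestronglyMeasurable
  rw [h1, ← integral_prod_mul]
  refine integral_congr_ae (.of_forall fun p => ?_)
  show F _ * G _ = F p.1 * G p.2
  congr 1
  · exact hFS _ _ fun l hl => if_pos hl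
  · exact hGS _ _ fun l hl => if_neg hl

/-- exchange of two replicas -/
theorem mp_swap {G : Type} [MeasurableSpace G] (μ : Measure G) [IsProbabilityMeasure μ] :
    MeasurePreserving (fun U : L → G × G => fun l => (U l).swap)
      (infinitePi fun _ : L => μ.prod μ) (infinitePi fun _ : L => μ.prod μ) := by
  refine ⟨measurable_pi_iff.2 fun l => measurable_swap.comp (measurable_pi_apply l), ?_⟩
  have h := infinitePi_map_pi (μ := fun _ : L => μ.prod μ) (f := fun _ => Prod.swap)
    fun _ => measurable_swap
  rw [h]
  congr 1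
  funext _
  exact prod_swap

theorem integral_antisymm {G : Type} [MeasurableSpace G] (μ : Measure G)
    [IsProbabilityMeasure μ] {F : (L → G × G) → ℝ} (hF : BM F)
    (h : ∀ U, F (fun l => (U l).swap) = -F U) :
    ∫ U, F U ∂(infinitePi fun _ : L => μ.prod μ) = 0 := by
  have hs := mp_swap (L := L) μ
  have h1 : ∫ U, F U ∂(infinitePi fun _ : L => μ.prod μ) =
      ∫ U, F (fun l => (U l).swap) ∂(infinitePi fun _ : L => μ.prod μ) := by
    conv_lhs => rw [← hs.map_eq]
    rw [integral_map hs.measurable.aemeasurable]
    exact hF.meas.aestronglyMeasurable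
  simp only [h] at h1
  rw [integral_neg] at h1
  linarith

end Pool.Agent.T2h96
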