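import Pool.Agent.T2h96.RP

/-!
# helper96: the infinite volume theory: invariance, reflection positivity, spectral gap
-/

set_option autoImplicit false
set_option linter.unusedSectionVars false

noncomputable section

namespace Pool.Agent.T2h96

open MeasureTheory Measure Function Filter Classical
open scoped Topology

/-- a log-convex sequence which decays exponentially decays without a constant -/
theorem seq_gap (a : ℕ → ℝ) (m C : ℝ) (h1 : ∀ n k, a (n + k) ^ 2 ≤ a (2 * n) * a (2 * k))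
    (h0 : 0 ≤ a 0) (hdec : ∀ n : ℕ, a n ≤ C * Real.exp (-m * n)) (n : ℕ) :
    |a n| ≤ a 0 * Real.exp (-m * n) := by
  have hstep : ∀ j, a j ^ 2 ≤ a 0 * a (2 * j) := fun j => by simpa using h1 0 j
  rcases h0.eq_or_lt with h00 | hpos
  · have h2 := hstep n
    rw [← h00, zero_mul] at h2
    have h3 : a n = 0 := by nlinarith [sq_nonneg (a n)]
    rw [h3, ← h00]
    simp
  by_contra hcon
  push Not at hcon
  have hE : ∀ j : ℕ, 0 < Real.exp (-m * j) := fun j => Real.exp_pos _
  set q := |a n| / (a 0 * Real.exp (-m * n)) with hq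
  have hden : 0 < a 0 * Real.exp (-m * n) := mul_pos hpos (hE n)
  have hq1 : 1 < q := by rw [hq, one_lt_div hden]; exact hcon
  have key : ∀ k : ℕ, q ^ (2 ^ (k + 1)) ≤
      a (2 ^ (k + 1) * n) / (a 0 * Real.exp (-m * (2 ^ (k + 1) * n : ℕ))) := by
    have hexp : ∀ j : ℕ, Real.exp (-m * (2 * j : ℕ)) = Real.exp (-m * j) ^ 2 := by
      intro j
      rw [← Real.exp_nat_mul]
      congr 1
      push_cast
      ring
    intro k
    induction k with
    | zero =>
      have h2 := hstep n
      have h3 : q ^ (2 ^ (0 + 1)) = a n ^ 2 / (a 0 * Real.exp (-m * n)) ^ 2 := by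
        rw [hq]
        norm_num [div_pow, sq_abs]
      have h4 : 2 ^ (0 + 1) * n = 2 * n := by norm_num
      rw [h3, h4, hexp, div_le_div_iff₀ (by positivity) (by positivity)]
      have h5 : (a 0 * Real.exp (-m * n)) ^ 2 = (a 0 * Real.exp (-m * n) ^ 2) * a 0 := by ring
      rw [h5]
      nlinarith [mul_le_mul_of_nonneg_right h2
        (by positivity : (0 : ℝ) ≤ a 0 * Real.exp (-m * n) ^ 2)]
    | succ k ih =>
      have h2 := hstep (2 ^ (k + 1) * n)
      have h4 : 2 ^ (k + 1 + 1) * n = 2 * (2 ^ (k + 1) * n) := by ring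
      set j := 2 ^ (k + 1) * n with hj
      rw [h4, hexp, pow_succ 2 (k + 1), pow_mul]
      have h6 : (q ^ 2 ^ (k + 1)) ^ 2 ≤ (a j / (a 0 * Real.exp (-m * j))) ^ 2 :=
        pow_le_pow_left₀ (by positivity) ih 2
      refine h6.trans ?_
      rw [div_pow, div_le_div_iff₀ (by positivity) (by positivity)]
      have h5 : (a 0 * Real.exp (-m * j)) ^ 2 = (a 0 * Real.exp (-m * j) ^ 2) * a 0 := by ring
      rw [h5]
      nlinarith [mul_le_mul_of_nonneg_right h2
        (by positivity : (0 : ℝ) ≤ a 0 * Real.exp (-m * j) ^ 2)]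
  have hbound : ∀ k : ℕ, q ^ (2 ^ (k + 1)) ≤ C / a 0 := by
    intro k
    refine (key k).trans ?_
    rw [div_le_div_iff₀ (mul_pos hpos (hE _)) hpos]
    have := hdec (2 ^ (k + 1) * n)
    nlinarith
  have hlim := tendsto_pow_atTop_atTop_of_one_lt hq1
  obtain ⟨N, hN⟩ := (hlim.eventually (eventually_gt_atTop (C / a 0))).exists
  have h2 := hbound N
  have h3 : q ^ N ≤ q ^ (2 ^ (N + 1)) := by
    refine pow_le_pow_right₀ hq1.le ?_
    exact (Nat.lt_two_pow_self).le.trans (Nat.pow_le_pow_right (by norm_num) (Nat.le_succ N))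
  linarith

variable {d : ℕ} {G : Type} [Group G] [TopologicalSpace G] [IsTopologicalGroup G]
  [CompactSpace G] [T2Space G] [SecondCountableTopology G] [MeasurableSpace G] [BorelSpace G]
  (μ : Measure G) [μ.IsHaarMeasure] [IsProbabilityMeasure μ]

theorem IsLoc.bm {A : (Link d → G) → ℝ} (hA : IsLoc A) : BM A := ⟨hA.1, hA.2.1⟩

theorem IsLoc.const (c : ℝ) : IsLoc fun _ : Link d → G => c :=
  ⟨measurable_const, ⟨|c|, fun _ => le_rfl⟩, 0, 0, fun _ _ _ => rfl⟩

/-- two local functions live in one cube -/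
theorem loc_common {A A' : (Link d → G) → ℝ} (hA : IsLoc A) (hA' : IsLoc A') :
    ∃ (r : ℕ) (x : Site d), DepOn {b | Near r b.1 x} A ∧ DepOn {b | Near r b.1 x} A' := by
  obtain ⟨hm, ⟨a, ha⟩, r, x, hd⟩ := hA
  obtain ⟨hm', ⟨a', ha'⟩, r', x', hd'⟩ := hA'
  set T : ℕ := ∑ k, (x k - x' k).natAbs with hT
  have hxx : ∀ k, |x k - x' k| ≤ T := by
    intro k
    rw [Int.abs_eq_natAbs]
    exact_mod_cast Finset.single_le_sum (f := fun k => (x k - x' k).natAbs)
      (fun _ _ => Nat.zero_le _) (Finset.mem_univ k)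
  refine ⟨r + r' + T, x, hd.mono fun b hb => ?_, hd'.mono fun b hb => ?_⟩
  · have h1 : Near r b.1 x := hb
    refine h1.mono ?_
    push_cast
    omega
  · have h1 : Near r' b.1 x' := hb
    have h2 : Near (T : ℤ) x' x := fun k => by
      rw [abs_sub_comm]; exact hxx k
    refine (h1.trans h2).mono ?_
    push_cast
    omega

theorem IsLoc.add {A A' : (Link d → G) → ℝ} (hA : IsLoc A) (hA' : IsLoc A') :
    IsLoc fun U => A U + A' U := by
  obtain ⟨r, x, hd, hd'⟩ := loc_common hA hA'
  obtain ⟨a, ha⟩ := hA.2.1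
  obtain ⟨a', ha'⟩ := hA'.2.1
  refine ⟨hA.1.add hA'.1, ⟨a + a', fun U => (abs_add_le _ _).trans (add_le_add (ha U) (ha' U))⟩,
    r, x, fun U V h => ?_⟩
  show A U + A' U = A V + A' V
  rw [hd U V h, hd' U V h]

theorem dep_shift {A : (Link d → G) → ℝ} {r : ℕ} {x : Site d} (h : DepOn {b | Near r b.1 x} A)
    (τ : Fin d) (n : ℤ) :
    DepOn {b | Near r b.1 (x + Pi.single τ n)} fun U => A (shiftC τ n U) := by
  intro U V hUV
  refine h _ _ fun b hb => ?_
  refine hUV _ ?_
  intro k
  have := hb k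
  simp only [Pi.add_apply, add_sub_add_right_eq_sub]
  exact this

theorem dep_refl {A : (Link d → G) → ℝ} {r : ℕ} {x : Site d} (h : DepOn {b | Near r b.1 x} A)
    (τ : Fin d) :
    DepOn {b | Near (r + 1 : ℕ) b.1 (refl τ x)} fun U => A (reflC τ U) := by
  intro U V hUV
  refine h _ _ fun b hb => ?_
  have h1 : Near r (refl τ b.1) (refl τ x) := by
    intro k
    have := hb k
    by_cases hk : k = τ
    · simp only [refl, if_pos hk]
      rw [abs_le] at this ⊢
      omega
    · simp only [refl, if_neg hk]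
      exact this
  unfold reflC
  split_ifs with hc
  · rw [hUV]
    show Near (r + 1 : ℕ) (refl τ b.1 - e τ) (refl τ x)
    have h2 : Near 1 (refl τ b.1 - e τ) (refl τ b.1) := by
      intro k
      simp only [e, Pi.sub_apply, Pi.single_apply]
      split_ifs <;> simp
    exact (h2.trans h1).mono (by push_cast; omega)
  · refine hUV _ ?_
    exact h1.mono (by push_cast; omega)

theorem IsLoc.shift {A : (Link d → G) → ℝ} (hA : IsLoc A) (τ : Fin d) (n : ℤ) :
    IsLoc fun U => A (shiftC τ n U) := by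
  obtain ⟨hm, ⟨a, ha⟩, r, x, hd⟩ := hA
  refine ⟨?_, ⟨a, fun U => ha _⟩, r, _, dep_shift hd τ n⟩
  refine hm.comp (measurable_pi_iff.2 fun b => ?_)
  exact measurable_pi_apply _

theorem meas_reflC (τ : Fin d) : Measurable (reflC τ : (Link d → G) → Link d → G) := by
  refine measurable_pi_iff.2 fun b => ?_
  unfold reflC
  split_ifs
  · exact (measurable_pi_apply _).inv
  · exact measurable_pi_apply _

theorem IsLoc.reflect {A : (Link d → G) → ℝ} (hA : IsLoc A) (τ : Fin d) :
    IsLoc fun U => A (reflC τ U) := by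
  obtain ⟨hm, ⟨a, ha⟩, r, x, hd⟩ := hA
  exact ⟨hm.comp (meas_reflC τ), ⟨a, fun U => ha _⟩, r + 1, _, dep_refl hd τ⟩

/-- `ω` is the infinite volume limit -/
def IsLim (W : Plaq d → G → ℝ) (ω : ((Link d → G) → ℝ) → ℝ) : Prop :=
  ∀ A, IsLoc A → Tendsto (fun P => expect μ W P A) atTop (𝓝 (ω A))

section limit

variable {μ} {W : Plaq d → G → ℝ} (hW : WOK W) {c : ℝ} (hc : 0 < c) (hWc : ∀ p g, c ≤ W p g)
  {ω : ((Link d → G) → ℝ) → ℝ} (hω : IsLim μ W ω)
include hW hω

theorem ω_add {A B : (Link d → G) → ℝ} (hA : IsLoc A) (hB : IsLoc B) :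
    ω (fun U => A U + B U) = ω A + ω B := by
  refine tendsto_nhds_unique (hω _ (hA.add hB)) (((hω _ hA).add (hω _ hB)).congr fun P => ?_)
  have hbm : BM fun U : Link d → G => ∏ p ∈ P, W p (hol U p) := by
    refine BM.prod P fun p _ => ?_
    obtain ⟨C, hC⟩ := hW.bdd p
    exact ⟨(hW.meas p).comp (meas_hol p), C, fun U => by
      rw [abs_of_nonneg (hW.nn p _)]; exact hC _⟩
  unfold expect
  rw [← add_div, ← integral_add ((hA.bm.mul hbm).integrable μ) ((hB.bm.mul hbm).integrable μ)]
  congr 1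
  refine integral_congr_ae (.of_forall fun U => ?_)
  show A U * _ + B U * _ = (A U + B U) * _
  ring

theorem ω_smul (t : ℝ) {A : (Link d → G) → ℝ} (hA : IsLoc A) :
    ω (fun U => t * A U) = t * ω A := by
  refine tendsto_nhds_unique (hω _ ((IsLoc.const t).mul hA)) (((hω _ hA).const_mul t).congr
    fun P => ?_)
  unfold expect
  rw [mul_div_assoc', ← integral_const_mul]
  congr 1
  refine integral_congr_ae (.of_forall fun U => ?_)
  show t * (A U * _) = t * A U * _
  ring

include hc hWc in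
theorem ω_const (t : ℝ) : ω (fun _ => t) = t := by
  refine tendsto_nhds_unique (hω _ (IsLoc.const t)) (tendsto_const_nhds.congr fun P => ?_)
  have hbm : BM fun U : Link d → G => ∏ p ∈ P, W p (hol U p) := by
    refine BM.prod P fun p _ => ?_
    obtain ⟨C, hC⟩ := hW.bdd p
    exact ⟨(hW.meas p).comp (meas_hol p), C, fun U => by
      rw [abs_of_nonneg (hW.nn p _)]; exact hC _⟩
  have hZpos : 0 < ∫ U : Link d → G, ∏ p ∈ P, W p (hol U p) ∂(infinitePi fun _ : Link d => μ) := by
    have h1 : (∫ _U : Link d → G, c ^ P.card ∂(infinitePi fun _ : Link d => μ)) ≤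
        ∫ U : Link d → G, ∏ p ∈ P, W p (hol U p) ∂(infinitePi fun _ : Link d => μ) := by
      refine integral_mono (integrable_const _) (hbm.integrable μ) fun U => ?_
      rw [← Finset.prod_const]
      exact Finset.prod_le_prod (fun _ _ => hc.le) fun p _ => hWc p _
    rw [integral_const] at h1
    simp only [probReal_univ, one_smul] at h1
    exact (pow_pos hc _).trans_le h1
  unfold expect
  rw [integral_const_mul, mul_div_cancel_right₀ _ hZpos.ne']

theorem ω_map {T : (Link d → G) → Link d → G}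
    (hT : MeasurePreserving T (infinitePi fun _ : Link d => μ) (infinitePi fun _ : Link d => μ))
    (π : Plaq d ≃ Plaq d) (hπ : ∀ p U, W (π p) (hol U (π p)) = W p (hol (T U) p))
    {A : (Link d → G) → ℝ} (hA : IsLoc A) (hAT : IsLoc fun U => A (T U)) :
    ω (fun U => A (T U)) = ω A := by
  have h1 : Tendsto (fun Q : Finset (Plaq d) => Q.map π.toEmbedding) atTop atTop := by
    refine tendsto_atTop.2 fun Q => ?_
    filter_upwards [eventually_ge_atTop (Q.map π.symm.toEmbedding)] with Q' hQ'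
    intro p hp
    rw [Finset.mem_map]
    refine ⟨π.symm p, hQ' (Finset.mem_map_of_mem _ hp), ?_⟩
    simp
  refine tendsto_nhds_unique ((hω _ hAT).comp h1) ((hω _ hA).congr fun Q => ?_)
  exact (expect_map μ hW T hT π hπ Q hA.1).symm

variable (hH : Homog W)
include hH

theorem ω_shift (τ : Fin d) (n : ℤ) {A : (Link d → G) → ℝ} (hA : IsLoc A) :
    ω (fun U => A (shiftC τ n U)) = ω A :=
  ω_map hW hω (mp_shiftC μ τ n) (shiftP τ n) (fun p U => W_shift hH τ n U p) hA (hA.shift τ n)

theorem ω_refl (τ : Fin d) {A : (Link d → G) → ℝ} (hA : IsLoc A) :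
    ω (fun U => A (reflC τ U)) = ω A :=
  ω_map hW hω (mp_reflC μ τ) (reflP τ) (fun p U => W_refl hH τ U p) hA (hA.reflect τ)

theorem ω_rp (τ : Fin d) {A : (Link d → G) → ℝ} (hA : IsLoc A) (hd : DepOn (posL τ) A) :
    0 ≤ ω fun U => A (reflC τ U) * A U := by
  have h1 : Tendsto (fun Q : Finset (Plaq d) => Q ∪ Q.map (reflP τ).toEmbedding) atTop atTop :=
    tendsto_atTop_mono (fun Q => Finset.subset_union_left) tendsto_id
  refine ge_of_tendsto ((hω _ ((hA.reflect τ).mul hA)).comp h1) (.of_forall fun Q => ?_)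
  refine rp_finite μ hW hH τ _ ?_ hA.bm hd
  rw [Finset.map_union, Finset.map_map]
  have h2 : (reflP τ : Plaq d ≃ Plaq d).toEmbedding.trans (reflP τ).toEmbedding =
      Function.Embedding.refl _ := by
    ext p : 1
    exact reflPf_reflPf τ p
  rw [h2, Finset.map_refl, Finset.union_comm]

theorem ω_symm (τ : Fin d) {A B : (Link d → G) → ℝ} (hA : IsLoc A) (hB : IsLoc B) :
    ω (fun U => A (reflC τ U) * B U) = ω fun U => B (reflC τ U) * A U := by
  have h1 := ω_refl hW hω hH τ ((hA.reflect τ).mul hB)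
  rw [← h1]
  congr 1
  funext U
  rw [reflC_reflC]
  ring

theorem ω_schwarz (τ : Fin d) {A B : (Link d → G) → ℝ} (hA : IsLoc A) (hB : IsLoc B)
    (hAd : DepOn (posL τ) A) (hBd : DepOn (posL τ) B) :
    ω (fun U => A (reflC τ U) * B U) ^ 2 ≤
      ω (fun U => A (reflC τ U) * A U) * ω fun U => B (reflC τ U) * B U := by
  have h : ∀ t : ℝ, 0 ≤ (ω fun U => B (reflC τ U) * B U) * (t * t) +
      2 * ω (fun U => A (reflC τ U) * B U) * t + ω fun U => A (reflC τ U) * A U := by
    intro t
    have hX : IsLoc fun U => A U + t * B U := hA.add ((IsLoc.const t).mul hB)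
    have hXd : DepOn (posL τ) fun U => A U + t * B U := fun U V hUV => by
      show A U + t * B U = A V + t * B V
      rw [hAd U V hUV, hBd U V hUV]
    have h1 := ω_rp hW hω hH τ hX hXd
    have e1 : (fun U => (A (reflC τ U) + t * B (reflC τ U)) * (A U + t * B U)) =
        fun U => (A (reflC τ U) * A U + t * (A (reflC τ U) * B U)) +
          (t * (B (reflC τ U) * A U) + (t * t) * (B (reflC τ U) * B U)) := by
      funext U
      ring
    have l1 := (hA.reflect τ).mul hA
    have l2 := (hA.reflect τ).mul hB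
    have l3 := (hB.reflect τ).mul hA
    have l4 := (hB.reflect τ).mul hB
    rw [e1, ω_add hW hω (l1.add ((IsLoc.const t).mul l2))
      (((IsLoc.const t).mul l3).add ((IsLoc.const (t * t)).mul l4)),
      ω_add hW hω l1 ((IsLoc.const t).mul l2),
      ω_add hW hω ((IsLoc.const t).mul l3) ((IsLoc.const (t * t)).mul l4),
      ω_smul hW hω t l2, ω_smul hW hω t l3, ω_smul hW hω (t * t) l4,
      ω_symm hW hω hH τ hB hA] at h1
    linarith
  have h2 := discrim_le_zero h
  rw [discrim] at h2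
  nlinarith

include hc hWc in
/-- the spectral gap -/
theorem ω_gap {m : ℝ} {C : ℕ → ℝ} (hm : 0 < m) (hcl : Clusters m C ω) (τ : Fin d)
    {A : (Link d → G) → ℝ} (hA : IsLoc A) (hAd : DepOn (posL τ) A) (n : ℕ) :
    |ω (fun U => A (reflC τ U) * A (shiftC τ n U)) - ω A ^ 2| ≤
      (ω (fun U => A (reflC τ U) * A U) - ω A ^ 2) * Real.exp (-m * n) := by
  set X : (Link d → G) → ℝ := fun U => A U + -ω A with hX
  have hXl : IsLoc X := hA.add (IsLoc.const _)
  have hXd : DepOn (posL τ) X := fun U V h => by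
    show A U + -ω A = A V + -ω A
    rw [hAd U V h]
  set a : ℕ → ℝ := fun n => ω fun U => X (reflC τ U) * X (shiftC τ n U) with ha
  have haeq : ∀ n : ℕ, a n = ω (fun U => A (reflC τ U) * A (shiftC τ n U)) - ω A ^ 2 := by
    intro n
    have e1 : (fun U => X (reflC τ U) * X (shiftC τ n U)) = fun U =>
        (A (reflC τ U) * A (shiftC τ n U) + (-ω A) * A (reflC τ U)) +
          ((-ω A) * A (shiftC τ n U) + ω A * ω A) := by
      funext U
      simp only [hX]
      ring
    have l1 := (hA.reflect τ).mul (hA.shift τ n)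
    have l2 := (IsLoc.const (-ω A)).mul (hA.reflect τ)
    have l3 := (IsLoc.const (-ω A)).mul (hA.shift τ n)
    have l4 : IsLoc fun _ : Link d → G => ω A * ω A := IsLoc.const _
    simp only [ha]
    rw [e1, ω_add hW hω (l1.add l2) (l3.add l4), ω_add hW hω l1 l2, ω_add hW hω l3 l4,
      ω_smul hW hω _ (hA.reflect τ), ω_smul hW hω _ (hA.shift τ n),
      ω_const hW hc hWc hω, ω_refl hW hω hH τ hA, ω_shift hW hω hH τ n hA]
    ring
  -- translates
  have hsd : ∀ n : ℕ, DepOn (posL τ) fun U => X (shiftC τ n U) := by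
    intro n U V h
    refine hXd _ _ fun b hb => h _ ?_
    have hb' : 0 ≤ b.1 τ := hb
    show 0 ≤ (b.1 + (Pi.single τ (n : ℤ) : Site d)) τ
    simp only [Pi.add_apply, Pi.single_eq_same]
    omega
  have hform : ∀ n k : ℕ, ω (fun U => X (shiftC τ n (reflC τ U)) * X (shiftC τ k U)) =
      a (n + k) := by
    intro n k
    have h1 := ω_shift hW hω hH τ n
      (A := fun U => X (shiftC τ n (reflC τ U)) * X (shiftC τ k U))
      (((hXl.shift τ n).reflect τ).mul (hXl.shift τ k))
    rw [← h1]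
    simp only [ha]
    congr 1
    funext U
    rw [shiftC_reflC, shiftC_shiftC, shiftC_shiftC, neg_add_cancel, shiftC_zero]
    congr 3
    push_cast
    ring
  have hsq : ∀ n k, a (n + k) ^ 2 ≤ a (2 * n) * a (2 * k) := by
    intro n k
    have h1 := ω_schwarz hW hω hH τ (hXl.shift τ n) (hXl.shift τ k) (hsd n) (hsd k)
    have e1 := hform n k
    have e2 := hform n n
    have e3 := hform k k
    rw [e1, e2, e3] at h1
    rwa [two_mul, two_mul]
  have h0 : 0 ≤ a 0 := by
    have h1 := ω_rp hW hω hH τ hXl hXd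
    have h2 : a 0 = ω fun U => X (reflC τ U) * X U := by
      simp only [ha]
      congr 1
      funext U
      rw [Nat.cast_zero, shiftC_zero]
    rw [h2]
    exact h1
  -- exponential decay
  obtain ⟨hAm, ⟨α, hα⟩, r, x, hAr⟩ := hA
  have hdec : ∀ n : ℕ, a n ≤ (C (r + 1) * α * α * Real.exp (m * (2 * |(x τ : ℝ)|))) *
      Real.exp (-m * n) := by
    intro n
    have h1 := hcl (r + 1) (refl τ x) (x + Pi.single τ (n : ℤ)) (fun U => A (reflC τ U))
      (fun U => A (shiftC τ n U)) α α (hAm.comp (meas_reflC τ))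
      (hAm.comp (mp_shiftC μ τ n).measurable) (fun U => hα _) (fun U => hα _)
      (dep_refl hAr τ) ((dep_shift hAr τ n).mono fun b hb => by
        have h2 : Near r b.1 (x + Pi.single τ (n : ℤ)) := hb
        exact h2.mono (by push_cast; omega)) τ
    have hA' : IsLoc A := ⟨hAm, ⟨α, hα⟩, r, x, hAr⟩
    rw [ω_refl hW hω hH τ hA', ω_shift hW hω hH τ n hA'] at h1
    rw [haeq]
    have h2 : ((refl τ x) τ : ℝ) = -(x τ : ℝ) := by simp [refl]
    have h3 : (((x + (Pi.single τ (n : ℤ) : Site d)) τ : ℤ) : ℝ) = x τ + n := by simp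
    rw [h2, h3] at h1
    have hK : 0 ≤ C (r + 1) * α * α :=
      nonneg_of_mul_nonneg_left ((abs_nonneg _).trans h1) (Real.exp_pos _)
    have h4 : (n : ℝ) - 2 * |(x τ : ℝ)| ≤ |-(x τ : ℝ) - (x τ + n)| := by
      rw [abs_sub_comm]
      have h5 : (n : ℝ) + 2 * x τ ≤ |(x τ : ℝ) + n - -(x τ : ℝ)| := by
        refine le_trans (le_of_eq ?_) (le_abs_self _)
        ring
      have h6 : -|(x τ : ℝ)| ≤ x τ := neg_abs_le _
      linarith
    calc ω (fun U => A (reflC τ U) * A (shiftC τ n U)) - ω A ^ 2 ≤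
          C (r + 1) * α * α * Real.exp (-m * |-(x τ : ℝ) - (x τ + n)|) := by
          refine le_trans (le_abs_self _) ?_
          rw [sq]
          exact h1
      _ ≤ C (r + 1) * α * α * Real.exp (m * (2 * |(x τ : ℝ)|) + -m * n) := by
          refine mul_le_mul_of_nonneg_left (Real.exp_le_exp.2 ?_) hK
          nlinarith
      _ = _ := by rw [Real.exp_add]; ring
  have hfin := seq_gap a m _ hsq h0 hdec n
  have h2 : a 0 = ω (fun U => A (reflC τ U) * A U) - ω A ^ 2 := by
    rw [haeq]
    congr 2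
    funext U
    rw [Nat.cast_zero, shiftC_zero]
  rw [haeq n, h2] at hfin
  exact hfin

end limit

end Pool.Agent.T2h96
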