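import Pool.Agent.T2h96.Gauge

/-!
# helper96: the two replicas are independent
-/

set_option autoImplicit false
set_option linter.unusedSectionVars false

noncomputable section

namespace Pool.Agent.T2h96

open MeasureTheory Measure Function

variable {L G : Type} [MeasurableSpace G] (μ : Measure G) [IsProbabilityMeasure μ]

theorem pair_meas : Measurable fun U : L → G × G =>
    ((fun l => (U l).1, fun l => (U l).2) : (L → G) × (L → G)) := by
  refine Measurable.prodMk ?_ ?_
  · exact measurable_pi_iff.2 fun l => measurable_fst.comp (measurable_pi_apply l)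
  · exact measurable_pi_iff.2 fun l => measurable_snd.comp (measurable_pi_apply l)

theorem mp_pair :
    (infinitePi fun _ : L => μ).prod (infinitePi fun _ : L => μ) =
      (infinitePi fun _ : L => μ.prod μ).map
        fun U : L → G × G => ((fun l => (U l).1, fun l => (U l).2) : (L → G) × (L → G)) := by
  classical
  have hspan : (infinitePi fun _ : L => μ).FiniteSpanningSetsIn
      (squareCylinders fun _ : L => {s : Set G | MeasurableSet s}) := by
    refine ⟨fun _ => Set.univ, fun _ => ?_, fun _ => ?_, Set.iUnion_const _⟩
    · exact ⟨∅, fun _ => Set.univ, by simp, by simp⟩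
    · rw [measure_univ]
      exact ENNReal.one_lt_top
  refine prod_eq_generateFrom (generateFrom_squareCylinders (α := fun _ : L => G))
    (generateFrom_squareCylinders (α := fun _ : L => G))
    (isPiSystem_squareCylinders (fun _ => MeasurableSpace.isPiSystem_measurableSet) (by simp))
    (isPiSystem_squareCylinders (fun _ => MeasurableSpace.isPiSystem_measurableSet) (by simp))
    hspan hspan ?_
  rintro _ ⟨S, s, hs, rfl⟩ _ ⟨T, t, ht, rfl⟩
  have hs' : ∀ l, MeasurableSet (s l) := fun l => hs l (Set.mem_univ l)
  have ht' : ∀ l, MeasurableSet (t l) := fun l => ht l (Set.mem_univ l)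
  have hms : MeasurableSet ((S : Set L).pi s) := .pi S.countable_toSet fun l _ => hs' l
  have hmt : MeasurableSet ((T : Set L).pi t) := .pi T.countable_toSet fun l _ => ht' l
  rw [map_apply pair_meas (hms.prod hmt)]
  have hset : (fun U : L → G × G =>
      ((fun l => (U l).1, fun l => (U l).2) : (L → G) × (L → G))) ⁻¹'
        ((S : Set L).pi s ×ˢ (T : Set L).pi t) =
      ((S ∪ T : Finset L) : Set L).pi fun l =>
        (if l ∈ S then s l else Set.univ) ×ˢ (if l ∈ T then t l else Set.univ) := by
    ext U
    simp only [Set.mem_preimage, Set.mem_prod, Set.mem_pi, Finset.mem_coe, Finset.mem_union]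
    constructor
    · rintro ⟨h1, h2⟩ l hl
      refine ⟨?_, ?_⟩
      · by_cases hlS : l ∈ S
        · rw [if_pos hlS]; exact h1 l hlS
        · rw [if_neg hlS]; trivial
      · by_cases hlT : l ∈ T
        · rw [if_pos hlT]; exact h2 l hlT
        · rw [if_neg hlT]; trivial
    · intro h
      refine ⟨fun l hl => ?_, fun l hl => ?_⟩
      · have := (h l (Or.inl hl)).1
        rwa [if_pos hl] at this
      · have := (h l (Or.inr hl)).2
        rwa [if_pos hl] at this
  have hm : ∀ l ∈ S ∪ T, MeasurableSet
      ((if l ∈ S then s l else Set.univ) ×ˢ (if l ∈ T then t l else Set.univ)) := by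
    intro l _
    refine MeasurableSet.prod ?_ ?_
    · split_ifs
      exacts [hs' l, MeasurableSet.univ]
    · split_ifs
      exacts [ht' l, MeasurableSet.univ]
  rw [hset, infinitePi_pi _ hm, infinitePi_pi _ (fun l _ => hs' l),
    infinitePi_pi _ (fun l _ => ht' l)]
  simp only [prod_prod]
  rw [Finset.prod_mul_distrib]
  congr 1
  · rw [← Finset.prod_subset (Finset.subset_union_left : S ⊆ S ∪ T)]
    · exact Finset.prod_congr rfl fun l hl => by rw [if_pos hl]
    · intro l _ hl
      rw [if_neg hl, measure_univ]
  · rw [← Finset.prod_subset (Finset.subset_union_right : T ⊆ S ∪ T)]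
    · exact Finset.prod_congr rfl fun l hl => by rw [if_pos hl]
    · intro l _ hl
      rw [if_neg hl, measure_univ]

/-- the integral of a product over the two replicas -/
theorem integral_pair {Φ Ψ : (L → G) → ℝ} (hΦ : Measurable Φ) (hΨ : Measurable Ψ) :
    ∫ U, Φ (fun l => (U l).1) * Ψ (fun l => (U l).2) ∂(infinitePi fun _ : L => μ.prod μ) =
      (∫ U, Φ U ∂(infinitePi fun _ : L => μ)) * ∫ U, Ψ U ∂(infinitePi fun _ : L => μ) := by
  rw [← integral_prod_mul, mp_pair μ, integral_map pair_meas.aemeasurable]
  exact ((hΦ.comp measurable_fst).mul (hΨ.comp measurable_snd)).aestronglyMeasurable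

end Pool.Agent.T2h96
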