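import Pool.Agent.T2h96.Anim

/-!
# helper96: bad blocks and the probability of a long chain
-/

set_option autoImplicit false

noncomputable section

namespace Pool.Agent.T2h96

open Classical

variable {d : ℕ}

theorem sum_biUnion_le' {α β : Type} [DecidableEq β] (s : Finset α) (t : α → Finset β)
    (f : β → ℝ) (hf : ∀ a ∈ s, ∀ b ∈ t a, 0 ≤ f b) :
    ∑ b ∈ s.biUnion t, f b ≤ ∑ a ∈ s, ∑ b ∈ t a, f b := by
  classical
  induction s using Finset.induction_on with
  | empty => simp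
  | insert a s ha ih =>
    rw [Finset.biUnion_insert, Finset.sum_insert ha]
    have h1 := ih fun a' ha' => hf a' (Finset.mem_insert_of_mem ha')
    have h2 : ∑ b ∈ t a ∪ s.biUnion t, f b + ∑ b ∈ t a ∩ s.biUnion t, f b =
        ∑ b ∈ t a, f b + ∑ b ∈ s.biUnion t, f b := Finset.sum_union_inter
    have h3 : 0 ≤ ∑ b ∈ t a ∩ s.biUnion t, f b := Finset.sum_nonneg fun b hb =>
      hf a (Finset.mem_insert_self _ _) b (Finset.mem_inter.1 hb).1
    linarith

/-- The data of the forest: `FP` planes with bounded couplings, `MP` planes without restriction. -/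
structure Dir (d : ℕ) where
  /-- planes with bounded couplings -/
  FP : Fin d → Fin d → Prop
  /-- planes without restriction -/
  MP : Fin d → Fin d → Prop
  /-- the parent of a direction -/
  par : Fin d → Fin d
  /-- the height of a direction -/
  rank : Fin d → ℕ
  hFM : ∀ a b b', FP a b → ¬ MP a b'
  hFs : ∀ a b, FP a b → FP b a
  hMs : ∀ a b, MP a b → MP b a
  hM1 : ∀ a b b', MP a b → MP a b' → b = b'
  hpar : ∀ a b, FP a b → b = par a ∨ a = par b
  hrank : ∀ a, FP a (par a) → rank a < rank (par a)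
  hrd : ∀ a, rank a < d

theorem Dir.hne (D : Dir d) {a : Fin d} (h : D.FP a (D.par a)) : a ≠ D.par a := fun h' => by
  have := D.hrank a h
  rw [← h'] at this
  exact lt_irrefl _ this

/-- the plaquettes of the line through `z` in direction `par c` -/
def lineF (D : Dir d) (l : ℕ) (PX : Finset (Plaq d)) (z : Site d) (c : Fin d) :
    Finset (Plaq d) :=
  PX.filter fun p => Pl c (D.par c) p ∧ ∃ t : ℕ, t < l ∧ p.x = z + Pi.single (D.par c) (t : ℤ)

/-- the line through `z` in direction `par c` is full -/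
def LineIn (D : Dir d) (l : ℕ) (Y : Finset (Plaq d)) (z : Site d) (c : Fin d) : Prop :=
  ∀ t : ℕ, t < l → ∃ p ∈ Y, p.x = z + Pi.single (D.par c) (t : ℤ) ∧ Pl c (D.par c) p

/-- the sites of a block -/
def sites (l : ℕ) (b : Site d) : Finset (Site d) :=
  Fintype.piFinset fun k => Finset.Ico ((l : ℤ) * b k) ((l : ℤ) * b k + l)

theorem mem_sites {l : ℕ} (hl : 0 < l) {b x : Site d} : x ∈ sites l b ↔ bl l x = b := by
  have hl' : (0 : ℤ) < l := by exact_mod_cast hl
  rw [sites, Fintype.mem_piFinset, funext_iff]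
  refine forall_congr' fun k => ?_
  rw [Finset.mem_Ico, bl]
  constructor
  · rintro ⟨h1, h2⟩
    refine le_antisymm ?_ ?_
    · rw [← Int.lt_add_one_iff]
      refine Int.ediv_lt_of_lt_mul hl' ?_
      linarith [mul_comm (b k + 1) (l : ℤ), mul_add (l : ℤ) (b k) 1]
    · rw [Int.le_ediv_iff_mul_le hl']
      linarith [mul_comm (b k) (l : ℤ)]
  · intro h
    rw [← h]
    refine ⟨Int.mul_ediv_self_le hl'.ne', ?_⟩
    have := Int.lt_mul_ediv_self_add (x := x k) hl'
    exact this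

theorem card_sites (l : ℕ) (b : Site d) : (sites l b).card = l ^ d := by
  rw [sites, Fintype.card_piFinset]
  simp

/-- a bad block -/
def IsBad (D : Dir d) (l : ℕ) (Y : Finset (Plaq d)) (b : Site d) : Prop :=
  (∃ p ∈ Y, ¬ D.FP p.i p.j ∧ bl l p.x = b) ∨
    ∃ c, D.FP c (D.par c) ∧ ∃ z, bl l z = b ∧ z (D.par c) = l * b (D.par c) ∧ LineIn D l Y z c

/-- the bad blocks -/
def badF (D : Dir d) (l : ℕ) (Y : Finset (Plaq d)) : Finset (Site d) :=
  (Y.image fun p => bl l p.x).filter (IsBad D l Y)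

theorem mem_badF {D : Dir d} {l : ℕ} (hl : 0 < l) {Y : Finset (Plaq d)} {b : Site d} :
    b ∈ badF D l Y ↔ IsBad D l Y b := by
  rw [badF, Finset.mem_filter, and_iff_right_iff_imp]
  intro h
  rw [Finset.mem_image]
  rcases h with ⟨p, hp, -, hpb⟩ | ⟨c, -, z, hz, -, hline⟩
  · exact ⟨p, hp, hpb⟩
  · obtain ⟨p, hp, hpx, -⟩ := hline 0 hl
    refine ⟨p, hp, ?_⟩
    rw [hpx]
    simpa using hz

/-- the causes for the block `b` to be bad -/
def causes (D : Dir d) (l : ℕ) (PX : Finset (Plaq d)) (b : Site d) : Finset (Finset (Plaq d)) :=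
  ((PX.filter fun p => ¬ D.FP p.i p.j ∧ bl l p.x = b).image fun p => {p}) ∪
    ((sites l b ×ˢ (Finset.univ : Finset (Fin d))).image fun zc => lineF D l PX zc.1 zc.2).filter
      fun C => l ≤ C.card ∧ (∀ p ∈ C, D.FP p.i p.j ∧ bl l p.x = b)

theorem bl_line {l : ℕ} (hl : 0 < l) {z b : Site d} (hz : bl l z = b) {k : Fin d}
    (hzk : z k = l * b k) (t : ℕ) (ht : t < l) : bl l (z + Pi.single k (t : ℤ)) = b := by
  have hl' : (0 : ℤ) < l := by exact_mod_cast hl
  funext j
  by_cases hj : j = k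
  · subst hj
    show (z j + (Pi.single j (t : ℤ) : Site d) j) / l = b j
    rw [Pi.single_eq_same, hzk, Int.mul_add_ediv_left _ _ hl'.ne',
      Int.ediv_eq_zero_of_lt (by positivity) (by exact_mod_cast ht), add_zero]
  · show (z j + (Pi.single k (t : ℤ) : Site d) j) / l = b j
    rw [Pi.single_eq_of_ne hj, add_zero, ← hz]
    rfl

theorem exists_cause (D : Dir d) {l : ℕ} (hl : 0 < l) {PX Y : Finset (Plaq d)} (hY : Y ⊆ PX)
    {b : Site d} (h : IsBad D l Y b) : ∃ C ∈ causes D l PX b, C ⊆ Y := by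
  rcases h with ⟨p, hp, hpF, hpb⟩ | ⟨c, hc, z, hz, hzb, hline⟩
  · refine ⟨{p}, ?_, by simpa using hp⟩
    rw [causes, Finset.mem_union]
    left
    rw [Finset.mem_image]
    exact ⟨p, by rw [Finset.mem_filter]; exact ⟨hY hp, hpF, hpb⟩, rfl⟩
  · have hsub : lineF D l PX z c ⊆ Y := by
      intro p hp
      rw [lineF, Finset.mem_filter] at hp
      obtain ⟨-, hpl, t, ht, hpx⟩ := hp
      obtain ⟨p', hp', hpx', hpl'⟩ := hline t ht
      rwa [hpl.ext hpl' (hpx.trans hpx'.symm)]
    refine ⟨lineF D l PX z c, ?_, hsub⟩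
    rw [causes, Finset.mem_union]
    right
    rw [Finset.mem_filter]
    refine ⟨Finset.mem_image.2 ⟨(z, c), by simp [mem_sites hl, hz], rfl⟩, ?_, ?_⟩
    · -- the line has `l` elements
      have hinj : Function.Injective fun t : ℕ => z (D.par c) + (t : ℤ) := by
        intro t t' h
        simp only at h
        omega
      have himg : (Finset.range l).image (fun t : ℕ => z (D.par c) + (t : ℤ)) ⊆
          (lineF D l PX z c).image fun p => p.x (D.par c) := by
        intro x hx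
        rw [Finset.mem_image] at hx
        obtain ⟨t, ht, rfl⟩ := hx
        rw [Finset.mem_range] at ht
        obtain ⟨p, hp, hpx, hpl⟩ := hline t ht
        rw [Finset.mem_image]
        refine ⟨p, ?_, by rw [hpx]; simp⟩
        rw [lineF, Finset.mem_filter]
        exact ⟨hY hp, hpl, t, ht, hpx⟩
      have h1 := (Finset.card_le_card himg).trans Finset.card_image_le
      rwa [Finset.card_image_of_injective _ hinj, Finset.card_range] at h1
    · intro p hp
      rw [lineF, Finset.mem_filter] at hp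
      obtain ⟨-, hpl, t, ht, hpx⟩ := hp
      refine ⟨?_, by rw [hpx]; exact bl_line hl hz hzb t ht⟩
      rcases hpl with ⟨h1, h2⟩ | ⟨h1, h2⟩
      · rw [h1, h2]; exact hc
      · rw [h1, h2]; exact D.hFs _ _ hc

theorem cause_block (D : Dir d) (l : ℕ) (PX : Finset (Plaq d)) (b : Site d)
    {C : Finset (Plaq d)} (hC : C ∈ causes D l PX b) : C ⊆ PX ∧ ∀ p ∈ C, bl l p.x = b := by
  rw [causes, Finset.mem_union] at hC
  rcases hC with hC | hC
  · rw [Finset.mem_image] at hC
    obtain ⟨p, hp, rfl⟩ := hC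
    rw [Finset.mem_filter] at hp
    exact ⟨by simpa using hp.1, by simpa using hp.2.2⟩
  · rw [Finset.mem_filter, Finset.mem_image] at hC
    obtain ⟨⟨zc, -, rfl⟩, -, h⟩ := hC
    exact ⟨Finset.filter_subset _ _, fun p hp => (h p hp).2⟩

/-- the total weight of the causes -/
theorem sum_causes (D : Dir d) {l : ℕ} (hl : 0 < l) (PX : Finset (Plaq d)) (b : Site d)
    (ρ : Plaq d → ℝ) (ρ1 ρ2 : ℝ) (h0 : ∀ p, 0 ≤ ρ p)
    (hρ1 : ∀ p ∈ PX, ¬ D.FP p.i p.j → ρ p ≤ ρ1) (hρ2 : ∀ p ∈ PX, D.FP p.i p.j → ρ p ≤ ρ2)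
    (h10 : 0 ≤ ρ1) (h20 : 0 ≤ ρ2) (h21 : ρ2 ≤ 1) :
    ∑ C ∈ causes D l PX b, ∏ p ∈ C, ρ p ≤
      (d ^ 2 * l ^ d : ℝ) * ρ1 + (d * l ^ d : ℝ) * ρ2 ^ l := by
  have hnn : ∀ C : Finset (Plaq d), 0 ≤ ∏ p ∈ C, ρ p := fun C => Finset.prod_nonneg fun p _ => h0 p
  rw [causes]
  refine (le_add_of_nonneg_right (Finset.sum_nonneg fun C _ => hnn C)).trans
    ((Finset.sum_union_inter (f := fun C => ∏ p ∈ C, ρ p)).le.trans (add_le_add ?_ ?_))
  · refine (Finset.sum_le_card_nsmul _ _ ρ1 ?_).trans ?_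
    · intro C hC
      rw [Finset.mem_image] at hC
      obtain ⟨p, hp, rfl⟩ := hC
      rw [Finset.mem_filter] at hp
      rw [Finset.prod_singleton]
      exact hρ1 p hp.1 hp.2.1
    · rw [nsmul_eq_mul]
      refine mul_le_mul_of_nonneg_right ?_ h10
      have hcard : (PX.filter fun p => ¬ D.FP p.i p.j ∧ bl l p.x = b).card ≤
          (sites l b ×ˢ (Finset.univ : Finset (Fin d × Fin d))).card := by
        refine Finset.card_le_card_of_injOn (fun p => (p.x, (p.i, p.j))) ?_ ?_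
        · intro p hp
          rw [Finset.mem_coe, Finset.mem_filter] at hp
          rw [Finset.mem_coe, Finset.mem_product]
          exact ⟨(mem_sites hl).2 hp.2.2, Finset.mem_univ _⟩
        · intro p _ q _ h
          simp only [Prod.mk.injEq] at h
          exact Plaq.ext h.1 h.2.1 h.2.2
      have h3 : (PX.filter fun p => ¬ D.FP p.i p.j ∧ bl l p.x = b).card ≤ d ^ 2 * l ^ d := by
        refine hcard.trans (le_of_eq ?_)
        rw [Finset.card_product, card_sites, Finset.card_univ, Fintype.card_prod, Fintype.card_fin]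
        ring
      exact_mod_cast Finset.card_image_le.trans h3
  · refine (Finset.sum_le_card_nsmul _ _ (ρ2 ^ l) ?_).trans ?_
    · intro C hC
      rw [Finset.mem_filter, Finset.mem_image] at hC
      obtain ⟨⟨zc, -, rfl⟩, hcard, hC⟩ := hC
      calc ∏ p ∈ lineF D l PX zc.1 zc.2, ρ p ≤ ∏ _p ∈ lineF D l PX zc.1 zc.2, ρ2 :=
            Finset.prod_le_prod (fun p _ => h0 p) fun p hp =>
              hρ2 p (Finset.filter_subset _ _ hp) (hC p hp).1
        _ = ρ2 ^ (lineF D l PX zc.1 zc.2).card := by rw [Finset.prod_const]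
        _ ≤ ρ2 ^ l := pow_le_pow_of_le_one h20 h21 hcard
    · rw [nsmul_eq_mul]
      refine mul_le_mul_of_nonneg_right ?_ (pow_nonneg h20 _)
      have h3 : (((sites l b ×ˢ (Finset.univ : Finset (Fin d))).image
          fun zc => lineF D l PX zc.1 zc.2).filter
          fun C => l ≤ C.card ∧ (∀ p ∈ C, D.FP p.i p.j ∧ bl l p.x = b)).card ≤ d * l ^ d := by
        refine (Finset.card_filter_le _ _).trans (Finset.card_image_le.trans (le_of_eq ?_))
        rw [Finset.card_product, card_sites, Finset.card_univ, Fintype.card_fin]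
        ring
      exact_mod_cast h3

/-- the probability that all blocks of `K` are bad -/
theorem bad_bound (D : Dir d) {l : ℕ} (hl : 0 < l) (PX : Finset (Plaq d))
    (ρ : Plaq d → ℝ) (η : ℝ) (h0 : ∀ p, 0 ≤ ρ p) (hη : 0 ≤ η)
    (hcause : ∀ b, ∑ C ∈ causes D l PX b, ∏ p ∈ C, ρ p ≤ η)
    (m : Finset (Plaq d) → ℝ) (hm : ∀ Y ∈ PX.powerset, 0 ≤ m Y) (M : ℝ) (hM : 0 ≤ M)
    (hstar : ∀ C ⊆ PX, ∑ Y ∈ PX.powerset.filter (fun Y => C ⊆ Y), m Y ≤ (∏ p ∈ C, ρ p) * M)
    (K : Finset (Site d)) : ∀ C0 ⊆ PX, (∀ p ∈ C0, bl l p.x ∉ K) →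
      ∑ Y ∈ PX.powerset.filter (fun Y => C0 ⊆ Y ∧ ∀ b ∈ K, IsBad D l Y b), m Y ≤
        (∏ p ∈ C0, ρ p) * (η ^ K.card * M) := by
  induction K using Finset.induction_on with
  | empty =>
    intro C0 hC0 _
    simpa using hstar C0 hC0
  | insert b K hb ih =>
    intro C0 hC0 hC0K
    have hsub : PX.powerset.filter (fun Y => C0 ⊆ Y ∧ ∀ b' ∈ insert b K, IsBad D l Y b') ⊆
        (causes D l PX b).biUnion fun C =>
          PX.powerset.filter (fun Y => C0 ∪ C ⊆ Y ∧ ∀ b' ∈ K, IsBad D l Y b') := by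
      intro Y hY
      rw [Finset.mem_filter, Finset.mem_powerset] at hY
      obtain ⟨C, hC, hCY⟩ := exists_cause D hl hY.1 (hY.2.2 b (Finset.mem_insert_self _ _))
      rw [Finset.mem_biUnion]
      refine ⟨C, hC, ?_⟩
      rw [Finset.mem_filter, Finset.mem_powerset]
      exact ⟨hY.1, Finset.union_subset hY.2.1 hCY,
        fun b' hb' => hY.2.2 b' (Finset.mem_insert_of_mem hb')⟩
    have hmnn : ∀ Y ∈ (causes D l PX b).biUnion fun C =>
          PX.powerset.filter (fun Y => C0 ∪ C ⊆ Y ∧ ∀ b' ∈ K, IsBad D l Y b'), 0 ≤ m Y := by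
      intro Y hY
      rw [Finset.mem_biUnion] at hY
      obtain ⟨C, -, hY⟩ := hY
      exact hm Y (Finset.mem_filter.1 hY).1
    calc _ ≤ ∑ Y ∈ (causes D l PX b).biUnion fun C =>
          PX.powerset.filter (fun Y => C0 ∪ C ⊆ Y ∧ ∀ b' ∈ K, IsBad D l Y b'), m Y :=
          Finset.sum_le_sum_of_subset_of_nonneg hsub fun Y hY _ => hmnn Y hY
      _ ≤ ∑ C ∈ causes D l PX b, ∑ Y ∈
          PX.powerset.filter (fun Y => C0 ∪ C ⊆ Y ∧ ∀ b' ∈ K, IsBad D l Y b'), m Y := by
          refine sum_biUnion_le' _ _ _ fun C _ Y hY => ?_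
          exact hm Y (Finset.mem_filter.1 hY).1
      _ ≤ ∑ C ∈ causes D l PX b, (∏ p ∈ C, ρ p) * ((∏ p ∈ C0, ρ p) * (η ^ K.card * M)) := by
          refine Finset.sum_le_sum fun C hC => ?_
          obtain ⟨hCPX, hCb⟩ := cause_block D l PX b hC
          refine (ih (C0 ∪ C) (Finset.union_subset hC0 hCPX) ?_).trans (le_of_eq ?_)
          · intro p hp hpK
            rw [Finset.mem_union] at hp
            rcases hp with hp | hp
            · exact hC0K p hp (Finset.mem_insert_of_mem hpK)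
            · rw [hCb p hp] at hpK
              exact hb hpK
          · rw [Finset.prod_union]
            · ring
            · rw [Finset.disjoint_left]
              intro p hp hp'
              exact hC0K p hp (by rw [hCb p hp']; exact Finset.mem_insert_self _ _)
      _ = (∑ C ∈ causes D l PX b, ∏ p ∈ C, ρ p) * ((∏ p ∈ C0, ρ p) * (η ^ K.card * M)) := by
          rw [Finset.sum_mul]
      _ ≤ η * ((∏ p ∈ C0, ρ p) * (η ^ K.card * M)) :=
          mul_le_mul_of_nonneg_right (hcause b)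
            (mul_nonneg (Finset.prod_nonneg fun p _ => h0 p) (mul_nonneg (pow_nonneg hη _) hM))
      _ = _ := by
          rw [Finset.card_insert_of_notMem hb, pow_succ]
          ring

/-- the ball -/
def ball (r : ℕ) (u : Site d) : Finset (Site d) :=
  Fintype.piFinset fun k => Finset.Icc (u k - (r : ℤ)) (u k + r)

theorem mem_ball {r : ℕ} {u v : Site d} : v ∈ ball r u ↔ Near r v u := by
  rw [ball, Fintype.mem_piFinset]
  refine forall_congr' fun k => ?_
  rw [Finset.mem_Icc, abs_le]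
  omega

theorem card_ball_le (r : ℕ) (u : Site d) : (ball r u).card ≤ (2 * r + 1) ^ d :=
  card_ball r u _ fun _ hv => mem_ball.1 hv

/-- the bad blocks and the blocks of the observables -/
def badS (D : Dir d) (l r : ℕ) (u v : Site d) (Y : Finset (Plaq d)) : Finset (Site d) :=
  badF D l Y ∪ (ball r u ∪ ball r v)

/-- the radius of the neighbourhoods -/
def Rad (d : ℕ) : ℕ := d + 3

/-- the blocks `u`, `v` are linked -/
def Linked (D : Dir d) (l r : ℕ) (u v : Site d) (Y : Finset (Plaq d)) : Prop :=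
  Lk (Nbh (Rad d) (↑(badS D l r u v Y) : Set (Site d))) u v

/-- the density constant -/
def K0 (d : ℕ) : ℕ := 3 * (2 * Rad d + 1) ^ d

theorem link_bound (D : Dir d) {l : ℕ} (hl : 0 < l) (PX : Finset (Plaq d))
    (ρ : Plaq d → ℝ) (θ : ℝ) (h0 : ∀ p, 0 ≤ ρ p) (hθ : 0 < θ) (hθ1 : θ * (4 * 9 ^ d) ≤ 1)
    (hcause : ∀ b, ∑ C ∈ causes D l PX b, ∏ p ∈ C, ρ p ≤ θ ^ K0 d)
    (m : Finset (Plaq d) → ℝ) (hm : ∀ Y ∈ PX.powerset, 0 ≤ m Y) (M : ℝ) (hM : 0 ≤ M)
    (hstar : ∀ C ⊆ PX, ∑ Y ∈ PX.powerset.filter (fun Y => C ⊆ Y), m Y ≤ (∏ p ∈ C, ρ p) * M)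
    (r : ℕ) (u v : Site d) (k : Fin d) :
    ∑ Y ∈ PX.powerset.filter (fun Y => Linked D l r u v Y), m Y ≤
      (1 / 2) ^ (|v k - u k|).toNat * (θ ^ (K0 d * (2 * (2 * r + 1) ^ d)))⁻¹ * M := by
  set n := 2 * (2 * r + 1) ^ d with hn
  set D0 := (|v k - u k|).toNat with hD0
  set Nm := K0 d * (PX.card + n) with hNm
  have h9 : (1 : ℝ) ≤ 9 ^ d := one_le_pow₀ (by norm_num)
  have hθle : θ ≤ 1 := by nlinarith
  set fam : ℕ → Finset (Finset (Site d) × Finset (Site d)) := fun t =>
    ((anims u t).filter fun Q => Q.card = t + 1).biUnion fun Q =>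
      (Q.powerset.filter fun K => t + 1 ≤ K0 d * (K.card + n)).image fun K => (Q, K) with hfam
  have hfamcard : ∀ t, (fam t).card ≤ (9 ^ d) ^ t * 2 ^ (t + 1) := by
    intro t
    simp only [hfam]
    refine (Finset.card_biUnion_le_card_mul _ _ (2 ^ (t + 1)) ?_).trans ?_
    · intro Q hQ
      rw [Finset.mem_filter] at hQ
      refine Finset.card_image_le.trans ((Finset.card_filter_le _ _).trans (le_of_eq ?_))
      rw [Finset.card_powerset, hQ.2]
    · exact Nat.mul_le_mul_right _ ((Finset.card_filter_le _ _).trans (card_anims u t))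
  have hsub : PX.powerset.filter (fun Y => Linked D l r u v Y) ⊆
      (Finset.Icc D0 Nm).biUnion fun t => (fam t).biUnion fun QK =>
        PX.powerset.filter fun Y => (∅ : Finset (Plaq d)) ⊆ Y ∧ ∀ b ∈ QK.2, IsBad D l Y b := by
    intro Y hY
    rw [Finset.mem_filter, Finset.mem_powerset] at hY
    obtain ⟨hYP, hlk⟩ := hY
    have hu : u ∈ Nbh (Rad d) (↑(badS D l r u v Y) : Set (Site d)) := by
      refine ⟨u, ?_, near_self (by positivity) _⟩
      rw [Finset.mem_coe, badS, Finset.mem_union, Finset.mem_union]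
      exact Or.inr (Or.inl (mem_ball.2 (near_self (by positivity) _)))
    obtain ⟨Q, hQ1, hQu, hQv, hQc⟩ := linked_set (Rad d) (badS D l r u v Y) hu hlk
    have hQpos : 1 ≤ Q.card := Finset.card_pos.2 ⟨u, hQu⟩
    have hcardK : (badS D l r u v Y ∩ Q).card ≤ (badF D l Y ∩ Q).card + n := by
      have h1 : badS D l r u v Y ∩ Q ⊆ (badF D l Y ∩ Q) ∪ (ball r u ∪ ball r v) := by
        intro x hx
        simp only [badS, Finset.mem_inter, Finset.mem_union] at hx ⊢
        tauto
      refine (Finset.card_le_card h1).trans ((Finset.card_union_le _ _).trans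
        (Nat.add_le_add_left ?_ _))
      refine (Finset.card_union_le _ _).trans ?_
      have := card_ball_le r u
      have := card_ball_le r v
      omega
    have hQK : Q.card ≤ K0 d * ((badF D l Y ∩ Q).card + n) :=
      hQc.trans (Nat.mul_le_mul_left _ hcardK)
    have hbadcard : (badF D l Y ∩ Q).card ≤ PX.card := by
      refine (Finset.card_le_card Finset.inter_subset_left).trans ?_
      refine (Finset.card_filter_le _ _).trans (Finset.card_image_le.trans ?_)
      exact Finset.card_le_card hYP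
    have hdiam : |v k - u k| < Q.card := cluster_diam Q
      (fun w hw => by exact_mod_cast Conn.mem hw (by exact_mod_cast hQu)) (hQ1 u hQu v hQv) k
    rw [Finset.mem_biUnion]
    refine ⟨Q.card - 1, ?_, ?_⟩
    · rw [Finset.mem_Icc]
      refine ⟨by omega, ?_⟩
      have : Q.card ≤ Nm := hQK.trans (Nat.mul_le_mul_left _ (Nat.add_le_add_right hbadcard _))
      omega
    · rw [Finset.mem_biUnion]
      refine ⟨(Q, badF D l Y ∩ Q), ?_, ?_⟩
      · simp only [hfam, Finset.mem_biUnion, Finset.mem_filter, Finset.mem_image,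
          Finset.mem_powerset, Prod.mk.injEq]
        refine ⟨Q, ⟨mem_anims u Q hQu hQ1, by omega⟩, badF D l Y ∩ Q,
          ⟨Finset.inter_subset_right, ?_⟩, rfl, rfl⟩
        omega
      · rw [Finset.mem_filter, Finset.mem_powerset]
        exact ⟨hYP, Finset.empty_subset _, fun b hb =>
          (mem_badF hl).1 (Finset.mem_inter.1 hb).1⟩
  have hpow0 : 0 < θ ^ (K0 d * n) := pow_pos hθ _
  calc _ ≤ ∑ Y ∈ (Finset.Icc D0 Nm).biUnion fun t => (fam t).biUnion fun QK =>
        PX.powerset.filter fun Y => (∅ : Finset (Plaq d)) ⊆ Y ∧ ∀ b ∈ QK.2, IsBad D l Y b, m Y := by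
        refine Finset.sum_le_sum_of_subset_of_nonneg hsub fun Y hY _ => ?_
        simp only [Finset.mem_biUnion] at hY
        obtain ⟨_, -, _, -, hY⟩ := hY
        exact hm Y (Finset.mem_filter.1 hY).1
    _ ≤ ∑ t ∈ Finset.Icc D0 Nm, ∑ Y ∈ (fam t).biUnion fun QK =>
        PX.powerset.filter fun Y => (∅ : Finset (Plaq d)) ⊆ Y ∧ ∀ b ∈ QK.2, IsBad D l Y b, m Y := by
        refine sum_biUnion_le' _ _ _ fun t _ Y hY => ?_
        simp only [Finset.mem_biUnion] at hY
        obtain ⟨_, -, hY⟩ := hY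
        exact hm Y (Finset.mem_filter.1 hY).1
    _ ≤ ∑ t ∈ Finset.Icc D0 Nm, ∑ QK ∈ fam t, ∑ Y ∈
        PX.powerset.filter fun Y => (∅ : Finset (Plaq d)) ⊆ Y ∧ ∀ b ∈ QK.2, IsBad D l Y b, m Y := by
        refine Finset.sum_le_sum fun t _ => sum_biUnion_le' _ _ _ fun QK _ Y hY => ?_
        exact hm Y (Finset.mem_filter.1 hY).1
    _ ≤ ∑ t ∈ Finset.Icc D0 Nm, ∑ _QK ∈ fam t, θ ^ (t + 1) * (θ ^ (K0 d * n))⁻¹ * M := by
        refine Finset.sum_le_sum fun t _ => Finset.sum_le_sum fun QK hQK => ?_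
        simp only [hfam, Finset.mem_biUnion, Finset.mem_filter, Finset.mem_image,
          Finset.mem_powerset] at hQK
        obtain ⟨Q, -, K, ⟨-, hK⟩, rfl⟩ := hQK
        refine (bad_bound D hl PX ρ (θ ^ K0 d) h0 (pow_nonneg hθ.le _) hcause m hm M hM hstar K
          ∅ (Finset.empty_subset _) (by simp)).trans ?_
        rw [Finset.prod_empty, one_mul, ← pow_mul]
        refine mul_le_mul_of_nonneg_right ?_ hM
        rw [← div_eq_mul_inv, le_div_iff₀ hpow0, ← pow_add]
        refine pow_le_pow_of_le_one hθ.le hθle ?_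
        rw [← mul_add]
        exact hK
    _ ≤ ∑ t ∈ Finset.Icc D0 Nm, (1 / 2 : ℝ) ^ (t + 1) * ((θ ^ (K0 d * n))⁻¹ * M) := by
        refine Finset.sum_le_sum fun t _ => ?_
        rw [Finset.sum_const, nsmul_eq_mul, mul_assoc, ← mul_assoc]
        refine mul_le_mul_of_nonneg_right ?_ (mul_nonneg (inv_nonneg.2 hpow0.le) hM)
        have h1 : ((fam t).card : ℝ) ≤ (9 ^ d) ^ t * 2 ^ (t + 1) := by
          exact_mod_cast hfamcard t
        have h2 : (9 ^ d : ℝ) ^ t * 2 ^ (t + 1) * θ ^ (t + 1) ≤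
            (9 ^ d : ℝ) ^ (t + 1) * 2 ^ (t + 1) * θ ^ (t + 1) := by
          refine mul_le_mul_of_nonneg_right (mul_le_mul_of_nonneg_right ?_ (by positivity))
            (pow_nonneg hθ.le _)
          exact pow_le_pow_right₀ h9 (Nat.le_succ t)
        calc ((fam t).card : ℝ) * θ ^ (t + 1) ≤ (9 ^ d) ^ t * 2 ^ (t + 1) * θ ^ (t + 1) :=
              mul_le_mul_of_nonneg_right h1 (pow_nonneg hθ.le _)
          _ ≤ (9 ^ d : ℝ) ^ (t + 1) * 2 ^ (t + 1) * θ ^ (t + 1) := h2
          _ = (9 ^ d * 2 * θ) ^ (t + 1) := by rw [mul_pow, mul_pow]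
          _ ≤ (1 / 2 : ℝ) ^ (t + 1) := by
              refine pow_le_pow_left₀ (by positivity) ?_ _
              linarith
    _ = (∑ t ∈ Finset.Icc D0 Nm, (1 / 2 : ℝ) ^ (t + 1)) * ((θ ^ (K0 d * n))⁻¹ * M) := by
        rw [Finset.sum_mul]
    _ ≤ (1 / 2 : ℝ) ^ D0 * ((θ ^ (K0 d * n))⁻¹ * M) := by
        refine mul_le_mul_of_nonneg_right ?_ (mul_nonneg (inv_nonneg.2 hpow0.le) hM)
        have hgeo : ∀ N : ℕ, ∑ t ∈ Finset.Ico D0 (D0 + N), (1 / 2 : ℝ) ^ (t + 1) ≤
            (1 / 2 : ℝ) ^ D0 - (1 / 2) ^ (D0 + N) := by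
          intro N
          induction N with
          | zero => simp
          | succ N ih =>
            rw [← add_assoc, Finset.sum_Ico_succ_top (by omega)]
            have : (1 / 2 : ℝ) ^ (D0 + N + 1) = (1 / 2) ^ (D0 + N) / 2 := by rw [pow_succ]; ring
            linarith
        have h1 := hgeo (Nm + 1)
        have h2 : ∑ t ∈ Finset.Icc D0 Nm, (1 / 2 : ℝ) ^ (t + 1) ≤
            ∑ t ∈ Finset.Ico D0 (D0 + (Nm + 1)), (1 / 2 : ℝ) ^ (t + 1) := by
          refine Finset.sum_le_sum_of_subset_of_nonneg ?_ fun t _ _ => by positivity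
          intro t ht
          rw [Finset.mem_Icc] at ht
          rw [Finset.mem_Ico]
          omega
        have h3 : (0 : ℝ) ≤ (1 / 2) ^ (D0 + (Nm + 1)) := by positivity
        linarith
    _ = _ := by ring

end Pool.Agent.T2h96
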