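import Pool.Agent.T2h96.Geo

/-!
# helper96: the core in the planes without restriction

A discrete version of Janiszewski's theorem: a face of the core lies between two marked links of
one and the same cluster.
-/

set_option autoImplicit false

noncomputable section

namespace Pool.Agent.T2h96

variable {d : ℕ}

theorem row_sum (N : ℕ) (A B : ℤ → ℤ → ℤ)
    (hcl : ∀ s t, B s t - B (s - 1) t = A s t - A s (t - 1))
    (hB : ∀ s t, (s < -(N : ℤ) ∨ (N : ℤ) ≤ s) → B s t = 0)
    (hA : ∀ s t, t < -(N : ℤ) → A s t = 0) :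
    ∀ t, ∑ k ∈ Finset.range (2 * N + 1), A ((k : ℤ) - N) t = 0 := by
  have hstep : ∀ t, ∑ k ∈ Finset.range (2 * N + 1), A ((k : ℤ) - N) t =
      ∑ k ∈ Finset.range (2 * N + 1), A ((k : ℤ) - N) (t - 1) := by
    intro t
    rw [← sub_eq_zero, ← Finset.sum_sub_distrib]
    have h1 : ∀ k ∈ Finset.range (2 * N + 1),
        A ((k : ℤ) - N) t - A ((k : ℤ) - N) (t - 1) =
          (fun m : ℕ => B ((m : ℤ) - N - 1) t) (k + 1) - (fun m : ℕ => B ((m : ℤ) - N - 1) t) k := by
      intro k _
      rw [← hcl]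
      simp only [Nat.cast_add, Nat.cast_one]
      congr 2
      ring
    rw [Finset.sum_congr rfl h1]
    refine (Finset.sum_range_sub (fun m : ℕ => B ((m : ℤ) - N - 1) t) _).trans ?_
    rw [hB _ _ (Or.inr (by push_cast; omega)), hB _ _ (Or.inl (by push_cast; omega)), sub_zero]
  have hup : ∀ n : ℕ, ∑ k ∈ Finset.range (2 * N + 1), A ((k : ℤ) - N) (-(N : ℤ) - 1 + n) = 0 := by
    intro n
    induction n with
    | zero =>
      refine Finset.sum_eq_zero fun k _ => hA _ _ (by push_cast; omega)
    | succ n ih =>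
      rw [hstep, ← ih]
      refine Finset.sum_congr rfl fun k _ => ?_
      congr 1
      push_cast
      ring
  intro t
  by_cases ht : t < -(N : ℤ)
  · exact Finset.sum_eq_zero fun k _ => hA _ _ ht
  · have := hup (t + N + 1).toNat
    rw [show (-(N : ℤ) - 1 + ((t + N + 1).toNat : ℤ)) = t by omega] at this
    exact this

/-- A face of the core in a plane without restriction lies between two blocks of the same cluster
of marked blocks. -/
theorem core_plane (l : ℤ) (hl : 0 < l) (FP MP : Fin d → Fin d → Prop)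
    (hFM : ∀ a b b', FP a b → ¬ MP a b') (hFs : ∀ a b, FP a b → FP b a)
    (hMs : ∀ a b, MP a b → MP b a) (hM1 : ∀ a b b', MP a b → MP a b' → b = b')
    (S : Set (Link d)) (R : Finset (Plaq d)) (hcore : IsCore bd S R)
    (hR : ∀ p ∈ R, FP p.i p.j ∨ MP p.i p.j) (Z : Set (Site d))
    (hS : ∀ y ∈ S, bl l y.1 ∈ Z) (p : Plaq d) (hp : p ∈ R) (a b : Fin d) (hab : MP a b)
    (hpl : Pl a b p) :
    ∃ s₁ s₂ : ℤ, s₁ ≤ 0 ∧ 0 < s₂ ∧ bl l (p.x + Pi.single a s₁) ∈ Z ∧
      bl l (p.x + Pi.single a s₂) ∈ Z ∧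
      Relation.ReflTransGen (fun u v => v ∈ Z ∧ Near 1 u v) (bl l (p.x + Pi.single a s₁))
        (bl l (p.x + Pi.single a s₂)) := by
  classical
  have hne : a ≠ b := by
    rintro rfl
    rcases hpl with ⟨h1, h2⟩ | ⟨h1, h2⟩ <;> exact absurd p.lt (by rw [h1, h2]; exact lt_irrefl _)
  -- plane coordinates
  set y : ℤ → ℤ → Site d := fun s t => p.x + Pi.single a s + Pi.single b t with hy
  have hya : ∀ s t, y s t = y (s - 1) t + e a := by
    intro s t
    funext k
    simp only [hy, e, Pi.add_apply, Pi.single_apply]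
    split_ifs <;> ring
  have hyb : ∀ s t, y s t = y s (t - 1) + e b := by
    intro s t
    funext k
    simp only [hy, e, Pi.add_apply, Pi.single_apply]
    split_ifs <;> ring
  set χ : ℤ → ℤ → ℤ := fun s t => if ∃ q ∈ R, q.x = y s t ∧ Pl a b q then 1 else 0 with hχ
  have hMba : MP b a := hMs _ _ hab
  -- the direction of a face of `R` which contains a link of the plane
  have hplane : ∀ (q : Plaq d) (z : Site d) (c c' : Fin d), MP c c' → q ∈ R → (z, c) ∈ bd q →
      Pl c c' q ∧ (z = q.x ∨ z = q.x + e c') := by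
    intro q z c c' hM hq hz
    obtain ⟨b', hb', hzb⟩ := mem_bd hz
    have h1 := hR q hq
    have h2 : MP c b' := by
      rcases hb' with ⟨h3, h4⟩ | ⟨h3, h4⟩
      · rw [h3, h4] at h1
        exact h1.resolve_left fun h => hFM _ _ c' h hM
      · rw [h3, h4] at h1
        rcases h1 with h1 | h1
        · exact absurd hM (hFM _ _ c' (hFs _ _ h1))
        · exact hMs _ _ h1
    rw [← hM1 _ _ _ hM h2] at hb' hzb
    exact ⟨hb', hzb⟩
  have hαb : ∀ s t, χ s t - χ (s - 1) t ≠ 0 → bl l (y s t) ∈ Z := by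
    intro s t h
    have hlink : ((y s t, b) : Link d) ∈ S := by
      by_cases h1 : ∃ q ∈ R, q.x = y s t ∧ Pl a b q
      · by_cases h2 : ∃ q ∈ R, q.x = y (s - 1) t ∧ Pl a b q
        · exact absurd (by simp only [hχ, if_pos h1, if_pos h2, sub_self]) h
        · obtain ⟨q, hq, hqx, hqp⟩ := h1
          have hmem : (y s t, b) ∈ bd q := by rw [← hqx]; exact bd_left hqp.symm
          rcases hcore q hq _ hmem with hS' | ⟨q', hq', hne', hz'⟩
          · exact hS'
          · obtain ⟨h3, h4⟩ := hplane q' _ b a hMba hq' hz'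
            rcases h4 with h4 | h4
            · exact absurd (h3.ext hqp.symm (h4.symm.trans hqx.symm)) hne'
            · exact absurd ⟨q', hq', add_right_cancel (h4.symm.trans (hya s t)), h3.symm⟩ h2
      · by_cases h2 : ∃ q ∈ R, q.x = y (s - 1) t ∧ Pl a b q
        · obtain ⟨q, hq, hqx, hqp⟩ := h2
          have hmem : (y s t, b) ∈ bd q := by
            rw [hya s t, ← hqx]; exact bd_right hqp.symm
          rcases hcore q hq _ hmem with hS' | ⟨q', hq', hne', hz'⟩
          · exact hS'
          · obtain ⟨h3, h4⟩ := hplane q' _ b a hMba hq' hz'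
            rcases h4 with h4 | h4
            · exact absurd ⟨q', hq', h4.symm, h3.symm⟩ h1
            · refine absurd (h3.ext hqp.symm ?_) hne'
              rw [hqx]
              exact add_right_cancel (h4.symm.trans (hya s t))
        · exact absurd (by simp only [hχ, if_neg h1, if_neg h2, sub_self]) h
    exact hS _ hlink
  have hαa : ∀ s t, χ s t - χ s (t - 1) ≠ 0 → bl l (y s t) ∈ Z := by
    intro s t h
    have hlink : ((y s t, a) : Link d) ∈ S := by
      by_cases h1 : ∃ q ∈ R, q.x = y s t ∧ Pl a b q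
      · by_cases h2 : ∃ q ∈ R, q.x = y s (t - 1) ∧ Pl a b q
        · exact absurd (by simp only [hχ, if_pos h1, if_pos h2, sub_self]) h
        · obtain ⟨q, hq, hqx, hqp⟩ := h1
          have hmem : (y s t, a) ∈ bd q := by rw [← hqx]; exact bd_left hqp
          rcases hcore q hq _ hmem with hS' | ⟨q', hq', hne', hz'⟩
          · exact hS'
          · obtain ⟨h3, h4⟩ := hplane q' _ a b hab hq' hz'
            rcases h4 with h4 | h4
            · exact absurd (h3.ext hqp (h4.symm.trans hqx.symm)) hne'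
            · exact absurd ⟨q', hq', add_right_cancel (h4.symm.trans (hyb s t)), h3⟩ h2
      · by_cases h2 : ∃ q ∈ R, q.x = y s (t - 1) ∧ Pl a b q
        · obtain ⟨q, hq, hqx, hqp⟩ := h2
          have hmem : (y s t, a) ∈ bd q := by
            rw [hyb s t, ← hqx]; exact bd_right hqp
          rcases hcore q hq _ hmem with hS' | ⟨q', hq', hne', hz'⟩
          · exact hS'
          · obtain ⟨h3, h4⟩ := hplane q' _ a b hab hq' hz'
            rcases h4 with h4 | h4
            · exact absurd ⟨q', hq', h4.symm, h3⟩ h1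
            · refine absurd (h3.ext hqp ?_) hne'
              rw [hqx]
              exact add_right_cancel (h4.symm.trans (hyb s t))
        · exact absurd (by simp only [hχ, if_neg h1, if_neg h2, sub_self]) h
    exact hS _ hlink
  -- a bound for the support
  obtain ⟨N, hN⟩ : ∃ N : ℕ, ∀ s t : ℤ, ((N : ℤ) ≤ |s| ∨ (N : ℤ) ≤ |t|) → χ s t = 0 := by
    refine ⟨(∑ q ∈ R, ((q.x a - p.x a).natAbs + (q.x b - p.x b).natAbs)) + 1, fun s t h => ?_⟩
    rw [hχ]
    refine if_neg ?_
    rintro ⟨q, hq, hqx, -⟩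
    have h1 : (q.x a - p.x a).natAbs + (q.x b - p.x b).natAbs ≤
        ∑ q ∈ R, ((q.x a - p.x a).natAbs + (q.x b - p.x b).natAbs) :=
      Finset.single_le_sum (f := fun q : Plaq d =>
        (q.x a - p.x a).natAbs + (q.x b - p.x b).natAbs) (fun _ _ => Nat.zero_le _) hq
    have h2 : q.x a - p.x a = s := by
      rw [hqx, hy]
      simp [Pi.single_eq_of_ne hne]
    have h3 : q.x b - p.x b = t := by
      rw [hqx, hy]
      simp [Pi.single_eq_of_ne hne.symm]
    rw [h2, h3] at h1
    generalize (∑ q ∈ R, ((q.x a - p.x a).natAbs + (q.x b - p.x b).natAbs)) = σ at h h1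
    rw [Int.abs_eq_natAbs, Int.abs_eq_natAbs] at h
    rcases h with h | h <;> omega
  by_contra hcon
  push Not at hcon
  -- the set of blocks connected to a marked link on the left
  set T : Set (Site d) := {v | ∃ s₁ : ℤ, s₁ ≤ 0 ∧ χ s₁ 0 - χ (s₁ - 1) 0 ≠ 0 ∧
    Relation.ReflTransGen (fun u v => v ∈ Z ∧ Near 1 u v) (bl l (y s₁ 0)) v} with hT
  have hTcl : ∀ u v, u ∈ T → v ∈ Z → Near 1 u v → v ∈ T := by
    rintro u v ⟨s₁, h1, h2, h3⟩ hv huv
    exact ⟨s₁, h1, h2, h3.tail ⟨hv, huv⟩⟩
  set A : ℤ → ℤ → ℤ := fun s t => if bl l (y s t) ∈ T then χ s t - χ (s - 1) t else 0 with hA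
  set B : ℤ → ℤ → ℤ := fun s t => if bl l (y s t) ∈ T then χ s t - χ s (t - 1) else 0 with hB
  have hn1 : ∀ s t, Near 1 (bl l (y s t)) (bl l (y (s - 1) t)) := fun s t => by
    refine near_bl hl ?_
    rw [hya s t]
    exact near_e _ _
  have hn2 : ∀ s t, Near 1 (bl l (y s t)) (bl l (y s (t - 1))) := fun s t => by
    refine near_bl hl ?_
    rw [hyb s t]
    exact near_e _ _
  have hn3 : ∀ s t, Near 1 (bl l (y (s - 1) t)) (bl l (y s (t - 1))) := fun s t => by
    refine near_bl hl fun k => ?_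
    simp only [hy, Pi.add_apply, Pi.single_apply]
    by_cases h1 : k = a
    · have h2 : k ≠ b := fun h => hne (h1.symm.trans h)
      simp [h1, hne]
    · by_cases h2 : k = b
      · simp [h2, hne.symm]
      · simp [h1, h2]
  have hcl : ∀ s t, B s t - B (s - 1) t = A s t - A s (t - 1) := by
    intro s t
    by_cases hin : bl l (y s t) ∈ T ∧ (χ s t - χ s (t - 1) ≠ 0 ∨ χ s t - χ (s - 1) t ≠ 0) ∨
        bl l (y (s - 1) t) ∈ T ∧ χ (s - 1) t - χ (s - 1) (t - 1) ≠ 0 ∨
        bl l (y s (t - 1)) ∈ T ∧ χ s (t - 1) - χ (s - 1) (t - 1) ≠ 0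
    · -- all marked links at the vertex belong to `T`
      have hw : ∃ w ∈ T, Near 1 w (bl l (y s t)) ∧ Near 1 w (bl l (y (s - 1) t)) ∧
          Near 1 w (bl l (y s (t - 1))) := by
        rcases hin with ⟨h, -⟩ | ⟨h, -⟩ | ⟨h, -⟩
        · exact ⟨_, h, near_self (by norm_num) _, hn1 s t, hn2 s t⟩
        · exact ⟨_, h, (hn1 s t).symm, near_self (by norm_num) _, hn3 s t⟩
        · exact ⟨_, h, (hn2 s t).symm, (hn3 s t).symm, near_self (by norm_num) _⟩
      obtain ⟨w, hw, hw1, hw2, hw3⟩ := hw
      have e1 : B s t = χ s t - χ s (t - 1) := by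
        by_cases h0 : χ s t - χ s (t - 1) = 0
        · simp only [hB, h0, ite_self]
        · exact if_pos (hTcl _ _ hw (hαa s t h0) hw1)
      have e2 : B (s - 1) t = χ (s - 1) t - χ (s - 1) (t - 1) := by
        by_cases h0 : χ (s - 1) t - χ (s - 1) (t - 1) = 0
        · simp only [hB, h0, ite_self]
        · exact if_pos (hTcl _ _ hw (hαa (s - 1) t h0) hw2)
      have e3 : A s t = χ s t - χ (s - 1) t := by
        by_cases h0 : χ s t - χ (s - 1) t = 0
        · simp only [hA, h0, ite_self]
        · exact if_pos (hTcl _ _ hw (hαb s t h0) hw1)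
      have e4 : A s (t - 1) = χ s (t - 1) - χ (s - 1) (t - 1) := by
        by_cases h0 : χ s (t - 1) - χ (s - 1) (t - 1) = 0
        · simp only [hA, h0, ite_self]
        · exact if_pos (hTcl _ _ hw (hαb s (t - 1) h0) hw3)
      rw [e1, e2, e3, e4]
      ring
    · push Not at hin
      obtain ⟨h1, h2, h3⟩ := hin
      have e1 : B s t = 0 := by
        simp only [hB]
        split_ifs with h
        · exact (h1 h).1
        · rfl
      have e2 : B (s - 1) t = 0 := by
        simp only [hB]
        split_ifs with h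
        · exact h2 h
        · rfl
      have e3 : A s t = 0 := by
        simp only [hA]
        split_ifs with h
        · exact (h1 h).2
        · rfl
      have e4 : A s (t - 1) = 0 := by
        simp only [hA]
        split_ifs with h
        · exact h3 h
        · rfl
      rw [e1, e2, e3, e4]
  have hsum := row_sum (N + 1) A B hcl
    (fun s t h => by
      have h1 : χ s t = 0 := hN s t (Or.inl (by
        rcases h with h | h
        · rw [abs_of_neg (by push_cast at h; omega)]; push_cast at h; omega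
        · exact le_trans (by push_cast at h; omega) (le_abs_self s)))
      have h2 : χ s (t - 1) = 0 := hN s (t - 1) (Or.inl (by
        rcases h with h | h
        · rw [abs_of_neg (by push_cast at h; omega)]; push_cast at h; omega
        · exact le_trans (by push_cast at h; omega) (le_abs_self s)))
      simp only [hB, h1, h2, sub_self, ite_self])
    (fun s t h => by
      have h1 : χ s t = 0 := hN s t (Or.inr (by
        rw [abs_of_neg (by push_cast at h; omega)]; push_cast at h; omega))
      have h2 : χ (s - 1) t = 0 := hN (s - 1) t (Or.inr (by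
        rw [abs_of_neg (by push_cast at h; omega)]; push_cast at h; omega))
      simp only [hA, h1, h2, sub_self, ite_self]) 0
  have hval : ∀ k ∈ Finset.range (2 * (N + 1) + 1), A ((k : ℤ) - (N + 1 : ℕ)) 0 =
      if k < N + 2 then χ ((k : ℤ) - (N + 1 : ℕ)) 0 - χ ((k : ℤ) - (N + 1 : ℕ) - 1) 0 else 0 := by
    intro k _
    by_cases hk : k < N + 2
    · rw [if_pos hk]
      by_cases h0 : χ ((k : ℤ) - (N + 1 : ℕ)) 0 - χ ((k : ℤ) - (N + 1 : ℕ) - 1) 0 = 0
      · simp only [hA, h0, ite_self]
      · simp only [hA]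
        refine if_pos ⟨(k : ℤ) - (N + 1 : ℕ), by push_cast; omega, h0, .refl⟩
    · rw [if_neg hk]
      simp only [hA]
      split_ifs with hmem
      · by_contra h0
        obtain ⟨s₁, hs1, hs2, hs3⟩ := hmem
        have hy0 : ∀ s, y s 0 = p.x + Pi.single a s := fun s => by simp [hy]
        rw [hy0, hy0] at hs3
        refine hcon s₁ ((k : ℤ) - (N + 1 : ℕ)) hs1 (by push_cast; omega) ?_ ?_ hs3
        · rw [← hy0]; exact hαb _ _ hs2
        · rw [← hy0]; exact hαb _ _ h0
      · rfl
  rw [Finset.sum_congr rfl hval, Finset.sum_ite, Finset.sum_const_zero, add_zero] at hsum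
  have hfil : (Finset.range (2 * (N + 1) + 1)).filter (fun k => k < N + 2) =
      Finset.range (N + 2) := by
    ext k
    simp only [Finset.mem_filter, Finset.mem_range]
    omega
  rw [hfil] at hsum
  have htel : ∀ k ∈ Finset.range (N + 2),
      χ ((k : ℤ) - (N + 1 : ℕ)) 0 - χ ((k : ℤ) - (N + 1 : ℕ) - 1) 0 =
      (fun m : ℕ => χ ((m : ℤ) - (N + 1 : ℕ) - 1) 0) (k + 1) -
        (fun m : ℕ => χ ((m : ℤ) - (N + 1 : ℕ) - 1) 0) k := by
    intro k _
    simp only
    congr 2
    push_cast
    ring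
  rw [Finset.sum_congr rfl htel] at hsum
  have hsum := (Finset.sum_range_sub (fun m : ℕ => χ ((m : ℤ) - (N + 1 : ℕ) - 1) 0) _).symm.trans
    hsum
  have h1 : χ (((N + 2 : ℕ) : ℤ) - (N + 1 : ℕ) - 1) 0 = 1 := by
    rw [show (((N + 2 : ℕ) : ℤ) - (N + 1 : ℕ) - 1) = 0 by push_cast; ring]
    simp only [hχ]
    refine if_pos ⟨p, hp, ?_, hpl⟩
    simp [hy]
  have h2 : χ (((0 : ℕ) : ℤ) - (N + 1 : ℕ) - 1) 0 = 0 := hN _ _ (Or.inl (by
    rw [abs_of_neg (by push_cast; omega)]; push_cast; omega))
  rw [h1, h2] at hsum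
  exact absurd hsum (by norm_num)

end Pool.Agent.T2h96
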