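import Pool.Agent.T2h96.Sym

/-!
# helper96: invariance and reflection positivity in finite volume
-/

set_option autoImplicit false
set_option linter.unusedSectionVars false

noncomputable section

namespace Pool.Agent.T2h96

open MeasureTheory Measure Function Filter Classical
open scoped Topology

variable {d : ℕ} {G : Type} [Group G] [TopologicalSpace G] [IsTopologicalGroup G]
  [CompactSpace G] [T2Space G] [SecondCountableTopology G] [MeasurableSpace G] [BorelSpace G]
  (μ : Measure G) [μ.IsHaarMeasure] [IsProbabilityMeasure μ]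

theorem mp_reflC (τ : Fin d) :
    MeasurePreserving (reflC τ : (Link d → G) → Link d → G)
      (infinitePi fun _ : Link d => μ) (infinitePi fun _ : Link d => μ) := by
  have hi := inv_inv' μ
  have h := mp_reindex μ (reflE τ) (fun b g => if b.2 = τ then g⁻¹ else g) fun b => by
    by_cases hb : b.2 = τ
    · simp only [if_pos hb]
      exact Measure.measurePreserving_inv μ
    · simp only [if_neg hb]
      exact MeasurePreserving.id μ
  have h2 : (reflC τ : (Link d → G) → Link d → G) =
      fun U b => if b.2 = τ then (U (reflE τ b))⁻¹ else U (reflE τ b) := by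
    funext U b
    rw [reflC_eq]
    rfl
  rw [h2]
  exact h

theorem mp_shiftC (τ : Fin d) (n : ℤ) :
    MeasurePreserving (shiftC τ n : (Link d → G) → Link d → G)
      (infinitePi fun _ : Link d => μ) (infinitePi fun _ : Link d => μ) :=
  mp_reindex μ (shiftE τ n) (fun _ g => g) fun _ => MeasurePreserving.id μ

/-- transformation of the expectation -/
theorem expect_map {W : Plaq d → G → ℝ} (hW : WOK W) (T : (Link d → G) → Link d → G)
    (hT : MeasurePreserving T (infinitePi fun _ : Link d => μ) (infinitePi fun _ : Link d => μ))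
    (π : Plaq d ≃ Plaq d) (hπ : ∀ p U, W (π p) (hol U (π p)) = W p (hol (T U) p))
    (Q : Finset (Plaq d)) {A : (Link d → G) → ℝ} (hA : Measurable A) :
    expect μ W (Q.map π.toEmbedding) (fun U => A (T U)) = expect μ W Q A := by
  have hm : Measurable fun U : Link d → G => ∏ p ∈ Q, W p (hol U p) :=
    Finset.measurable_prod _ fun p _ => (hW.meas p).comp (meas_hol p)
  have h1 : ∀ U, ∏ p ∈ Q.map π.toEmbedding, W p (hol U p) = ∏ p ∈ Q, W p (hol (T U) p) := by
    intro U
    rw [Finset.prod_map]
    exact Finset.prod_congr rfl fun p _ => hπ p U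
  unfold expect
  simp only [h1]
  congr 1
  · have := integral_map (μ := infinitePi fun _ : Link d => μ) hT.measurable.aemeasurable
      (f := fun U => A U * ∏ p ∈ Q, W p (hol U p)) (hA.mul hm).aestronglyMeasurable
    rw [hT.map_eq] at this
    exact this.symm
  · have := integral_map (μ := infinitePi fun _ : Link d => μ) hT.measurable.aemeasurable
      (f := fun U => ∏ p ∈ Q, W p (hol U p)) hm.aestronglyMeasurable
    rw [hT.map_eq] at this
    exact this.symm

/-- the links on the positive side, with the ones in the hyperplane -/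
def posL (τ : Fin d) : Set (Link d) := {b | 0 ≤ b.1 τ}

/-- the links in the hyperplane -/
def zeroL (τ : Fin d) : Set (Link d) := {b | b.2 ≠ τ ∧ b.1 τ = 0}

theorem refl_fix (τ : Fin d) {x : Site d} (h : x τ = 0) : refl τ x = x := by
  funext k
  by_cases hk : k = τ
  · subst hk; simp [refl, h]
  · simp [refl, hk]

/-- glueing of a configuration in the hyperplane and one outside -/
def glue (τ : Fin d) (V U : Link d → G) : Link d → G := fun b => if b ∈ zeroL τ then V b else U b

theorem reflC_glue (τ : Fin d) (V U : Link d → G) :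
    reflC τ (glue τ V U) = glue τ V (reflC τ U) := by
  funext b
  by_cases hb : b ∈ zeroL τ
  · have h1 : glue τ V (reflC τ U) b = V b := if_pos hb
    have h2 : (refl τ b.1, b.2) = b := by rw [refl_fix τ hb.2]
    rw [h1]
    unfold reflC
    rw [if_neg hb.1, h2]
    exact if_pos hb
  · have h1 : glue τ V (reflC τ U) b = reflC τ U b := if_neg hb
    rw [h1]
    unfold reflC
    split_ifs with hc
    · have : ((refl τ b.1 - e τ, b.2) : Link d) ∉ zeroL τ := fun h => h.1 hc
      rw [show glue τ V U (refl τ b.1 - e τ, b.2) = U (refl τ b.1 - e τ, b.2) from if_neg this]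
    · have : ((refl τ b.1, b.2) : Link d) ∉ zeroL τ := by
        intro h
        refine hb ⟨hc, ?_⟩
        have h2 := h.2
        simp only [refl, if_true] at h2
        omega
      exact if_neg this

/-- reflection positivity of the product measure -/
theorem rp_prod (τ : Fin d) {Φ w : (Link d → G) → ℝ} (hΦ : BM Φ) (hw : BM w)
    (hw0 : ∀ U, 0 ≤ w U) (hΦd : DepOn (posL τ) Φ) (hwd : DepOn (zeroL τ) w) :
    0 ≤ ∫ U, Φ (reflC τ U) * Φ U * w U ∂(infinitePi fun _ : Link d => μ) := by
  have hmp := mp_glue (L := Link d) μ (zeroL τ)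
  have hrm : Measurable (reflC τ : (Link d → G) → Link d → G) := (mp_reflC μ τ).measurable
  have hΦr : BM fun U => Φ (reflC τ U) := by
    obtain ⟨C, hC⟩ := hΦ.bdd
    exact ⟨hΦ.meas.comp hrm, C, fun U => hC _⟩
  have hF : BM fun U => Φ (reflC τ U) * Φ U * w U := (hΦr.mul hΦ).mul hw
  have hgm : Measurable fun p : (Link d → G) × (Link d → G) => glue τ p.1 p.2 := hmp.measurable
  have h1 : ∫ U, Φ (reflC τ U) * Φ U * w U ∂(infinitePi fun _ : Link d => μ) =
      ∫ V, ∫ U, Φ (reflC τ (glue τ V U)) * Φ (glue τ V U) * w (glue τ V U)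
        ∂(infinitePi fun _ : Link d => μ) ∂(infinitePi fun _ : Link d => μ) := by
    have e1 : ∫ U, Φ (reflC τ U) * Φ U * w U ∂(infinitePi fun _ : Link d => μ) =
        ∫ p : (Link d → G) × (Link d → G), Φ (reflC τ (glue τ p.1 p.2)) * Φ (glue τ p.1 p.2) *
          w (glue τ p.1 p.2)
          ∂((infinitePi fun _ : Link d => μ).prod (infinitePi fun _ : Link d => μ)) := by
      conv_lhs => rw [← hmp.map_eq]
      rw [integral_map hmp.measurable.aemeasurable]
      · rfl
      · exact hF.meas.aestronglyMeasurable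
    rw [e1, integral_prod]
    obtain ⟨C, hC⟩ := hF.bdd
    exact Integrable.of_bound (hF.meas.comp hgm).aestronglyMeasurable C
      (.of_forall fun p => hC _)
  rw [h1]
  refine integral_nonneg fun V => ?_
  show 0 ≤ ∫ U, Φ (reflC τ (glue τ V U)) * Φ (glue τ V U) * w (glue τ V U)
    ∂(infinitePi fun _ : Link d => μ)
  have hgV : Measurable fun U : Link d → G => glue τ V U :=
    hgm.comp (measurable_const.prodMk measurable_id)
  have hw1 : ∀ U, w (glue τ V U) = w V := fun U => hwd _ _ fun b hb => if_pos hb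
  have e2 : ∀ U, Φ (reflC τ (glue τ V U)) * Φ (glue τ V U) * w (glue τ V U) =
      w V * (Φ (glue τ V U) * Φ (glue τ V (reflC τ U))) := by
    intro U
    rw [hw1, reflC_glue]
    ring
  simp only [e2]
  rw [integral_const_mul]
  refine mul_nonneg (hw0 V) ?_
  obtain ⟨C, hC⟩ := hΦ.bdd
  have hb1 : BM fun U : Link d → G => Φ (glue τ V U) := ⟨hΦ.meas.comp hgV, C, fun U => hC _⟩
  have hb2 : BM fun U : Link d → G => Φ (glue τ V (reflC τ U)) :=
    ⟨hΦ.meas.comp (hgV.comp hrm), C, fun U => hC _⟩
  have hd1 : DepOn (posL τ \ zeroL τ) fun U : Link d → G => Φ (glue τ V U) := by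
    intro U U' h
    refine hΦd _ _ fun b hb => ?_
    show (if b ∈ zeroL τ then V b else U b) = if b ∈ zeroL τ then V b else U' b
    split_ifs with hz
    · rfl
    · exact h b ⟨hb, hz⟩
  have hd2 : DepOn (posL τ \ zeroL τ)ᶜ fun U : Link d → G => Φ (glue τ V (reflC τ U)) := by
    intro U U' h
    refine hΦd _ _ fun b hb => ?_
    show (if b ∈ zeroL τ then V b else reflC τ U b) =
      if b ∈ zeroL τ then V b else reflC τ U' b
    split_ifs with hz
    · rfl
    · have hb' : 0 ≤ b.1 τ := hb
      unfold reflC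
      split_ifs with hc
      · rw [h]
        intro hm
        have h2 : 0 ≤ (refl τ b.1 - e τ) τ := hm.1
        simp only [refl, e, Pi.sub_apply, if_true, Pi.single_eq_same] at h2
        omega
      · refine h _ ?_
        intro hm
        have h2 : 0 ≤ (refl τ b.1) τ := hm.1
        have h3 := hm.2
        simp only [refl, if_true] at h2
        have h4 : b.1 τ = 0 := by omega
        exact hz ⟨hc, h4⟩
  rw [integral_factor μ (posL τ \ zeroL τ) hb1 hb2 hd1 hd2]
  have h3 : ∫ U, Φ (glue τ V (reflC τ U)) ∂(infinitePi fun _ : Link d => μ) =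
      ∫ U, Φ (glue τ V U) ∂(infinitePi fun _ : Link d => μ) := by
    have := integral_map (μ := infinitePi fun _ : Link d => μ) hrm.aemeasurable
      (f := fun U => Φ (glue τ V U)) hb1.meas.aestronglyMeasurable
    rw [(mp_reflC μ τ).map_eq] at this
    exact this.symm
  rw [h3]
  exact mul_self_nonneg _

/-- reflection positivity in a symmetric finite volume -/
theorem rp_finite {W : Plaq d → G → ℝ} (hW : WOK W) (hH : Homog W) (τ : Fin d)
    (P : Finset (Plaq d)) (hP : P.map (reflP τ).toEmbedding = P) {A : (Link d → G) → ℝ}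
    (hA : BM A) (hAd : DepOn (posL τ) A) :
    0 ≤ expect μ W P fun U => A (reflC τ U) * A U := by
  have hWbm : ∀ p, BM fun U : Link d → G => W p (hol U p) := by
    intro p
    obtain ⟨C, hC⟩ := hW.bdd p
    exact ⟨(hW.meas p).comp (meas_hol p), C, fun U => by
      rw [abs_of_nonneg (hW.nn p _)]; exact hC _⟩
  refine div_nonneg ?_ (integral_nonneg fun U => Finset.prod_nonneg fun p _ => hW.nn p _)
  -- the three classes of plaquettes
  set Sp : Plaq d → Prop := fun p => p.i ≠ τ ∧ p.j ≠ τ with hSp
  set P0 := P.filter fun p => Sp p ∧ p.x τ = 0 with hP0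
  set Pp := P.filter fun p => ¬ (Sp p ∧ p.x τ = 0) ∧ 0 ≤ p.x τ with hPp
  set Pm := P.filter fun p => ¬ (Sp p ∧ p.x τ = 0) ∧ ¬ 0 ≤ p.x τ with hPm
  have hmem : ∀ p, reflP τ p ∈ P ↔ p ∈ P := by
    intro p
    constructor
    · intro h
      have : reflP τ (reflP τ p) ∈ P := by
        rw [← hP]
        exact Finset.mem_map_of_mem _ h
      rwa [show reflP τ (reflP τ p) = p from reflPf_reflPf τ p] at this
    · intro h
      rw [← hP]
      exact Finset.mem_map_of_mem _ h
  have hx : ∀ p : Plaq d, ((reflP τ p).x τ = if p.i = τ ∨ p.j = τ then -p.x τ - 1 else -p.x τ) := by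
    intro p
    show (if p.i = τ ∨ p.j = τ then refl τ p.x - e τ else refl τ p.x) τ = _
    split_ifs <;> simp [refl, e]
  have hcls : ∀ p : Plaq d, (¬ (Sp p ∧ p.x τ = 0) ∧ 0 ≤ p.x τ) ↔
      (¬ (Sp (reflP τ p) ∧ (reflP τ p).x τ = 0) ∧ ¬ 0 ≤ (reflP τ p).x τ) := by
    intro p
    have hsp : Sp (reflP τ p) ↔ Sp p := Iff.rfl
    rw [hsp, hx p]
    by_cases hs : Sp p
    · have h2 : ¬ (p.i = τ ∨ p.j = τ) := fun h => h.elim hs.1 hs.2
      rw [if_neg h2]
      constructor
      · rintro ⟨h3, h4⟩
        have h5 : p.x τ ≠ 0 := fun h => h3 ⟨hs, h⟩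
        exact ⟨fun h => h5 (by omega), by omega⟩
      · rintro ⟨h3, h4⟩
        have h5 : p.x τ ≠ 0 := fun h => h3 ⟨hs, by omega⟩
        exact ⟨fun h => h5 h.2, by omega⟩
    · have h2 : p.i = τ ∨ p.j = τ := by
        by_contra h
        push Not at h
        exact hs h
      rw [if_pos h2]
      constructor
      · rintro ⟨h3, h4⟩
        exact ⟨fun h => hs h.1, by omega⟩
      · rintro ⟨h3, h4⟩
        exact ⟨fun h => hs h.1, by omega⟩
  have hPmap : Pp.map (reflP τ).toEmbedding = Pm := by
    ext q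
    rw [Finset.mem_map]
    constructor
    · rintro ⟨p, hp, rfl⟩
      rw [hPp, Finset.mem_filter] at hp
      rw [hPm, Finset.mem_filter]
      exact ⟨(hmem p).2 hp.1, (hcls p).1 hp.2⟩
    · intro hq
      rw [hPm, Finset.mem_filter] at hq
      refine ⟨reflP τ q, ?_, reflPf_reflPf τ q⟩
      rw [hPp, Finset.mem_filter]
      refine ⟨(hmem q).2 hq.1, (hcls _).2 ?_⟩
      rw [show reflP τ (reflP τ q) = q from reflPf_reflPf τ q]
      exact hq.2
  have hprod : ∀ U : Link d → G, ∏ p ∈ P, W p (hol U p) =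
      (∏ p ∈ P0, W p (hol U p)) * ((∏ p ∈ Pp, W p (hol U p)) *
        ∏ p ∈ Pp, W p (hol (reflC τ U) p)) := by
    intro U
    have h1 : ∏ p ∈ Pm, W p (hol U p) = ∏ p ∈ Pp, W p (hol (reflC τ U) p) := by
      rw [← hPmap, Finset.prod_map]
      exact Finset.prod_congr rfl fun p _ => W_refl hH τ U p
    rw [← h1, ← Finset.prod_filter_mul_prod_filter_not P (fun p => Sp p ∧ p.x τ = 0),
      ← Finset.prod_filter_mul_prod_filter_not (P.filter fun p => ¬ (Sp p ∧ p.x τ = 0))
        (fun p => 0 ≤ p.x τ), Finset.filter_filter, Finset.filter_filter]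
  set Φ : (Link d → G) → ℝ := fun U => A U * ∏ p ∈ Pp, W p (hol U p) with hΦ
  have h2 : ∀ U, A (reflC τ U) * A U * ∏ p ∈ P, W p (hol U p) =
      Φ (reflC τ U) * Φ U * ∏ p ∈ P0, W p (hol U p) := by
    intro U
    rw [hprod]
    simp only [hΦ]
    ring
  simp only [h2]
  have hnear : ∀ (p : Plaq d) (b : Link d), b ∈ bd p → 0 ≤ b.1 τ - p.x τ := by
    intro p b hb
    rcases bd_base (Or.inl ⟨rfl, rfl⟩ : Pl p.i p.j p) hb with h | h | h <;> rw [h]
    · simp
    · simp only [e, Pi.add_apply, Pi.single_apply]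
      split_ifs <;> simp
    · simp only [e, Pi.add_apply, Pi.single_apply]
      split_ifs <;> simp
  refine rp_prod μ τ (hA.mul (BM.prod Pp fun p _ => hWbm p)) (BM.prod P0 fun p _ => hWbm p)
    (fun U => Finset.prod_nonneg fun p _ => hW.nn p _) ?_ ?_
  · refine hAd.mul (DepOn.prod _ fun p hp => ?_)
    rw [hPp, Finset.mem_filter] at hp
    intro U V h
    show W p (hol U p) = W p (hol V p)
    rw [hol_dep p fun b hb => h b ?_]
    have h3 := hnear p b hb
    have h4 := hp.2.2
    show 0 ≤ b.1 τ
    omega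
  · refine DepOn.prod _ fun p hp => ?_
    rw [hP0, Finset.mem_filter] at hp
    intro U V h
    show W p (hol U p) = W p (hol V p)
    rw [hol_dep p fun b hb => h b ?_]
    obtain ⟨-, ⟨hi, hj⟩, hx0⟩ := hp
    obtain ⟨y, c⟩ := b
    obtain ⟨b', hb', hy⟩ := mem_bd hb
    have hc : c ≠ τ := by
      rcases hb' with ⟨h1, -⟩ | ⟨-, h1⟩ <;> rw [← h1] <;> assumption
    have hb'' : b' ≠ τ := by
      rcases hb' with ⟨-, h1⟩ | ⟨h1, -⟩ <;> rw [← h1] <;> assumption
    refine ⟨hc, ?_⟩
    show y τ = 0
    rcases hy with hy | hy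
    · rw [hy, hx0]
    · rw [hy]
      simp only [e, Pi.add_apply, Pi.single_eq_of_ne hb''.symm, hx0, add_zero]

end Pool.Agent.T2h96
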