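import Pool.Agent.T2h96.Plane

/-!
# helper96: clusters of bad blocks, their bounding boxes, and the separation of the core
-/

set_option autoImplicit false

noncomputable section

namespace Pool.Agent.T2h96

variable {d : ℕ}

/-- connected inside `Z` (steps of sup length at most one) -/
def Conn (Z : Set (Site d)) (u v : Site d) : Prop :=
  Relation.ReflTransGen (fun u v => v ∈ Z ∧ Near 1 u v) u v

theorem Conn.mem {Z : Set (Site d)} {u v : Site d} (h : Conn Z u v) (hu : u ∈ Z) : v ∈ Z := by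
  induction h with
  | refl => exact hu
  | tail _ h _ => exact h.1

theorem Conn.symm {Z : Set (Site d)} {u v : Site d} (h : Conn Z u v) (hu : u ∈ Z) :
    Conn Z v u := by
  induction h with
  | refl => exact .refl
  | tail h1 h2 ih =>
    exact Relation.ReflTransGen.head ⟨Conn.mem h1 hu, h2.2.symm⟩ ih

theorem Conn.trans {Z : Set (Site d)} {u v w : Site d} (h : Conn Z u v) (h' : Conn Z v w) :
    Conn Z u w := Relation.ReflTransGen.trans h h'

theorem Conn.mono {Z Z' : Set (Site d)} (hZ : Z ⊆ Z') {u v : Site d} (h : Conn Z u v) :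
    Conn Z' u v := by
  induction h with
  | refl => exact .refl
  | tail _ h2 ih => exact Relation.ReflTransGen.tail ih ⟨hZ h2.1, h2.2⟩

theorem conn_step {Z : Set (Site d)} {u v : Site d} (hv : v ∈ Z) (h : Near 1 u v) :
    Conn Z u v := Relation.ReflTransGen.single ⟨hv, h⟩

/-- the bounding box of the cluster of `u` -/
def Box (Z : Set (Site d)) (u w : Site d) : Prop :=
  ∀ k, (∃ c, Conn Z u c ∧ c k ≤ w k) ∧ ∃ c, Conn Z u c ∧ w k ≤ c k

theorem box_of_conn {Z : Set (Site d)} {u w : Site d} (h : Conn Z u w) : Box Z u w :=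
  fun _ => ⟨⟨w, h, le_rfl⟩, ⟨w, h, le_rfl⟩⟩

/-- the clusters of `u` and `v` have bounding boxes which meet -/
def Rel (Z : Set (Site d)) (u v : Site d) : Prop := u ∈ Z ∧ v ∈ Z ∧ ∃ w, Box Z u w ∧ Box Z v w

/-- the neighbourhood of radius `r` -/
def Nbh (r : ℤ) (Bad : Set (Site d)) : Set (Site d) := {v | ∃ b ∈ Bad, Near r v b}

/-- `u` and `v` are linked by a chain of clusters -/
def Lk (Z : Set (Site d)) (u v : Site d) : Prop := Relation.ReflTransGen (Rel Z) u v

/-- the region of `u`: the bounding boxes of the clusters which are linked to `u` -/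
def Reg (Z : Set (Site d)) (u : Site d) : Set (Site d) := {w | ∃ v ∈ Z, Lk Z u v ∧ Box Z v w}

theorem reg_dich {Z : Set (Site d)} {a u : Site d} (hu : u ∈ Z) :
    (∀ w, Box Z u w → w ∈ Reg Z a) ∨ ∀ w, Box Z u w → w ∉ Reg Z a := by
  by_cases h : ∃ w, Box Z u w ∧ w ∈ Reg Z a
  · obtain ⟨w, hw, v, hv, hav, hvw⟩ := h
    exact Or.inl fun w' hw' => ⟨u, hu, hav.tail ⟨hv, hu, w, hvw, hw⟩, hw'⟩
  · push Not at h
    exact Or.inr h

theorem near_eb (x : Site d) (a b : Fin d) : Near 1 (x + e a) (x + e b) := fun k => by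
  simp only [e, Pi.add_apply, Pi.single_apply]
  split_ifs <;> simp

theorem bd_base {p : Plaq d} {a b : Fin d} (hpl : Pl a b p) {y : Link d} (hy : y ∈ bd p) :
    y.1 = p.x ∨ y.1 = p.x + e a ∨ y.1 = p.x + e b := by
  obtain ⟨y, c⟩ := y
  obtain ⟨b', hb', h⟩ := mem_bd hy
  rcases hb' with ⟨h1, h2⟩ | ⟨h1, h2⟩ <;> rcases hpl with ⟨h3, h4⟩ | ⟨h3, h4⟩ <;>
    rcases h with h | h <;> subst h1 h2 h3 h4 <;> simp_all

/-- the links of a face close to the bad blocks are contained in one bounding box -/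
theorem face_near (l : ℤ) (hl : 0 < l) (r s : ℤ) (hsr : s + 1 ≤ r) (Bad : Set (Site d))
    (p : Plaq d) (b : Site d) (hb : b ∈ Bad) (hpb : Near s (bl l p.x) b) :
    ∃ u ∈ Nbh r Bad, ∀ y ∈ bd p, Box (Nbh r Bad) u (bl l y.1) := by
  refine ⟨bl l p.x, ⟨b, hb, hpb.mono (by omega)⟩, fun y hy => box_of_conn ?_⟩
  have h1 : Near 1 y.1 p.x := by
    rcases bd_base (Or.inl ⟨rfl, rfl⟩ : Pl p.i p.j p) hy with h | h | h <;> rw [h]
    · exact near_self (by norm_num) _
    · exact near_e _ _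
    · exact near_e _ _
  have h2 := near_bl hl h1
  exact conn_step ⟨b, hb, (h2.trans hpb).mono (by omega)⟩ h2.symm

/-- the links of a face of the core in a plane without restriction are contained in one bounding
box -/
theorem face_plane (l : ℤ) (hl : 0 < l) (FP MP : Fin d → Fin d → Prop)
    (hFM : ∀ a b b', FP a b → ¬ MP a b') (hFs : ∀ a b, FP a b → FP b a)
    (hMs : ∀ a b, MP a b → MP b a) (hM1 : ∀ a b b', MP a b → MP a b' → b = b')
    (S : Set (Link d)) (R : Finset (Plaq d)) (hcore : IsCore bd S R)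
    (hR : ∀ p ∈ R, FP p.i p.j ∨ MP p.i p.j) (r : ℤ) (hr : 2 ≤ r) (Bad : Set (Site d))
    (hS : ∀ y ∈ S, bl l y.1 ∈ Nbh 1 Bad) (p : Plaq d) (hp : p ∈ R) (a b : Fin d) (hab : MP a b)
    (hpl : Pl a b p) :
    ∃ u ∈ Nbh r Bad, ∀ y ∈ bd p, Box (Nbh r Bad) u (bl l y.1) := by
  obtain ⟨s₁, s₂, h1, h2, h3, h4, h5⟩ := core_plane l hl FP MP hFM hFs hMs hM1 S R hcore hR
    (Nbh 1 Bad) hS p hp a b hab hpl
  have hsub : Nbh 1 Bad ⊆ Nbh r Bad := fun v ⟨b, hb, hv⟩ => ⟨b, hb, hv.mono (by omega)⟩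
  have hne : a ≠ b := by
    rintro rfl
    rcases hpl with ⟨h1, h2⟩ | ⟨h1, h2⟩ <;> exact absurd p.lt (by rw [h1, h2]; exact lt_irrefl _)
  have h5' : Conn (Nbh r Bad) (bl l (p.x + Pi.single a s₁)) (bl l (p.x + Pi.single a s₂)) :=
    Conn.mono hsub h5
  -- the neighbour of the left end
  have h6 : Near 1 (bl l (p.x + Pi.single a s₁)) (bl l (p.x + Pi.single a s₁ + e b)) :=
    (near_bl hl (near_e _ _)).symm
  have h7 : bl l (p.x + Pi.single a s₁ + e b) ∈ Nbh r Bad := by
    obtain ⟨b', hb', hv⟩ := h3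
    exact ⟨b', hb', (h6.symm.trans hv).mono (by omega)⟩
  refine ⟨_, hsub h3, fun y hy k => ?_⟩
  have hy' := bd_base hpl hy
  by_cases hka : k = a
  · subst hka
    refine ⟨⟨_, .refl, ?_⟩, ⟨_, h5', ?_⟩⟩
    · refine Int.ediv_le_ediv hl ?_
      rcases hy' with h | h | h <;> rw [h] <;>
        simp only [e, Pi.add_apply, Pi.single_eq_same, Pi.single_eq_of_ne hne] <;> omega
    · refine Int.ediv_le_ediv hl ?_
      rcases hy' with h | h | h <;> rw [h] <;>
        simp only [e, Pi.add_apply, Pi.single_eq_same, Pi.single_eq_of_ne hne] <;> omega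
  · by_cases hkb : k = b
    · subst hkb
      refine ⟨⟨_, .refl, ?_⟩, ⟨_, conn_step h7 h6, ?_⟩⟩
      · refine Int.ediv_le_ediv hl ?_
        rcases hy' with h | h | h <;> rw [h] <;>
          simp only [e, Pi.add_apply, Pi.single_eq_same, Pi.single_eq_of_ne hka] <;> omega
      · refine Int.ediv_le_ediv hl ?_
        rcases hy' with h | h | h <;> rw [h] <;>
          simp only [e, Pi.add_apply, Pi.single_eq_same, Pi.single_eq_of_ne hka] <;> omega
    · have hk : (bl l y.1) k = (bl l (p.x + Pi.single a s₁)) k := by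
        show y.1 k / l = (p.x + Pi.single a s₁ : Site d) k / l
        congr 1
        rcases hy' with h | h | h <;> rw [h] <;>
          simp [e, Pi.single_eq_of_ne hka, Pi.single_eq_of_ne hkb]
      exact ⟨⟨_, .refl, hk.ge⟩, ⟨_, .refl, hk.le⟩⟩

end Pool.Agent.T2h96
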