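import Pool.Agent.T2h96.Lim

/-!
# helper96: translations and reflections
-/

set_option autoImplicit false
set_option linter.unusedSectionVars false

noncomputable section

namespace Pool.Agent.T2h96

open MeasureTheory Measure Function Filter Classical
open scoped Topology

section reindex

variable {L Ω : Type} [MeasurableSpace Ω] (ν : Measure Ω) [IsProbabilityMeasure ν]

/-- permutation of the coordinates and measure preserving maps of the coordinates -/
theorem mp_reindex (π : L ≃ L) (f : L → Ω → Ω) (hf : ∀ b, MeasurePreserving (f b) ν ν) :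
    MeasurePreserving (fun U : L → Ω => fun b => f b (U (π b)))
      (infinitePi fun _ : L => ν) (infinitePi fun _ : L => ν) := by
  have hm : Measurable (fun U : L → Ω => fun b => f b (U (π b))) :=
    measurable_pi_iff.2 fun b => (hf b).measurable.comp (measurable_pi_apply _)
  refine ⟨hm, eq_infinitePi _ fun s t ht => ?_⟩
  rw [map_apply hm (.pi s.countable_toSet fun _ _ => ht _)]
  have hset : (fun U : L → Ω => fun b => f b (U (π b))) ⁻¹' ((s : Set L).pi t) =
      ((s.map π.toEmbedding : Finset L) : Set L).pi fun c => f (π.symm c) ⁻¹' t (π.symm c) := by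
    ext U
    simp only [Set.mem_preimage, Set.mem_pi, Finset.mem_coe, Finset.mem_map, Equiv.coe_toEmbedding]
    constructor
    · rintro h _ ⟨b, hb, rfl⟩
      rw [Equiv.symm_apply_apply]
      exact h b hb
    · intro h b hb
      have := h (π b) ⟨b, hb, rfl⟩
      rwa [Equiv.symm_apply_apply] at this
  rw [hset, infinitePi_pi _ (fun c _ => (hf _).measurable (ht _)), Finset.prod_map]
  refine Finset.prod_congr rfl fun b _ => ?_
  rw [Equiv.coe_toEmbedding, Equiv.symm_apply_apply]
  exact (hf b).measure_preimage (ht b).nullMeasurableSet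

end reindex

variable {d : ℕ}

/-- the reflection of the coordinate `τ` -/
def refl (τ : Fin d) (x : Site d) : Site d := fun k => if k = τ then -x k else x k

theorem refl_refl (τ : Fin d) (x : Site d) : refl τ (refl τ x) = x := by
  funext k
  by_cases h : k = τ <;> simp [refl, h]

theorem refl_add (τ : Fin d) (x y : Site d) : refl τ (x + y) = refl τ x + refl τ y := by
  funext k
  by_cases h : k = τ
  · simp only [refl, if_pos h, Pi.add_apply]; ring
  · simp only [refl, if_neg h, Pi.add_apply]

theorem refl_e (τ : Fin d) : refl τ (e τ : Site d) = -e τ := by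
  funext k
  by_cases h : k = τ
  · simp [refl, h, e]
  · simp [refl, h, e, Pi.single_eq_of_ne]

theorem refl_e_ne (τ i : Fin d) (hi : i ≠ τ) : refl τ (e i : Site d) = e i := by
  funext k
  by_cases h : k = τ
  · subst h
    simp [refl, e, Pi.single_eq_of_ne hi.symm]
  · simp [refl, h]

theorem refl_aux (τ : Fin d) (x : Site d) : refl τ (refl τ x - e τ) - e τ = x := by
  rw [sub_eq_add_neg (refl τ x), refl_add, refl_refl]
  have h2 : refl τ (-e τ : Site d) = e τ := by rw [← refl_e, refl_refl]
  rw [h2, add_sub_cancel_right]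

/-- the reflection of links -/
def reflL (τ : Fin d) (b : Link d) : Link d :=
  if b.2 = τ then (refl τ b.1 - e τ, b.2) else (refl τ b.1, b.2)

theorem reflL_reflL (τ : Fin d) (b : Link d) : reflL τ (reflL τ b) = b := by
  obtain ⟨x, i⟩ := b
  by_cases h : i = τ
  · subst h
    have h1 : refl i (refl i x - e i) - e i = x := refl_aux i x
    simp [reflL, h1]
  · simp [reflL, h, refl_refl]

/-- the reflection as a permutation of the links -/
def reflE (τ : Fin d) : Link d ≃ Link d := ⟨reflL τ, reflL τ, reflL_reflL τ, reflL_reflL τ⟩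

/-- The reflection of a gauge field in the hyperplane of the sites with `τ`-coordinate `0`. -/
def reflC {G : Type} [Group G] (τ : Fin d) (U : Link d → G) : Link d → G := fun b =>
  if b.2 = τ then (U (refl τ b.1 - e τ, b.2))⁻¹ else U (refl τ b.1, b.2)

theorem reflC_eq {G : Type} [Group G] (τ : Fin d) (U : Link d → G) (b : Link d) :
    reflC τ U b = if b.2 = τ then (U (reflL τ b))⁻¹ else U (reflL τ b) := by
  unfold reflC reflL
  split_ifs <;> rfl

theorem reflC_reflC {G : Type} [Group G] (τ : Fin d) (U : Link d → G) :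
    reflC τ (reflC τ U) = U := by
  funext b
  rw [reflC_eq, reflC_eq, reflL_reflL]
  have h : (reflL τ b).2 = b.2 := by unfold reflL; split_ifs <;> rfl
  rw [h]
  split_ifs
  · rw [inv_inv]
  · rfl

/-- The translation of a gauge field by `n` in the direction `τ`. -/
def shiftC {G : Type} (τ : Fin d) (n : ℤ) (U : Link d → G) : Link d → G := fun b =>
  U (b.1 + Pi.single τ n, b.2)

theorem shiftC_shiftC {G : Type} (τ : Fin d) (n k : ℤ) (U : Link d → G) :
    shiftC τ n (shiftC τ k U) = shiftC τ (n + k) U := by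
  funext b
  unfold shiftC
  simp only [add_assoc, ← Pi.single_add]

theorem shiftC_zero {G : Type} (τ : Fin d) (U : Link d → G) : shiftC τ 0 U = U := by
  funext b
  unfold shiftC
  simp

theorem refl_single (τ : Fin d) (n : ℤ) : refl τ (Pi.single τ n : Site d) = Pi.single τ (-n) := by
  funext k
  by_cases h : k = τ
  · subst h; simp [refl]
  · simp [refl, h, Pi.single_eq_of_ne h]

theorem shiftC_reflC {G : Type} [Group G] (τ : Fin d) (n : ℤ) (U : Link d → G) :
    shiftC τ n (reflC τ U) = reflC τ (shiftC τ (-n) U) := by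
  funext b
  unfold shiftC reflC
  simp only [refl_add, refl_single]
  split_ifs
  · congr 3
    abel
  · rfl

/-- the translation as a permutation of the links -/
def shiftE (τ : Fin d) (n : ℤ) : Link d ≃ Link d :=
  ⟨fun b => (b.1 + Pi.single τ n, b.2), fun b => (b.1 - Pi.single τ n, b.2),
    fun b => by simp, fun b => by simp⟩

/-- translation of plaquettes -/
def shiftP (τ : Fin d) (n : ℤ) : Plaq d ≃ Plaq d :=
  ⟨fun p => ⟨p.x + Pi.single τ n, p.i, p.j, p.lt⟩, fun p => ⟨p.x - Pi.single τ n, p.i, p.j, p.lt⟩,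
    fun p => by simp, fun p => by simp⟩

/-- reflection of plaquettes -/
def reflPf (τ : Fin d) (p : Plaq d) : Plaq d :=
  ⟨if p.i = τ ∨ p.j = τ then refl τ p.x - e τ else refl τ p.x, p.i, p.j, p.lt⟩

theorem reflPf_reflPf (τ : Fin d) (p : Plaq d) : reflPf τ (reflPf τ p) = p := by
  have h1 : refl τ (refl τ p.x - e τ) - e τ = p.x := refl_aux τ p.x
  by_cases h : p.i = τ ∨ p.j = τ
  · refine Plaq.ext ?_ rfl rfl
    simp only [reflPf, if_pos h, h1]
  · refine Plaq.ext ?_ rfl rfl
    simp only [reflPf, if_neg h, refl_refl]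

/-- reflection as a permutation of the plaquettes -/
def reflP (τ : Fin d) : Plaq d ≃ Plaq d := ⟨reflPf τ, reflPf τ, reflPf_reflPf τ, reflPf_reflPf τ⟩

theorem hol_shiftC {G : Type} [Group G] (τ : Fin d) (n : ℤ) (U : Link d → G) (p : Plaq d) :
    hol (shiftC τ n U) p = hol U (shiftP τ n p) := by
  unfold hol shiftC shiftP
  simp only [Equiv.coe_fn_mk]
  rw [add_right_comm p.x (e p.i), add_right_comm p.x (e p.j)]

/-- The weights depend only on the plane, are class functions and even. -/
structure Homog {G : Type} [Group G] (W : Plaq d → G → ℝ) : Prop where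
  plane : ∀ p q : Plaq d, p.i = q.i → p.j = q.j → W p = W q
  conj : ∀ p g h, W p (h * g * h⁻¹) = W p g
  inv : ∀ p g, W p g⁻¹ = W p g

theorem W_shift {G : Type} [Group G] {W : Plaq d → G → ℝ} (hW : Homog W) (τ : Fin d) (n : ℤ)
    (U : Link d → G) (p : Plaq d) :
    W (shiftP τ n p) (hol U (shiftP τ n p)) = W p (hol (shiftC τ n U) p) := by
  rw [hol_shiftC, hW.plane (shiftP τ n p) p rfl rfl]

theorem W_refl {G : Type} [Group G] {W : Plaq d → G → ℝ} (hW : Homog W) (τ : Fin d)
    (U : Link d → G) (p : Plaq d) :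
    W (reflP τ p) (hol U (reflP τ p)) = W p (hol (reflC τ U) p) := by
  have hplane : W (reflP τ p) = W p := hW.plane _ _ rfl rfl
  rw [hplane]
  have hij : p.i ≠ p.j := p.lt.ne
  have hy : refl τ p.x - e τ + e τ = refl τ p.x := sub_add_cancel _ _
  by_cases hi : p.i = τ
  · have hj : p.j ≠ τ := fun h => hij (hi.trans h.symm)
    have hx : (reflP τ p).x = refl τ p.x - e τ := by
      show (if p.i = τ ∨ p.j = τ then refl τ p.x - e τ else refl τ p.x) = _
      rw [if_pos (Or.inl hi)]
    set y := refl τ p.x - e τ with hydef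
    have e1 : hol (reflC τ U) p = (U (y, τ))⁻¹ * (U (y, p.j) * U (y + e p.j, τ) *
        (U (y + e τ, p.j))⁻¹) := by
      unfold hol reflC
      simp only [hi, if_true, if_neg hj]
      rw [refl_add, refl_add, refl_e, refl_e_ne τ p.j hj, hy, ← sub_eq_add_neg,
        add_sub_right_comm, ← hydef]
      group
    have e2 : hol U (reflP τ p) = U (y, τ) * U (y + e τ, p.j) * (U (y + e p.j, τ))⁻¹ *
        (U (y, p.j))⁻¹ := by
      show U ((reflP τ p).x, p.i) * U ((reflP τ p).x + e p.i, p.j) *
        (U ((reflP τ p).x + e p.j, p.i))⁻¹ * (U ((reflP τ p).x, p.j))⁻¹ = _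
      rw [hx, hi]
    have e3 : hol (reflC τ U) p = (U (y, τ))⁻¹ * (hol U (reflP τ p))⁻¹ * (U (y, τ))⁻¹⁻¹ := by
      rw [e1, e2]
      group
    rw [e3, hW.conj, hW.inv]
  · by_cases hj : p.j = τ
    · have hx : (reflP τ p).x = refl τ p.x - e τ := by
        show (if p.i = τ ∨ p.j = τ then refl τ p.x - e τ else refl τ p.x) = _
        rw [if_pos (Or.inr hj)]
      set y := refl τ p.x - e τ with hydef
      have e1 : hol (reflC τ U) p = U (y + e τ, p.i) * (U (y + e p.i, τ))⁻¹ * (U (y, p.i))⁻¹ *
          U (y, τ) := by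
        unfold hol reflC
        simp only [hj, if_true, if_neg hi]
        rw [refl_add, refl_add, refl_e, refl_e_ne τ p.i hi, hy, ← sub_eq_add_neg,
          add_sub_right_comm, ← hydef]
        group
      have e2 : hol U (reflP τ p) = U (y, p.i) * U (y + e p.i, τ) * (U (y + e τ, p.i))⁻¹ *
          (U (y, τ))⁻¹ := by
        show U ((reflP τ p).x, p.i) * U ((reflP τ p).x + e p.i, p.j) *
          (U ((reflP τ p).x + e p.j, p.i))⁻¹ * (U ((reflP τ p).x, p.j))⁻¹ = _
        rw [hx, hj]
      have e3 : hol (reflC τ U) p = (U (y, τ))⁻¹ * (hol U (reflP τ p))⁻¹ * (U (y, τ))⁻¹⁻¹ := by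
        rw [e1, e2]
        group
      rw [e3, hW.conj, hW.inv]
    · have hx : (reflP τ p).x = refl τ p.x := by
        show (if p.i = τ ∨ p.j = τ then refl τ p.x - e τ else refl τ p.x) = _
        rw [if_neg (by tauto)]
      congr 1
      show U ((reflP τ p).x, p.i) * U ((reflP τ p).x + e p.i, p.j) *
        (U ((reflP τ p).x + e p.j, p.i))⁻¹ * (U ((reflP τ p).x, p.j))⁻¹ = _
      unfold hol reflC
      simp only [if_neg hi, if_neg hj]
      rw [hx, refl_add, refl_add, refl_e_ne τ p.i hi, refl_e_ne τ p.j hj]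

end Pool.Agent.T2h96
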