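import Pool.Agent.T2h96.Expand

/-!
# helper96: terms of the expansion whose observables are not linked vanish
-/

set_option autoImplicit false
set_option linter.unusedSectionVars false

noncomputable section

namespace Pool.Agent.T2h96

open MeasureTheory Measure Function

variable {d : ℕ}

theorem conn_ball {Z : Set (Site d)} {u w : Site d} {r : ℕ} (hZ : ∀ v, Near r v u → v ∈ Z)
    (h : Near r w u) : Conn Z u w := by
  set z : ℕ → Site d := fun t k => u k + max (-(t : ℤ)) (min (t : ℤ) (w k - u k)) with hz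
  have h0 : z 0 = u := by
    funext k
    simp only [hz]
    push_cast
    omega
  have hn : z r = w := by
    funext k
    have := h k
    rw [abs_le] at this
    simp only [hz]
    omega
  have hstep : ∀ t, Near 1 (z t) (z (t + 1)) := by
    intro t k
    simp only [hz]
    push_cast
    rw [abs_le]
    omega
  have hball : ∀ t, Near r (z t) u := by
    intro t k
    have := h k
    rw [abs_le] at this ⊢
    simp only [hz]
    omega
  have hconn : ∀ t, Conn Z u (z t) := by
    intro t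
    induction t with
    | zero => rw [h0]; exact .refl
    | succ t ih => exact Relation.ReflTransGen.tail ih ⟨hZ _ (hball _), hstep t⟩
  rw [← hn]
  exact hconn r

theorem mem_nbh_self {r : ℕ} {Bad : Set (Site d)} {v : Site d} (h : v ∈ Bad) :
    v ∈ Nbh r Bad := ⟨v, h, near_self (by positivity) _⟩

variable {G : Type} [Group G] [TopologicalSpace G] [IsTopologicalGroup G]
  [CompactSpace G] [T2Space G] [SecondCountableTopology G] [MeasurableSpace G] [BorelSpace G]
  (μ : Measure G) [μ.IsHaarMeasure] [IsProbabilityMeasure μ]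

theorem vanish (D : Dir d) {l : ℕ} (hl : 0 < l) {W : Plaq d → G → ℝ} (hW : WOK W)
    (a : Plaq d → ℝ) [DecidableEq (Plaq d)] (PM PX Y : Finset (Plaq d))
    (hPM : ∀ p ∈ PM, D.MP p.i p.j)
    (hPX : ∀ p ∈ PX, ¬ D.MP p.i p.j) (hY : Y ⊆ PX) (r : ℕ) (u v : Site d)
    {A B : (Link d → G × G) → ℝ} (hA : BM A) (hB : BM B)
    (hAs : ∀ U, A (fun l => (U l).swap) = - A U)
    (hAd : DepOn {y | Near r (bl l y.1) u} A) (hBd : DepOn {y | Near r (bl l y.1) v} B)
    (hlk : ¬ Linked D l r u v Y) :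
    ∫ U, A U * B U * ∏ p ∈ PM ∪ Y, gg W a p U ∂(infinitePi fun _ : Link d => μ.prod μ) = 0 := by
  classical
  have hl' : (0 : ℤ) < l := by exact_mod_cast hl
  set Bad : Set (Site d) := ↑(badS D l r u v Y) with hBad
  set Z : Set (Site d) := Nbh (Rad d) Bad with hZ
  set Yw := Y.filter fun p => ¬ D.FP p.i p.j with hYw
  set Yf := Y.filter fun p => D.FP p.i p.j with hYf
  set S : Set (Link d) := ({y | Near r (bl l y.1) u} ∪ {y | Near r (bl l y.1) v}) ∪
    {y | ∃ p ∈ Yw, y ∈ bd p} with hS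
  obtain ⟨R, hR0, hcore, k, hk⟩ := exists_core (faces μ hW a) S (PM ∪ Yf)
  -- membership in `Bad`
  have hbadu : ∀ w, Near r w u → w ∈ Bad := by
    intro w hw
    rw [hBad, Finset.mem_coe, badS, Finset.mem_union, Finset.mem_union]
    exact Or.inr (Or.inl (mem_ball.2 hw))
  have hbadv : ∀ w, Near r w v → w ∈ Bad := by
    intro w hw
    rw [hBad, Finset.mem_coe, badS, Finset.mem_union, Finset.mem_union]
    exact Or.inr (Or.inr (mem_ball.2 hw))
  have hbadF : ∀ w, IsBad D l Y w → w ∈ Bad := by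
    intro w hw
    rw [hBad, Finset.mem_coe, badS, Finset.mem_union]
    exact Or.inl ((mem_badF hl).2 hw)
  have hweak : ∀ p ∈ Yw, bl l p.x ∈ Bad := by
    intro p hp
    rw [hYw, Finset.mem_filter] at hp
    exact hbadF _ (Or.inl ⟨p, hp.1, hp.2, rfl⟩)
  have hB1 : ∀ y ∈ S, ∃ b ∈ Bad, Near 1 (bl l y.1) b := by
    rintro y ((hy | hy) | ⟨p, hp, hy⟩)
    · exact ⟨_, hbadu _ hy, near_self (by norm_num) _⟩
    · exact ⟨_, hbadv _ hy, near_self (by norm_num) _⟩
    · refine ⟨_, hweak p hp, near_bl hl' ?_⟩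
      rcases bd_base (Or.inl ⟨rfl, rfl⟩ : Pl p.i p.j p) hy with h | h | h <;> rw [h]
      · exact near_self (by norm_num) _
      · exact near_e _ _
      · exact near_e _ _
  have hRmem : ∀ p ∈ R, p ∈ PM ∨ p ∈ Yf := fun p hp => by
    have := hR0 hp
    rwa [Finset.mem_union] at this
  have hRpl : ∀ p ∈ R, D.FP p.i p.j ∨ D.MP p.i p.j := by
    intro p hp
    rcases hRmem p hp with h | h
    · exact Or.inr (hPM p h)
    · rw [hYf, Finset.mem_filter] at h
      exact Or.inl h.2
  have hB2 : ∀ x, bl l x ∉ Bad → ∀ c, D.FP c (D.par c) → ∃ y, bl l y = bl l x ∧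
      (∀ k, k ≠ D.par c → y k = x k) ∧ ∀ p ∈ R, p.x = y → ¬ Pl c (D.par c) p := by
    intro x hx c hc
    have h1 : ¬ IsBad D l Y (bl l x) := fun h => hx (hbadF _ h)
    unfold IsBad at h1
    push Not at h1
    set z : Site d := Function.update x (D.par c) (l * (bl l x) (D.par c)) with hz
    have hzp : z (D.par c) = l * (bl l x) (D.par c) := by rw [hz, update_self]
    have hzb : bl l z = bl l x := by
      funext j
      by_cases hj : j = D.par c
      · subst hj
        show z (D.par c) / l = (bl l x) (D.par c)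
        rw [hzp]
        exact Int.mul_ediv_cancel_left _ hl'.ne'
      · show z j / l = x j / l
        rw [hz, update_of_ne hj]
    have h2 := h1.2 c hc z hzb hzp
    unfold LineIn at h2
    push Not at h2
    obtain ⟨t, ht, h3⟩ := h2
    refine ⟨z + Pi.single (D.par c) (t : ℤ), bl_line hl hzb hzp t ht, ?_, ?_⟩
    · intro k hk
      rw [Pi.add_apply, Pi.single_eq_of_ne hk, add_zero, hz, update_of_ne hk]
    · intro p hp hpx hpl
      have hFP : D.FP p.i p.j := by
        rcases hpl with ⟨h1, h2⟩ | ⟨h1, h2⟩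
        · rw [h1, h2]; exact hc
        · rw [h1, h2]; exact D.hFs _ _ hc
      rcases hRmem p hp with h | h
      · exact D.hFM _ _ _ hFP (hPM p h)
      · rw [hYf, Finset.mem_filter] at h
        exact h3 p h.1 hpx hpl
  -- every face lies in a bounding box
  have hbox : ∀ p, p ∈ R ∨ p ∈ Yw → ∃ w ∈ Z, ∀ y ∈ bd p, Box Z w (bl l y.1) := by
    rintro p (hp | hp)
    · rcases hRpl p hp with hF | hM
      · -- forest face
        have hex : ∃ c, D.FP c (D.par c) ∧ Pl c (D.par c) p := by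
          rcases D.hpar _ _ hF with h | h
          · exact ⟨p.i, by rw [← h]; exact hF, Or.inl ⟨rfl, h⟩⟩
          · exact ⟨p.j, by rw [← h]; exact D.hFs _ _ hF, Or.inr ⟨h, rfl⟩⟩
        obtain ⟨c, hc, hpl⟩ := hex
        obtain ⟨b, hb, hn⟩ := core_forest l hl' D.FP D.MP D.par D.rank D.hFM D.hFs D.hMs D.hpar
          D.hrank S R hcore hRpl Bad hB1 hB2 (D.rank c) p c rfl hp hc hpl
        have hrd := D.hrd c
        exact face_near l hl' (Rad d) (D.rank c + 1) (by unfold Rad; push_cast; omega) Bad p b hb hn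
      · exact face_plane l hl' D.FP D.MP D.hFM D.hFs D.hMs D.hM1 S R hcore hRpl (Rad d)
          (by unfold Rad; push_cast; omega) Bad (fun y hy => hB1 y hy) p hp p.i p.j hM
          (Or.inl ⟨rfl, rfl⟩)
    · exact face_near l hl' (Rad d) 0 (by unfold Rad; push_cast; omega) Bad p _ (hweak p hp)
        (near_self le_rfl _)
  have huZ : u ∈ Z := mem_nbh_self (hbadu u (near_self (by positivity) _))
  have hvZ : v ∈ Z := mem_nbh_self (hbadv v (near_self (by positivity) _))
  set T : Set (Link d) := {y | bl l y.1 ∈ Reg Z u} with hT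
  have hdich : ∀ p, p ∈ R ∨ p ∈ Yw → (bd p ⊆ T ∨ bd p ⊆ Tᶜ) := by
    intro p hp
    obtain ⟨w, hw, hwb⟩ := hbox p hp
    rcases reg_dich (a := u) hw with h | h
    · exact Or.inl fun y hy => h _ (hwb y hy)
    · exact Or.inr fun y hy => h _ (hwb y hy)
  have hAT : {y : Link d | Near r (bl l y.1) u} ⊆ T := fun y hy =>
    ⟨u, huZ, .refl, box_of_conn (conn_ball (fun w hw => mem_nbh_self (hbadu w hw)) hy)⟩
  have hBT : {y : Link d | Near r (bl l y.1) v} ⊆ Tᶜ := by
    rintro y hy ⟨w, hw, hlw, hbw⟩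
    refine hlk (hlw.tail ⟨hw, hvZ, _, hbw, ?_⟩)
    exact box_of_conn (conn_ball (fun w hw => mem_nbh_self (hbadv w hw)) hy)
  -- the two factors
  set F1 : (Link d → G × G) → ℝ := fun U => A U *
    ((∏ p ∈ Yw.filter (fun p => bd p ⊆ T), gg W a p U) *
      ∏ p ∈ R.filter (fun p => bd p ⊆ T), gg W a p U) with hF1
  set F2 : (Link d → G × G) → ℝ := fun U => B U *
    ((∏ p ∈ Yw.filter (fun p => ¬ bd p ⊆ T), gg W a p U) *
      ∏ p ∈ R.filter (fun p => ¬ bd p ⊆ T), gg W a p U) with hF2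
  have hbm : ∀ s : Finset (Plaq d), BM fun U => ∏ p ∈ s, gg W a p U := fun s =>
    BM.prod s fun p _ => gg_bm hW a p
  have hF1bm : BM F1 := hA.mul ((hbm _).mul (hbm _))
  have hF2bm : BM F2 := hB.mul ((hbm _).mul (hbm _))
  have hF1T : DepOn T F1 := by
    refine (hAd.mono hAT).mul ((DepOn.prod _ fun p hp => ?_).mul (DepOn.prod _ fun p hp => ?_))
    · exact (gg_dep W a p).mono (Finset.mem_filter.1 hp).2
    · exact (gg_dep W a p).mono (Finset.mem_filter.1 hp).2
  have hF2T : DepOn Tᶜ F2 := by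
    refine (hBd.mono hBT).mul ((DepOn.prod _ fun p hp => ?_).mul (DepOn.prod _ fun p hp => ?_))
    · rw [Finset.mem_filter] at hp
      exact (gg_dep W a p).mono ((hdich p (Or.inr hp.1)).resolve_left hp.2)
    · rw [Finset.mem_filter] at hp
      exact (gg_dep W a p).mono ((hdich p (Or.inl hp.1)).resolve_left hp.2)
  have hF1z : ∫ U, F1 U ∂(infinitePi fun _ : Link d => μ.prod μ) = 0 := by
    refine integral_antisymm μ hF1bm fun U => ?_
    simp only [hF1, hAs, gg_swap]
    ring
  have hzero : ∫ U, (A U * B U * ∏ p ∈ Yw, gg W a p U) * ∏ p ∈ R, gg W a p U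
      ∂(infinitePi fun _ : Link d => μ.prod μ) = 0 := by
    have h1 : ∀ U, (A U * B U * ∏ p ∈ Yw, gg W a p U) * ∏ p ∈ R, gg W a p U = F1 U * F2 U := by
      intro U
      rw [← Finset.prod_filter_mul_prod_filter_not Yw (fun p => bd p ⊆ T),
        ← Finset.prod_filter_mul_prod_filter_not R (fun p => bd p ⊆ T)]
      simp only [hF1, hF2]
      ring
    simp only [h1]
    rw [integral_factor (μ.prod μ) T hF1bm hF2bm hF1T hF2T, hF1z, zero_mul]
  have hF0bm : BM fun U => A U * B U * ∏ p ∈ Yw, gg W a p U := (hA.mul hB).mul (hbm _)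
  have hF0S : DepOn S fun U => A U * B U * ∏ p ∈ Yw, gg W a p U := by
    refine DepOn.mul (DepOn.mul (hAd.mono ?_) (hBd.mono ?_)) (DepOn.prod _ fun p hp => ?_)
    · exact fun y hy => Or.inl (Or.inl hy)
    · exact fun y hy => Or.inl (Or.inr hy)
    · exact (gg_dep W a p).mono fun y hy => Or.inr ⟨p, hp, hy⟩
  have hk' := hk _ hF0bm hF0S
  have hk2 : ∫ U, (A U * B U * ∏ p ∈ Yw, gg W a p U) * ∏ p ∈ PM ∪ Yf, gg W a p U
      ∂(infinitePi fun _ : Link d => μ.prod μ) = k * 0 := by
    rw [← hzero]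
    exact hk'
  rw [mul_zero] at hk2
  rw [← hk2]
  refine integral_congr_ae (.of_forall fun U => ?_)
  show A U * B U * ∏ p ∈ PM ∪ Y, gg W a p U =
    (A U * B U * ∏ p ∈ Yw, gg W a p U) * ∏ p ∈ PM ∪ Yf, gg W a p U
  have hdisj : Disjoint Yw (PM ∪ Yf) := by
    rw [Finset.disjoint_left]
    intro p hp hp'
    rw [hYw, Finset.mem_filter] at hp
    rw [Finset.mem_union] at hp'
    rcases hp' with h | h
    · exact hPX p (hY hp.1) (hPM p h)
    · rw [hYf, Finset.mem_filter] at h
      exact hp.2 h.2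
  have hun : PM ∪ Y = Yw ∪ (PM ∪ Yf) := by
    ext p
    simp only [hYw, hYf, Finset.mem_union, Finset.mem_filter]
    tauto
  rw [hun, Finset.prod_union hdisj]
  ring

end Pool.Agent.T2h96
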